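import Pool.Agent.W972.SG.Search
import Pool.Agent.W972.SG.CoverData

/-!
# The upper bound for the necklace
-/

namespace Pool.Agent.W972.SG

open MeasureTheory Set Filter Topology ProbabilityTheory
open scoped ENNReal NNReal
open Pool.Agent.Helper569.Net

/-- The uniform measure on the random choices of one step. -/
noncomputable def coinM : Measure Coin := (24 : ℝ≥0∞)⁻¹ • Measure.count

theorem coinM_finset (A : Finset Coin) : coinM (A : Set Coin) = (24 : ℝ≥0∞)⁻¹ * A.card := by
  unfold coinM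
  rw [Measure.smul_apply, Measure.count_apply_finset, smul_eq_mul]

instance : IsProbabilityMeasure coinM := by
  constructor
  have h := coinM_finset Finset.univ
  rw [Finset.coe_univ] at h
  rw [h]
  have : (Finset.univ : Finset Coin).card = 24 := by decide
  rw [this]
  exact ENNReal.inv_mul_cancel (by norm_num) (by norm_num)

theorem coinM_singleton (c : Coin) : coinM {c} = (24 : ℝ≥0∞)⁻¹ := by
  have h := coinM_finset {c}
  rw [Finset.coe_singleton, Finset.card_singleton] at h
  rw [h]; simp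

/-- The distribution of the random choices. -/
noncomputable def PP : Measure (ℕ → Coin) := Measure.infinitePi (fun _ => coinM)

instance : IsProbabilityMeasure PP := by unfold PP; infer_instance

theorem PP_eval (n : ℕ) (A : Set Coin) : PP {ω | ω n ∈ A} = coinM A := by
  have h := (measurePreserving_eval_infinitePi (fun _ : ℕ => coinM) n).measure_preimage
    (s := A) (Set.toFinite A).measurableSet.nullMeasurableSet
  exact h

/-- The event `A` depends only on the choices with the numbers `0, …, n`. -/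
def Dep (n : ℕ) (A : Set (ℕ → Coin)) : Prop :=
  ∀ ω ω' : ℕ → Coin, (∀ i ≤ n, ω i = ω' i) → ω ∈ A → ω' ∈ A

/-- The set of the initial parts. -/
def proj (n : ℕ) (A : Set (ℕ → Coin)) : Set (Finset.range (n + 1) → Coin) :=
  {ρ | ∃ ω ∈ A, ∀ i : Finset.range (n + 1), ω i = ρ i}

theorem Dep.eq_preimage {n : ℕ} {A : Set (ℕ → Coin)} (h : Dep n A) :
    A = (fun (ω : ℕ → Coin) (i : Finset.range (n + 1)) => ω i) ⁻¹' proj n A := by
  ext ω
  constructor
  · intro hω
    exact ⟨ω, hω, fun i => rfl⟩
  · rintro ⟨ω', hω', heq⟩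
    refine h ω' ω (fun i hi => ?_) hω'
    exact heq ⟨i, Finset.mem_range.2 (by omega)⟩

theorem proj_measurable (n : ℕ) (A : Set (ℕ → Coin)) : MeasurableSet (proj n A) :=
  (Set.toFinite _).measurableSet

theorem Dep.measurable {n : ℕ} {A : Set (ℕ → Coin)} (h : Dep n A) : MeasurableSet A := by
  rw [h.eq_preimage]
  refine MeasurableSet.preimage (proj_measurable n A) ?_
  exact measurable_pi_lambda _ fun i => measurable_pi_apply _

theorem Dep.indep {n : ℕ} {A : Set (ℕ → Coin)} (h : Dep n A) (c : Coin) :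
    PP (A ∩ {ω | ω (n + 1) = c}) = PP A * (24 : ℝ≥0∞)⁻¹ := by
  have hind := (iIndepFun_infinitePi (P := fun _ : ℕ => coinM) (X := fun _ (c : Coin) => c)
    (fun _ => measurable_id)).indepFun_finset (Finset.range (n + 1)) {n + 1} (by simp)
    (fun i => measurable_pi_apply i)
  have h2 := hind.measure_inter_preimage_eq_mul (proj n A)
    {ρ : ({n + 1} : Finset ℕ) → Coin | ρ ⟨n + 1, Finset.mem_singleton_self _⟩ = c}
    (proj_measurable n A) (Set.toFinite _).measurableSet
  have h3 : PP {ω | ω (n + 1) = c} = (24 : ℝ≥0∞)⁻¹ := by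
    rw [← coinM_singleton c, ← PP_eval (n + 1) {c}]
    rfl
  rw [← h.eq_preimage] at h2
  change PP (A ∩ {ω | ω (n + 1) = c}) = PP A * PP {ω | ω (n + 1) = c} at h2
  rw [h2, h3]

variable {w : ℝ≥0} (H : HPath necklace w)

/-- The searcher has not met the hider up to the time `n`. -/
def Alive (n : ℕ) (ω : ℕ → Coin) : Prop := ∀ t : ℝ≥0, t ≤ n → spos ω t ≠ H.pos t

/-- The class of the hider at the time `n`. -/
noncomputable def cls (n : ℕ) : ℕ := min ⌊cP.f (H.pos n)⌋₊ 5

/-- The probability that the searcher is in the state `s` at the time `n`, the hider being not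
captured. -/
noncomputable def MM (n : ℕ) (s : Fin 16) : ℝ≥0∞ := PP {ω | XX ω n = s ∧ Alive H n ω}

open Classical in
/-- The lanes for which a step from the state `s` does not meet the hider. -/
noncomputable def surv (n : ℕ) (s : Fin 16) : Finset Bool :=
  Finset.univ.filter fun b => ∀ u : ℝ, 0 ≤ u → u ≤ 1 → sgo s b u ≠ H.pos (n + u.toNNReal)

theorem XX_agree {ω ω' : ℕ → Coin} : ∀ n : ℕ, (∀ i ≤ n, ω i = ω' i) → XX ω n = XX ω' n := by
  intro n
  induction n with
  | zero => intro h; simp only [XX]; rw [h 0 le_rfl]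
  | succ n ih =>
    intro h
    rw [XX, XX, ih (fun i hi => h i (by omega)), h (n + 1) le_rfl]

theorem spos_agree {ω ω' : ℕ → Coin} (n : ℕ) (h : ∀ i ≤ n, ω i = ω' i) (t : ℝ≥0) (ht : t ≤ n) :
    spos ω t = spos ω' t := by
  rcases ht.lt_or_eq with h1 | h1
  · have h2 : ⌊t⌋₊ < n := (Nat.floor_lt zero_le).2 h1
    unfold spos
    rw [XX_agree ⌊t⌋₊ (fun i hi => h i (by omega)), h (⌊t⌋₊ + 1) (by omega)]
  · rw [spos_on ω n t h1.ge (by rw [h1]; exact le_self_add),
      spos_on ω' n t h1.ge (by rw [h1]; exact le_self_add), XX_agree n h, h1]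
    simp only [NNReal.coe_natCast, sub_self]
    exact sgo_zero _ _ _

theorem alive_agree {ω ω' : ℕ → Coin} (n : ℕ) (h : ∀ i ≤ n, ω i = ω' i) (ha : Alive H n ω) :
    Alive H n ω' := by
  intro t ht
  rw [← spos_agree n h t ht]
  exact ha t ht

theorem dep_state (n : ℕ) (s : Fin 16) : Dep n {ω | XX ω n = s ∧ Alive H n ω} := by
  rintro ω ω' h ⟨h1, h2⟩
  exact ⟨by rw [← XX_agree n h]; exact h1, alive_agree H n h h2⟩

theorem dep_alive (n : ℕ) : Dep n {ω | Alive H n ω} := by
  intro ω ω' h h1
  exact alive_agree H n h h1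

theorem bleIff {x y : ℕ} : Nat.ble x y = true ↔ x ≤ y := by rw [Nat.ble_eq]

theorem f2_same {x y z z' : ℕ} (h : x ≤ z ↔ y ≤ z') : f2 x y z z' = 2 := by
  unfold f2
  by_cases h1 : x ≤ z
  · have h2 := h.1 h1
    rw [bleIff.2 h1, bleIff.2 h2]; rfl
  · have h2 : ¬ y ≤ z' := fun h3 => h1 (h.2 h3)
    rw [Bool.eq_false_iff.2 (fun h3 => h1 (bleIff.1 h3)),
      Bool.eq_false_iff.2 (fun h3 => h2 (bleIff.1 h3))]; rfl

theorem f2_diff {x y z z' : ℕ} (h : ¬ (x ≤ z ↔ y ≤ z')) (hxy : x ≠ y) : f2 x y z z' = 1 := by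
  unfold f2
  have hb : Nat.beq x y = false := Bool.eq_false_iff.2 (fun h3 => hxy (Nat.eq_of_beq_eq_true h3))
  by_cases h1 : x ≤ z
  · have h2 : ¬ y ≤ z' := fun h3 => h ⟨fun _ => h3, fun _ => h1⟩
    rw [bleIff.2 h1, Bool.eq_false_iff.2 (fun h3 => h2 (bleIff.1 h3)), hb]; rfl
  · have h2 : y ≤ z' := by
      by_contra h3
      exact h ⟨fun h4 => absurd h4 h1, fun h4 => absurd h4 h3⟩
    rw [Bool.eq_false_iff.2 (fun h3 => h1 (bleIff.1 h3)), bleIff.2 h2, hb]; rfl

theorem side_iff {h : ℝ} (h0 : 0 ≤ h) (h6 : h ≤ 6) {x : ℕ} (hne : h ≠ x) :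
    x ≤ min ⌊h⌋₊ 5 ↔ (x : ℝ) < h := by
  constructor
  · intro h1
    have h2 : x ≤ ⌊h⌋₊ := h1.trans (min_le_left _ _)
    have h3 : (x : ℝ) ≤ h := (Nat.le_floor_iff h0).1 h2
    exact lt_of_le_of_ne h3 (Ne.symm hne)
  · intro h1
    refine le_min ((Nat.le_floor_iff h0).2 h1.le) ?_
    have : (x : ℝ) < 6 := h1.trans_le h6
    have h2 : x < 6 := by exact_mod_cast this
    omega

theorem pos_eq_of_coord {q : necklace.Q} {x : ℕ} (hx : x ≤ 6) (h : cP.f q = x) (b : Bool) :
    q = Gam b x := by
  obtain ⟨_, _, b', hb'⟩ := Gam_surj q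
  rw [h] at hb'
  rw [hb']
  exact Gam_nat _ _ _ hx

theorem surv_card (n : ℕ) (s : Fin 16) (hne : cP.f (H.pos n) ≠ posT s) :
    (surv H n s).card ≤ fc s (cls H n) (cls H (n + 1)) := by
  have hmem : ∀ b, b ∈ surv H n s ↔
      ∀ u : ℝ, 0 ≤ u → u ≤ 1 → sgo s b u ≠ H.pos (n + u.toNNReal) := by
    intro b; simp [surv]
  obtain ⟨a0, a6, _⟩ := Gam_surj (H.pos n)
  obtain ⟨b0, b6, _⟩ := Gam_surj (H.pos ((n + 1 : ℕ) : ℝ≥0))
  by_cases hne' : cP.f (H.pos ((n + 1 : ℕ) : ℝ≥0)) = tgtT s
  · have : surv H n s = ∅ := by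
      rw [Finset.eq_empty_iff_forall_notMem]
      intro b hb
      rw [hmem] at hb
      apply hb 1 zero_le_one le_rfl
      unfold sgo
      rw [crd_one, ← pos_eq_of_coord (tgtT_le s) hne' b]
      congr 1
      simp
    rw [this]; simp
  · have s1 := side_iff a0 a6 hne
    have s2 := side_iff b0 b6 hne'
    by_cases hside : (posT s ≤ cls H n ↔ tgtT s ≤ cls H (n + 1))
    · unfold fc
      rw [f2_same hside]
      exact (Finset.card_le_univ _).trans (by decide)
    · -- the sides differ: the hider crosses the coordinate of the searcher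
      have hcont : Continuous (fun u : ℝ => cP.f (H.pos (n + u.toNNReal)) - crd s u) := by
        refine Continuous.sub ?_ (crd_lip s).continuous
        exact cP.lipschitz.continuous.comp (H.lip.continuous.comp
          (continuous_const.add continuous_real_toNNReal))
      have hF0 : cP.f (H.pos (n + (0 : ℝ).toNNReal)) - crd s 0 =
          cP.f (H.pos n) - posT s := by
        rw [Real.toNNReal_zero, add_zero, crd_zero]
      have hF1 : cP.f (H.pos (n + (1 : ℝ).toNNReal)) - crd s 1 =
          cP.f (H.pos ((n + 1 : ℕ) : ℝ≥0)) - tgtT s := by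
        rw [Real.toNNReal_one, crd_one]
        push_cast
        rfl
      have hzero : ∃ u ∈ Icc (0 : ℝ) 1,
          (fun u : ℝ => cP.f (H.pos (n + u.toNNReal)) - crd s u) u = 0 := by
        unfold cls at hside
        rw [s1, s2] at hside
        by_cases h3 : (posT s : ℝ) < cP.f (H.pos n)
        · have h4 : ¬ (tgtT s : ℝ) < cP.f (H.pos ((n + 1 : ℕ) : ℝ≥0)) := fun h5 =>
            hside ⟨fun _ => h5, fun _ => h3⟩
          refine intermediate_value_Icc' zero_le_one hcont.continuousOn ⟨?_, ?_⟩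
          · rw [hF1]; linarith [not_lt.1 h4]
          · rw [hF0]; linarith
        · have h4 : (tgtT s : ℝ) < cP.f (H.pos ((n + 1 : ℕ) : ℝ≥0)) := by
            by_contra h5
            exact hside ⟨fun h6 => absurd h6 h3, fun h6 => absurd h6 h5⟩
          refine intermediate_value_Icc zero_le_one hcont.continuousOn ⟨?_, ?_⟩
          · rw [hF0]; linarith [not_lt.1 h3]
          · rw [hF1]; linarith
      obtain ⟨u, ⟨hu0, hu1⟩, hu⟩ := hzero
      have hu' : cP.f (H.pos (n + u.toNNReal)) = crd s u := by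
        simp only at hu
        linarith
      obtain ⟨_, _, b', hb'⟩ := Gam_surj (H.pos (n + u.toNNReal))
      rw [hu'] at hb'
      by_cases hg : posT s = tgtT s
      · have : surv H n s = ∅ := by
          rw [Finset.eq_empty_iff_forall_notMem]
          intro b hb
          rw [hmem] at hb
          apply hb u hu0 hu1
          have hc : crd s u = posT s := by unfold crd; rw [hg]; ring
          rw [hb']
          unfold sgo
          rw [hc]
          exact Gam_nat _ _ _ (posT_le s)
        rw [this]; simp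
      · unfold fc
        rw [f2_diff hside hg]
        have hsub : surv H n s ⊆ {!b'} := by
          intro b hb
          rw [hmem] at hb
          rw [Finset.mem_singleton]
          by_contra hcon
          have hbb : b = b' := by cases b <;> cases b' <;> simp_all
          apply hb u hu0 hu1
          rw [hb', hbb]
          rfl
        exact (Finset.card_le_card hsub).trans (by simp)

theorem kk_card : ∀ s s' : Fin 16,
    (Finset.univ.filter fun g : Fin 12 => (if g = 0 then nx1 s else nx0 s) = s').card = kk s s' := by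
  decide +kernel

theorem cls_le (n : ℕ) : cls H n ≤ 5 := min_le_right _ _

theorem MM_step (n : ℕ) (s' : Fin 16) : 24 * MM H (n + 1) s' ≤
    ∑ s, (kk s s' * fc s (cls H n) (cls H (n + 1)) : ℕ) * MM H n s := by
  classical
  set C : Fin 16 → Finset Coin := fun s =>
    (Finset.univ.filter fun g : Fin 12 => (if g = 0 then nx1 s else nx0 s) = s') ×ˢ surv H n s
    with hC
  have hsub : {ω | XX ω (n + 1) = s' ∧ Alive H (n + 1) ω} ⊆
      ⋃ s ∈ (Finset.univ : Finset (Fin 16)), ⋃ c ∈ C s,
        ({ω | XX ω n = s ∧ Alive H n ω} ∩ {ω | ω (n + 1) = c}) := by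
    rintro ω ⟨h1, h2⟩
    rw [mem_iUnion₂]
    refine ⟨XX ω n, Finset.mem_univ _, ?_⟩
    rw [mem_iUnion₂]
    refine ⟨ω (n + 1), ?_, ⟨rfl, fun t ht => h2 t (ht.trans (by push_cast; exact le_self_add))⟩, rfl⟩
    rw [hC]
    simp only
    rw [Finset.mem_product]
    constructor
    · rw [Finset.mem_filter]
      exact ⟨Finset.mem_univ _, h1⟩
    · simp only [surv, Finset.mem_filter, Finset.mem_univ, true_and]
      intro u hu0 hu1 hcon
      have h3 : u.toNNReal ≤ 1 := by
        rw [← Real.toNNReal_one]; exact Real.toNNReal_le_toNNReal hu1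
      refine h2 (n + u.toNNReal) (by push_cast; gcongr) ?_
      rw [spos_on ω n (n + u.toNNReal) le_self_add (by gcongr)]
      rw [← hcon]
      congr 1
      push_cast
      rw [Real.coe_toNNReal u hu0]
      ring
  have h1 : MM H (n + 1) s' ≤ ∑ s, ∑ c ∈ C s, MM H n s * (24 : ℝ≥0∞)⁻¹ := by
    unfold MM
    refine (measure_mono hsub).trans ?_
    refine (measure_biUnion_finset_le _ _).trans ?_
    refine Finset.sum_le_sum fun s _ => ?_
    refine (measure_biUnion_finset_le _ _).trans ?_
    refine Finset.sum_le_sum fun c _ => ?_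
    rw [(dep_state H n s).indep c]
  calc 24 * MM H (n + 1) s' ≤ 24 * ∑ s, ∑ c ∈ C s, MM H n s * (24 : ℝ≥0∞)⁻¹ := by gcongr
    _ = ∑ s, ((C s).card : ℝ≥0∞) * MM H n s := by
      rw [Finset.mul_sum]
      refine Finset.sum_congr rfl fun s _ => ?_
      rw [Finset.sum_const, nsmul_eq_mul]
      calc 24 * (((C s).card : ℝ≥0∞) * (MM H n s * (24 : ℝ≥0∞)⁻¹))
          = (24 * (24 : ℝ≥0∞)⁻¹) * (((C s).card : ℝ≥0∞) * MM H n s) := by ring
        _ = _ := by rw [ENNReal.mul_inv_cancel (by norm_num) (by norm_num), one_mul]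
    _ ≤ _ := by
      refine Finset.sum_le_sum fun s _ => ?_
      by_cases h0 : MM H n s = 0
      · rw [h0]; simp
      · gcongr
        rw [hC]
        simp only
        rw [Finset.card_product, kk_card]
        refine Nat.mul_le_mul_left _ (surv_card H n s ?_)
        intro hcon
        apply h0
        unfold MM
        have : {ω | XX ω n = s ∧ Alive H n ω} = ∅ := by
          rw [eq_empty_iff_forall_notMem]
          rintro ω ⟨h2, h3⟩
          apply h3 n le_rfl
          rw [spos_on ω n n le_rfl le_self_add, h2]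
          unfold sgo
          simp only [NNReal.coe_natCast, sub_self]
          rw [crd_zero]
          exact (pos_eq_of_coord (posT_le s) hcon _).symm
        rw [this, measure_empty]

theorem init_card : ∀ s : Fin 16, 1000000 * (Finset.univ.filter fun c : Coin =>
    (if c.2 = true then (1 : Fin 16) else 0) = s).card ≤
      24 * ([500000, 500000, 0, 0, 0, 0, 0, 0, 0, 0, 0, 0, 0, 0, 0, 0] : List ℕ).getD s 0 ∧
    ((Finset.univ.filter fun c : Coin => (if c.2 = true then (1 : Fin 16) else 0) = s).card ≠ 0 →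
      posT s = 3) := by decide +kernel

theorem MM_zero (s : Fin 16) : 24 * MM H 0 s ≤ ((Finset.univ.filter fun c : Coin =>
    (if c.2 = true then (1 : Fin 16) else 0) = s).card : ℕ) := by
  have h1 : MM H 0 s ≤ PP {ω | ω 0 ∈ ((Finset.univ.filter fun c : Coin =>
    (if c.2 = true then (1 : Fin 16) else 0) = s : Finset Coin) : Set Coin)} := by
    unfold MM
    refine measure_mono ?_
    rintro ω ⟨h1, _⟩
    simp only [Finset.coe_filter, Finset.mem_univ, true_and, mem_ofPred_eq]
    exact h1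
  rw [PP_eval, coinM_finset] at h1
  calc 24 * MM H 0 s ≤ 24 * ((24 : ℝ≥0∞)⁻¹ * _) := by gcongr
    _ = _ := by
      rw [← mul_assoc, ENNReal.mul_inv_cancel (by norm_num) (by norm_num), one_mul]

theorem inv_zero : ∃ x ∈ lev0, Inv (MM H) (cls H) x 0 := by
  have hm : ∀ s : Fin 16, 1000000 * MM H 0 s ≤
      ((([500000, 500000, 0, 0, 0, 0, 0, 0, 0, 0, 0, 0, 0, 0, 0, 0] : List ℕ).getD s 0 : ℕ) :
        ℝ≥0∞) := by
    intro s
    have h1 : 24 * (1000000 * MM H 0 s) ≤ 24 * ((([500000, 500000, 0, 0, 0, 0, 0, 0, 0, 0, 0, 0, 0, 0,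
        0, 0] : List ℕ).getD s 0 : ℕ) : ℝ≥0∞) := by
      calc 24 * (1000000 * MM H 0 s) = 1000000 * (24 * MM H 0 s) := by ring
        _ ≤ 1000000 * ((Finset.univ.filter fun c : Coin =>
          (if c.2 = true then (1 : Fin 16) else 0) = s).card : ℕ) := by
            gcongr; exact MM_zero H s
        _ ≤ _ := by exact_mod_cast (init_card s).1
    exact (ENNReal.mul_le_mul_iff_right (by norm_num) (by norm_num)).1 h1
  have hc : ∀ s, MM H 0 s ≠ 0 → posT s = 3 := by
    intro s hs
    apply (init_card s).2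
    intro h0
    have := MM_zero H s
    rw [h0, Nat.cast_zero, nonpos_iff_eq_zero] at this
    apply hs
    simpa using this
  by_cases h3 : 3 ≤ cls H 0
  · refine ⟨⟨3, 0, [500000, 500000, 0, 0, 0, 0, 0, 0, 0, 0, 0, 0, 0, 0, 0, 0], _⟩,
      List.mem_cons_of_mem _ List.mem_cons_self, hm, ?_, by simp⟩
    intro s hs
    rw [hc s hs]
    simp [h3]
  · refine ⟨⟨0, 0, [500000, 500000, 0, 0, 0, 0, 0, 0, 0, 0, 0, 0, 0, 0, 0, 0], _⟩,
      List.mem_cons_self, hm, ?_, by simp⟩
    intro s hs
    rw [hc s hs]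
    simp [h3]

theorem done : Done (MM H) := by
  have hUlen : ∀ z ≤ 5, (Utab.getD z []).length = 16 := fun z hz => Utab_len ⟨z, by omega⟩
  have hU : ∀ z z' : ℕ, z ≤ 5 → z' ≤ 5 → ∀ s : Fin 16,
      240000 + fc s z z' * (11 * (Utab.getD z' []).getD (nx0 s) 0 +
        (Utab.getD z' []).getD (nx1 s) 0) ≤ 24 * (Utab.getD z []).getD s 0 :=
    fun z z' hz hz' s => Utab_chk ⟨z, by omega⟩ ⟨z', by omega⟩ s
  have step := fun (L nxt : List Nd) (n : ℕ) => level_sound (M := MM H) (z := cls H) Utab hUlen hU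
    (cls_le H) (MM_step H) L nxt n
  have h0 : (∃ x ∈ lev0, Inv (MM H) (cls H) x 0) ∨ Done (MM H) := Or.inl (inv_zero H)
  have h1 := step _ _ _ chk0 h0
  have h2 := step _ _ _ chk1 h1
  have h3 := step _ _ _ chk2 h2
  have h4 := step _ _ _ chk3 h3
  have h5 := step _ _ _ chk4 h4
  have h6 := step _ _ _ chk5 h5
  have h7 := step _ _ _ chk6 h6
  have h8 := step _ _ _ chk7 h7
  have h9 := step _ _ _ chk8 h8
  have h10 := step _ _ _ chk9 h9
  have h11 := step _ _ _ chk10 h10
  have h12 := step _ _ _ chk11 h11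
  have h13 := step _ _ _ chk12 h12
  have h14 := step _ _ _ chk13 h13
  have h15 := step _ _ _ chk14 h14
  have h16 := step _ _ _ chk15 h15
  have h17 := step _ _ _ chk16 h16
  have h18 := step _ _ _ chk17 h17
  have h19 := step _ _ _ chk18 h18
  have h20 := step _ _ _ chk19 h19
  have h21 := step _ _ _ chk20 h20
  have h22 := step _ _ _ chk21 h21
  have h23 := step _ _ _ chk22 h22
  have h24 := step _ _ _ chk23 h23
  rcases h24 with ⟨x, hx, _⟩ | h
  · exact absurd hx (by simp [lev24])
  · exact h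

theorem tsum_tot : ∑' n, tot (MM H) n ≤ ENNReal.ofReal 10.97 := by
  rw [ENNReal.tsum_eq_iSup_nat]
  refine iSup_le fun N => ?_
  have h1 := done H N
  have h2 : (240000000000 : ℝ≥0∞) * ENNReal.ofReal 10.97 = ((2632800000000 : ℕ) : ℝ≥0∞) := by
    have e1 : (240000000000 : ℝ≥0∞) = ENNReal.ofReal 240000000000 := by
      rw [ENNReal.ofReal_ofNat]
    rw [e1, ← ENNReal.ofReal_mul (by norm_num), ← ENNReal.ofReal_natCast]
    congr 1
    norm_num
  rw [← h2] at h1
  exact (ENNReal.mul_le_mul_iff_right (by norm_num) (by norm_num)).1 h1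

open Classical in
theorem captureTime_le_tsum (ω : ℕ → Coin) :
    captureTime (sp ω) H ≤ ∑' n, {ω | Alive H n ω}.indicator (fun _ => (1 : ℝ≥0∞)) ω := by
  by_cases hall : ∀ n, Alive H n ω
  · have : ∑' n, {ω | Alive H n ω}.indicator (fun _ => (1 : ℝ≥0∞)) ω = ⊤ := by
      have h1 : (fun n : ℕ => {ω | Alive H n ω}.indicator (fun _ => (1 : ℝ≥0∞)) ω) =
          fun _ => 1 := by
        funext n
        exact indicator_of_mem (hall n) _
      rw [h1]
      exact ENNReal.tsum_const_eq_top_of_ne_zero one_ne_zero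
    rw [this]
    exact le_top
  · push Not at hall
    set N := Nat.find hall with hN
    have h1 : ¬ Alive H N ω := Nat.find_spec hall
    have h2 : ∀ n < N, Alive H n ω := fun n hn => by
      by_contra hcon
      exact Nat.find_min hall hn hcon
    unfold Alive at h1
    push Not at h1
    obtain ⟨t, ht, ht'⟩ := h1
    have h3 : captureTime (sp ω) H ≤ (N : ℝ≥0∞) := by
      refine (captureTime_le (S := sp ω) (H := H) (t := t) ht').trans ?_
      exact_mod_cast ht
    refine h3.trans ?_
    calc (N : ℝ≥0∞) = ∑ n ∈ Finset.range N, (1 : ℝ≥0∞) := by simp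
      _ = ∑ n ∈ Finset.range N, {ω | Alive H n ω}.indicator (fun _ => (1 : ℝ≥0∞)) ω := by
        refine Finset.sum_congr rfl fun n hn => ?_
        rw [indicator_of_mem]
        exact h2 n (Finset.mem_range.1 hn)
      _ ≤ _ := ENNReal.sum_le_tsum _

theorem PP_alive (n : ℕ) : PP {ω | Alive H n ω} ≤ tot (MM H) n := by
  have hsub : {ω | Alive H n ω} ⊆ ⋃ s ∈ (Finset.univ : Finset (Fin 16)),
      {ω | XX ω n = s ∧ Alive H n ω} := by
    intro ω hω
    rw [mem_iUnion₂]
    exact ⟨XX ω n, Finset.mem_univ _, rfl, hω⟩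
  refine (measure_mono hsub).trans ?_
  exact measure_biUnion_finset_le _ _

theorem expected_le : ∫⁻ ω, captureTime (sp ω) H ∂PP ≤ ENNReal.ofReal 10.97 := by
  classical
  calc ∫⁻ ω, captureTime (sp ω) H ∂PP
      ≤ ∫⁻ ω, ∑' n, {ω | Alive H n ω}.indicator (fun _ => (1 : ℝ≥0∞)) ω ∂PP :=
        lintegral_mono fun ω => captureTime_le_tsum H ω
    _ = ∑' n, ∫⁻ ω, {ω | Alive H n ω}.indicator (fun _ => (1 : ℝ≥0∞)) ω ∂PP := by
        refine lintegral_tsum fun n => ?_
        exact (measurable_const.indicator (dep_alive H n).measurable).aemeasurable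
    _ = ∑' n, PP {ω | Alive H n ω} := by
        refine tsum_congr fun n => ?_
        rw [lintegral_indicator_const (dep_alive H n).measurable, one_mul]
    _ ≤ ∑' n, tot (MM H) n := ENNReal.tsum_le_tsum fun n => PP_alive H n
    _ ≤ _ := tsum_tot H

/-- The upper bound for the necklace. -/
theorem upper_bound (w : ℝ≥0) : upperValue necklace start w ≤ ENNReal.ofReal 10.97 := by
  have : IsProbabilityMeasure (PP.map sp) :=
    Measure.isProbabilityMeasure_map continuous_sp.measurable.aemeasurable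
  refine (iInf_le _ (⟨PP.map sp, inferInstance⟩ : ProbabilityMeasure (SPath necklace start))).trans ?_
  refine iSup_le fun H => ?_
  change ∫⁻ S, captureTime S H ∂(PP.map sp) ≤ _
  rw [lintegral_map (measurable_captureTime_left H) continuous_sp.measurable]
  exact expected_le H

end Pool.Agent.W972.SG
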