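import Mathlib

/-!
# Concatenation of Lipschitz maps
-/

namespace Pool.Agent.W972.SG

open Set
open scoped ENNReal NNReal

theorem edist_add_real {x p y : ℝ} (h1 : x ≤ p) (h2 : p ≤ y) : edist x p + edist p y = edist x y := by
  rw [edist_dist, edist_dist, edist_dist, ← ENNReal.ofReal_add dist_nonneg dist_nonneg]
  congr 1
  rw [Real.dist_eq, Real.dist_eq, Real.dist_eq, abs_of_nonpos (by linarith),
    abs_of_nonpos (by linarith), abs_of_nonpos (by linarith)]
  ring

theorem edist_add_nnreal {x p y : ℝ≥0} (h1 : x ≤ p) (h2 : p ≤ y) :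
    edist x p + edist p y = edist x y :=
  edist_add_real (x := (x : ℝ)) (p := (p : ℝ)) (y := (y : ℝ)) (by exact_mod_cast h1)
    (by exact_mod_cast h2)

variable {α : Type*} [PseudoEMetricSpace α] {K : ℝ≥0}

theorem lip_ite {f g : ℝ → α} (hf : LipschitzWith K f) (hg : LipschitzWith K g) (p : ℝ)
    (h : f p = g p) : LipschitzWith K (fun y => if y ≤ p then f y else g y) := by
  have key : ∀ x y, x ≤ y →
      edist (if x ≤ p then f x else g x) (if y ≤ p then f y else g y) ≤ K * edist x y := by
    intro x y hxy
    by_cases hy : y ≤ p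
    · rw [if_pos hy, if_pos (hxy.trans hy)]; exact hf x y
    · by_cases hx : x ≤ p
      · rw [if_pos hx, if_neg hy]
        have hy' : p ≤ y := (not_le.1 hy).le
        calc edist (f x) (g y) ≤ edist (f x) (f p) + edist (f p) (g y) := edist_triangle _ _ _
          _ ≤ K * edist x p + K * edist p y := by
            refine add_le_add (hf x p) ?_
            rw [h]; exact hg p y
          _ = K * edist x y := by rw [← mul_add, edist_add_real hx hy']
      · rw [if_neg hx, if_neg hy]; exact hg x y
  intro x y
  rcases le_total x y with hxy | hxy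
  · exact key x y hxy
  · rw [edist_comm, edist_comm x y]; exact key y x hxy

theorem lip_int_steps {f : ℝ → α}
    (h : ∀ n : ℤ, ∀ x y : ℝ, (n : ℝ) ≤ x → x ≤ y → y ≤ n + 1 → edist (f x) (f y) ≤ K * edist x y) :
    LipschitzWith K f := by
  have key : ∀ (m : ℕ) (x y : ℝ), x ≤ y → y ≤ (⌊x⌋ : ℝ) + m + 1 →
      edist (f x) (f y) ≤ K * edist x y := by
    intro m
    induction m with
    | zero =>
      intro x y hxy hy
      refine h ⌊x⌋ x y (Int.floor_le x) hxy ?_
      simpa using hy
    | succ m ih =>
      intro x y hxy hy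
      by_cases hc : y ≤ (⌊x⌋ : ℝ) + m + 1
      · exact ih x y hxy hc
      · rw [not_le] at hc
        set z : ℝ := (⌊x⌋ : ℝ) + m + 1 with hz
        have hxz : x ≤ z := by
          have := (Int.lt_floor_add_one x).le
          have h2 : (0 : ℝ) ≤ m := by positivity
          linarith
        calc edist (f x) (f y) ≤ edist (f x) (f z) + edist (f z) (f y) := edist_triangle _ _ _
          _ ≤ K * edist x z + K * edist z y := by
            refine add_le_add (ih x z hxz le_rfl) (h (⌊x⌋ + m + 1) z y ?_ hc.le ?_)
            · push_cast; exact hz.ge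
            · push_cast at hy ⊢; linarith
          _ = K * edist x y := by rw [← mul_add, edist_add_real hxz hc.le]
  have key' : ∀ x y : ℝ, x ≤ y → edist (f x) (f y) ≤ K * edist x y := by
    intro x y hxy
    obtain ⟨m, hm⟩ := exists_nat_ge (y - ⌊x⌋)
    exact key m x y hxy (by linarith)
  intro x y
  rcases le_total x y with hxy | hxy
  · exact key' x y hxy
  · rw [edist_comm, edist_comm x y]; exact key' y x hxy

theorem lip_nat_steps {f : ℝ≥0 → α}
    (h : ∀ n : ℕ, ∀ x y : ℝ≥0, (n : ℝ≥0) ≤ x → x ≤ y → y ≤ n + 1 →
      edist (f x) (f y) ≤ K * edist x y) :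
    LipschitzWith K f := by
  have key : ∀ (m : ℕ) (x y : ℝ≥0), x ≤ y → y ≤ (⌊x⌋₊ : ℝ≥0) + m + 1 →
      edist (f x) (f y) ≤ K * edist x y := by
    intro m
    induction m with
    | zero =>
      intro x y hxy hy
      refine h ⌊x⌋₊ x y (Nat.floor_le zero_le) hxy ?_
      simpa using hy
    | succ m ih =>
      intro x y hxy hy
      by_cases hc : y ≤ (⌊x⌋₊ : ℝ≥0) + m + 1
      · exact ih x y hxy hc
      · rw [not_le] at hc
        set z : ℝ≥0 := (⌊x⌋₊ : ℝ≥0) + m + 1 with hz
        have hxz : x ≤ z := by
          have h1 := (Nat.lt_floor_add_one x).le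
          refine h1.trans ?_
          rw [hz, add_right_comm]
          exact le_self_add
        calc edist (f x) (f y) ≤ edist (f x) (f z) + edist (f z) (f y) := edist_triangle _ _ _
          _ ≤ K * edist x z + K * edist z y := by
            refine add_le_add (ih x z hxz le_rfl) (h (⌊x⌋₊ + m + 1) z y ?_ hc.le ?_)
            · push_cast; exact hz.ge
            · refine hy.trans (le_of_eq ?_)
              push_cast; ring
          _ = K * edist x y := by rw [← mul_add, edist_add_nnreal hxz hc.le]
  have key' : ∀ x y : ℝ≥0, x ≤ y → edist (f x) (f y) ≤ K * edist x y := by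
    intro x y hxy
    obtain ⟨m, hm⟩ := exists_nat_ge y
    refine key m x y hxy (hm.trans ?_)
    rw [add_assoc, add_left_comm]
    exact le_self_add
  intro x y
  rcases le_total x y with hxy | hxy
  · exact key' x y hxy
  · rw [edist_comm, edist_comm x y]; exact key' y x hxy

end Pool.Agent.W972.SG
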