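import Mathlib

/-!
# The combinatorial bound

The status `x : Fin 3` at the beginning of a period says in which of the two loops the searcher is
(`0`: in none, `1`: in the loop `false`, `2`: in the loop `true`).
-/

namespace Pool.Agent.W972.SG

/-- The status which says that the searcher is in the loop `r`. -/
def stOf (r : Bool) : Fin 3 := if r then 2 else 1

/-- Lower bound for the number of the options which survive until the middle of the period. -/
def eLo (r : Bool) (x : Fin 3) : ℕ := if x = stOf r then 2 else 4

/-- Lower bound for the number of the options which survive the period. -/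
def vLo (r : Bool) (x y : Fin 3) : ℕ :=
  if x = stOf r then (if y = stOf r then 1 else 2) else (if y = stOf r then 2 else 4)

/-- `4 ^ n` times the expected number of the half-periods survived, the numbers of the
surviving options in the successive periods being given by `w` and `v`. -/
def NN : ℕ → (ℕ → ℕ) → (ℕ → ℕ) → ℕ
  | 0, _, _ => 0
  | n + 1, w, v => w 0 * 4 ^ n + v 0 * (4 ^ n + NN n (fun k => w (k + 1)) (fun k => v (k + 1)))

/-- Verification over all the sequences of statuses. -/
def chk (target : ℕ) : ℕ → Fin 3 → ℕ → ℕ → ℕ → Bool
  | 0, _, _, _, acc => target.ble acc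
  | n + 1, x, A, B, acc =>
    let P := 4 ^ n
    let go := fun y : Fin 3 =>
      chk target n y (A * vLo false x y) (B * vLo true x y)
        (acc + P * (A * (eLo false x + vLo false x y) + B * (eLo true x + vLo true x y)))
    go 0 && (go 1 && go 2)

theorem chk_sound (target : ℕ) : ∀ (n : ℕ) (x : Fin 3) (A B acc : ℕ),
    chk target n x A B acc = true → ∀ (st : ℕ → Fin 3) (w v : Bool → ℕ → ℕ), st 0 = x →
    (∀ r k, k < n → eLo r (st k) ≤ w r k) →
    (∀ r k, k < n → vLo r (st k) (st (k + 1)) ≤ v r k) →
    target ≤ acc + A * NN n (w false) (v false) + B * NN n (w true) (v true) := by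
  intro n
  induction n with
  | zero =>
    intro x A B acc h st w v hx hw hv
    have : target ≤ acc := Nat.le_of_ble_eq_true h
    simpa [NN] using this
  | succ n ih =>
    intro x A B acc h st w v hx hw hv
    have h' : ∀ y : Fin 3, chk target n y (A * vLo false x y) (B * vLo true x y)
        (acc + 4 ^ n * (A * (eLo false x + vLo false x y) + B * (eLo true x + vLo true x y))) =
          true := by
      simp only [chk, Bool.and_eq_true] at h
      intro y
      fin_cases y
      · exact h.1
      · exact h.2.1
      · exact h.2.2
    have h1 := ih _ _ _ _ (h' (st 1)) (fun k => st (k + 1)) (fun r k => w r (k + 1))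
      (fun r k => v r (k + 1)) rfl (fun r k hk => hw r (k + 1) (by omega))
      (fun r k hk => hv r (k + 1) (by omega))
    refine h1.trans ?_
    have w0 := hw false 0 (by omega)
    have w1 := hw true 0 (by omega)
    have v0 := hv false 0 (by omega)
    have v1 := hv true 0 (by omega)
    rw [hx] at w0 w1 v0 v1
    simp only [zero_add] at v0 v1
    simp only [NN]
    set N0 := NN n (fun k => w false (k + 1)) (fun k => v false (k + 1))
    set N1 := NN n (fun k => w true (k + 1)) (fun k => v true (k + 1))
    have e0 : A * vLo false x (st 1) * N0 + 4 ^ n * (A * (eLo false x + vLo false x (st 1))) ≤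
        A * (w false 0 * 4 ^ n + v false 0 * (4 ^ n + N0)) := by
      calc A * vLo false x (st 1) * N0 + 4 ^ n * (A * (eLo false x + vLo false x (st 1)))
          = A * (eLo false x * 4 ^ n + vLo false x (st 1) * (4 ^ n + N0)) := by ring
        _ ≤ _ := by gcongr
    have e1 : B * vLo true x (st 1) * N1 + 4 ^ n * (B * (eLo true x + vLo true x (st 1))) ≤
        B * (w true 0 * 4 ^ n + v true 0 * (4 ^ n + N1)) := by
      calc B * vLo true x (st 1) * N1 + 4 ^ n * (B * (eLo true x + vLo true x (st 1)))
          = B * (eLo true x * 4 ^ n + vLo true x (st 1) * (4 ^ n + N1)) := by ring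
        _ ≤ _ := by gcongr
    calc _ = acc + (A * vLo false x (st 1) * N0 +
            4 ^ n * (A * (eLo false x + vLo false x (st 1)))) +
          (B * vLo true x (st 1) * N1 + 4 ^ n * (B * (eLo true x + vLo true x (st 1)))) := by ring
      _ ≤ _ := by gcongr

theorem chk_ten : chk 7682048 10 0 1 1 0 = true := by decide +kernel

/-- The combinatorial bound for `10` periods. -/
theorem NN_ten (st : ℕ → Fin 3) (w v : Bool → ℕ → ℕ) (h0 : st 0 = 0)
    (hw : ∀ r k, k < 10 → eLo r (st k) ≤ w r k)
    (hv : ∀ r k, k < 10 → vLo r (st k) (st (k + 1)) ≤ v r k) :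
    7682048 ≤ NN 10 (w false) (v false) + NN 10 (w true) (v true) := by
  have := chk_sound 7682048 10 0 1 1 0 chk_ten st w v h0 hw hv
  simpa using this

end Pool.Agent.W972.SG
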