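import Pool.Agent.W972.SG.Period
import Pool.Agent.W972.SG.LowerD

/-!
# The wave: the lifted position of the hider in its loop
-/

namespace Pool.Agent.W972.SG

open Set

/-- Projection to `[0,1]`. -/
noncomputable def cl (y : ℝ) : ℝ := max 0 (min y 1)

/-- The sign of the lane. -/
def sg (b : Bool) : ℝ := if b = true then -1 else 1

/-- The displacement of the hider in one period. -/
noncomputable def disp (a : ℝ) (o : Bool × Bool) (y : ℝ) : ℝ :=
  sg o.1 * (if o.1 = o.2 then min (min (cl y) (1 - cl y)) (1 / 2 - a) else cl y)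

/-- The lifted position of the hider at the time `y` since the start of the first period. -/
noncomputable def wave (a : ℝ) : (n : ℕ) → (Fin n → Bool × Bool) → ℝ → ℝ
  | 0, _, _ => 0
  | n + 1, o, y => disp a (o 0) y + wave a n (fun i => o i.succ) (y - 1)

/-- The height, as a function of the lifted position. -/
noncomputable def Hgt (y : ℝ) : ℝ := min (Int.fract y) (1 - Int.fract y)

/-- The lane function on the circle. -/
noncomputable def lam (x : ℝ) : ℝ := if x ≤ 1 / 2 then min x (1 / 2 - x) else -min (x - 1 / 2) (1 - x)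

/-- The lane function, as a function of the lifted position. -/
noncomputable def Ln (y : ℝ) : ℝ := lam (Int.fract y)

theorem cl_nonneg (y : ℝ) : 0 ≤ cl y := le_max_left _ _

theorem cl_le (y : ℝ) : cl y ≤ 1 := max_le zero_le_one (min_le_right _ _)

theorem cl_of_le {y : ℝ} (h : y ≤ 0) : cl y = 0 := by
  unfold cl
  rw [min_eq_left (by linarith), max_eq_left h]

theorem cl_of_ge {y : ℝ} (h : 1 ≤ y) : cl y = 1 := by
  unfold cl
  rw [min_eq_right h, max_eq_right zero_le_one]

theorem cl_of_mem {y : ℝ} (h : 0 ≤ y) (h' : y ≤ 1) : cl y = y := by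
  unfold cl
  rw [min_eq_left h', max_eq_right h]

theorem cl_mono : Monotone cl := fun x y h => max_le_max le_rfl (min_le_min h le_rfl)

theorem disp_lip (a : ℝ) (o : Bool × Bool) (x y : ℝ) : |disp a o x - disp a o y| ≤ |cl x - cl y| := by
  unfold disp
  rw [← mul_sub, abs_mul]
  have h1 : |sg o.1| = 1 := by
    unfold sg
    split_ifs <;> simp
  rw [h1, one_mul]
  split_ifs
  · set s := cl x
    set t := cl y
    rw [abs_le]
    have b1 := min_le_left (min s (1 - s)) (1 / 2 - a)
    have b2 := min_le_right (min s (1 - s)) (1 / 2 - a)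
    have b3 := min_le_left s (1 - s)
    have b4 := min_le_right s (1 - s)
    have c1 := min_le_left (min t (1 - t)) (1 / 2 - a)
    have c2 := min_le_right (min t (1 - t)) (1 / 2 - a)
    have c3 := min_le_left t (1 - t)
    have c4 := min_le_right t (1 - t)
    have d1 := neg_abs_le (s - t)
    have d2 := le_abs_self (s - t)
    constructor
    · rcases min_choice (min s (1 - s)) (1 / 2 - a) with h | h
      · rcases min_choice s (1 - s) with h' | h'
        · rw [h, h']; linarith
        · rw [h, h']; linarith
      · rw [h]; linarith [abs_nonneg (s - t)]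
    · rcases min_choice (min t (1 - t)) (1 / 2 - a) with h | h
      · rcases min_choice t (1 - t) with h' | h'
        · rw [h, h']; linarith
        · rw [h, h']; linarith
      · rw [h]; linarith [abs_nonneg (s - t)]
  · exact le_rfl

theorem disp_of_le (a : ℝ) (ha : a ≤ 1 / 2) (o : Bool × Bool) {y : ℝ} (h : y ≤ 0) :
    disp a o y = 0 := by
  unfold disp
  rw [cl_of_le h]
  split_ifs
  · rw [min_eq_left (a := (0 : ℝ)) (by norm_num), min_eq_left (by linarith), mul_zero]
  · rw [mul_zero]

theorem disp_of_ge (a : ℝ) (ha : a ≤ 1 / 2) (o : Bool × Bool) {y : ℝ} (h : 1 ≤ y) :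
    ∃ m : ℤ, disp a o y = m := by
  unfold disp
  rw [cl_of_ge h]
  split_ifs
  · refine ⟨0, ?_⟩
    rw [min_eq_right (a := (1 : ℝ)) (by norm_num), min_eq_left (by linarith)]
    simp
  · unfold sg
    split_ifs
    · exact ⟨-1, by simp⟩
    · exact ⟨1, by simp⟩

theorem wave_of_le (a : ℝ) (ha : a ≤ 1 / 2) : ∀ (n : ℕ) (o : Fin n → Bool × Bool) (y : ℝ), y ≤ 0 →
    wave a n o y = 0 := by
  intro n
  induction n with
  | zero => intro o y _; rfl
  | succ n ih =>
    intro o y hy
    rw [wave, disp_of_le a ha _ hy, ih _ _ (by linarith), add_zero]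

/-- The clock. -/
noncomputable def clock : ℕ → ℝ → ℝ
  | 0, _ => 0
  | n + 1, y => cl y + clock n (y - 1)

theorem clock_eq : ∀ (n : ℕ) (y : ℝ), clock n y = max 0 (min y n) := by
  intro n
  induction n with
  | zero => intro y; simp [clock]
  | succ n ih =>
    intro y
    rw [clock, ih]
    push_cast
    have hn : (0 : ℝ) ≤ n := by positivity
    rcases le_total y 1 with h | h
    · rw [max_eq_left (a := (0 : ℝ)) (b := min (y - 1) n)
        ((min_le_left _ _).trans (by linarith)), add_zero]
      unfold cl
      rw [min_eq_left h, min_eq_left (a := y) (by linarith)]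
    · rw [cl_of_ge h]
      rw [max_eq_right (le_min (by linarith) hn), max_eq_right (le_min (by linarith) (by linarith))]
      rcases le_total (y - 1) n with h2 | h2
      · rw [min_eq_left h2, min_eq_left (by linarith)]; ring
      · rw [min_eq_right h2, min_eq_right (by linarith)]; ring

theorem wave_lip_aux (a : ℝ) : ∀ (n : ℕ) (o : Fin n → Bool × Bool) (x y : ℝ), x ≤ y →
    |wave a n o y - wave a n o x| ≤ clock n y - clock n x := by
  intro n
  induction n with
  | zero => intro o x y _; simp [wave, clock]
  | succ n ih =>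
    intro o x y hxy
    rw [wave, wave, clock, clock]
    have h1 := disp_lip a (o 0) y x
    have h2 := ih (fun i => o i.succ) (x - 1) (y - 1) (by linarith)
    rw [abs_of_nonneg (sub_nonneg.2 (cl_mono hxy))] at h1
    calc |disp a (o 0) y + wave a n (fun i => o i.succ) (y - 1) -
          (disp a (o 0) x + wave a n (fun i => o i.succ) (x - 1))|
        = |(disp a (o 0) y - disp a (o 0) x) + (wave a n (fun i => o i.succ) (y - 1) -
          wave a n (fun i => o i.succ) (x - 1))| := by congr 1; ring
      _ ≤ _ := abs_add_le _ _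
      _ ≤ _ := by linarith

theorem wave_lip (a : ℝ) (n : ℕ) (o : Fin n → Bool × Bool) : LipschitzWith 1 (wave a n o) := by
  refine LipschitzWith.of_dist_le_mul ?_
  have key : ∀ x y : ℝ, x ≤ y → dist (wave a n o y) (wave a n o x) ≤ dist y x := by
    intro x y hxy
    rw [Real.dist_eq, Real.dist_eq, abs_of_nonneg (sub_nonneg.2 hxy)]
    refine (wave_lip_aux a n o x y hxy).trans ?_
    rw [clock_eq, clock_eq]
    have hn : (0 : ℝ) ≤ n := by positivity
    rcases le_total 0 x with h0 | h0
    · rcases le_total y n with h1 | h1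
      · rw [min_eq_left h1, min_eq_left (hxy.trans h1), max_eq_right h0,
          max_eq_right (h0.trans hxy)]
      · rw [min_eq_right h1, max_eq_right hn]
        rcases le_total x n with h2 | h2
        · rw [min_eq_left h2, max_eq_right h0]; linarith
        · rw [min_eq_right h2, max_eq_right hn]; linarith
    · have h3 : max 0 (min x n) = 0 := max_eq_left ((min_le_left _ _).trans h0)
      rw [h3]
      have h4 : max 0 (min y n) ≤ max 0 y := max_le_max le_rfl (min_le_left _ _)
      rcases le_total 0 y with h5 | h5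
      · rw [max_eq_right h5] at h4; linarith
      · rw [max_eq_left h5] at h4; linarith
  intro x y
  rw [NNReal.coe_one, one_mul]
  rcases le_total y x with h | h
  · exact key y x h
  · rw [dist_comm, dist_comm x y]; exact key x y h

theorem Hgt_add_int (m : ℤ) (y : ℝ) : Hgt (m + y) = Hgt y := by
  unfold Hgt; rw [Int.fract_intCast_add]

theorem Ln_add_int (m : ℤ) (y : ℝ) : Ln (m + y) = Ln y := by
  unfold Ln; rw [Int.fract_intCast_add]

theorem Hgt_of {v : ℝ} (h0 : 0 ≤ v) (h1 : v ≤ 1) : Hgt v = min v (1 - v) := by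
  unfold Hgt
  rcases h1.lt_or_eq with h | h
  · rw [Int.fract_eq_self.2 ⟨h0, h⟩]
  · subst h
    simp

theorem Hgt_neg (v : ℝ) : Hgt (-v) = Hgt v := by
  unfold Hgt
  by_cases h : Int.fract v = 0
  · rw [h, Int.fract_neg_eq_zero.2 h]
  · rw [Int.fract_neg h, min_comm]; ring_nf

theorem Ln_pos {v : ℝ} (h0 : 0 < v) (h1 : v < 1 / 2) : 0 < Ln v := by
  unfold Ln lam
  rw [Int.fract_eq_self.2 ⟨h0.le, by linarith⟩, if_pos h1.le]
  exact lt_min h0 (by linarith)

theorem Ln_neg {v : ℝ} (h0 : 1 / 2 < v) (h1 : v < 1) : Ln v < 0 := by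
  unfold Ln lam
  rw [Int.fract_eq_self.2 ⟨by linarith, by linarith⟩, if_neg (by linarith)]
  have : 0 < min (v - 1 / 2) (1 - v) := lt_min (by linarith) (by linarith)
  linarith

theorem Ln_neg_pos {v : ℝ} (h0 : 0 < v) (h1 : v < 1 / 2) : Ln (-v) < 0 := by
  have : Ln (-v) = Ln (((1 : ℤ) : ℝ) + -v) := (Ln_add_int 1 (-v)).symm
  rw [this]
  push_cast
  exact Ln_neg (by linarith) (by linarith)

theorem Ln_neg_neg {v : ℝ} (h0 : 1 / 2 < v) (h1 : v < 1) : 0 < Ln (-v) := by
  have : Ln (-v) = Ln (((1 : ℤ) : ℝ) + -v) := (Ln_add_int 1 (-v)).symm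
  rw [this]
  push_cast
  exact Ln_pos (by linarith) (by linarith)

/-- A meeting of the searcher and of the wave satisfies the condition `Meets`. -/
theorem meets_of_eq {a : ℝ} (ha : 0 < a) (ha' : a < 1 / 8) {g l : ℝ → ℝ} {o : Bool × Bool} {s : ℝ}
    (hs0 : 0 ≤ s) (hs1 : s ≤ 1) (h1 : g s = Hgt (disp a o s)) (h2 : l s = Ln (disp a o s)) :
    Meets a g l o s := by
  obtain ⟨p, q⟩ := o
  have hcl := cl_of_mem hs0 hs1
  unfold Meets
  rw [h1, h2]
  by_cases hpq : p = q
  · subst hpq
    have hh : disp a (p, p) s = sg p * min (min s (1 - s)) (1 / 2 - a) := by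
      unfold disp
      rw [hcl, if_pos rfl]
    set h := min (min s (1 - s)) (1 / 2 - a) with hdef
    have hb0 : 0 ≤ h := le_min (le_min hs0 (by linarith)) (by linarith)
    have hb1 : h ≤ 1 / 2 - a := min_le_right _ _
    have hb2 : 0 < s → s < 1 → 0 < h := fun h3 h4 =>
      lt_min (lt_min h3 (by linarith)) (by linarith)
    have hH : Hgt (disp a (p, p) s) = hgt a (p, p) s := by
      rw [hh, hgt, if_pos rfl, ← hdef]
      cases p
      · simp only [sg, Bool.false_eq_true, if_false, one_mul]
        rw [Hgt_of hb0 (by linarith), min_eq_left (by linarith)]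
      · simp only [sg, if_true, neg_mul, one_mul]
        rw [Hgt_neg, Hgt_of hb0 (by linarith), min_eq_left (by linarith)]
    have hL : 0 < s → s < 1 → SgnL p (Ln (disp a (p, p) s)) := by
      intro h3 h4
      rw [hh]
      cases p
      · simp only [sg, Bool.false_eq_true, if_false, one_mul, SgnL]
        exact Ln_pos (hb2 h3 h4) (by linarith)
      · simp only [sg, if_true, neg_mul, one_mul, SgnL]
        exact Ln_neg_pos (hb2 h3 h4) (by linarith)
    exact ⟨hH, fun h3 h4 _ => hL h3 h4, fun h3 h4 _ => hL h3 h4⟩
  · have hh : disp a (p, q) s = sg p * s := by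
      unfold disp
      rw [hcl, if_neg hpq]
    rw [hh]
    have hH : Hgt (sg p * s) = hgt a (p, q) s := by
      rw [hgt, if_neg hpq]
      cases p
      · simp only [sg, Bool.false_eq_true, if_false, one_mul]
        rw [Hgt_of hs0 hs1]
      · simp only [sg, if_true, neg_mul, one_mul]
        rw [Hgt_neg, Hgt_of hs0 hs1]
    refine ⟨hH, ?_, ?_⟩
    · intro h3 h4 h5
      rcases h5 with h5 | h5
      · cases p
        · simp only [sg, Bool.false_eq_true, if_false, one_mul, SgnL]
          exact Ln_pos h3 h5
        · simp only [sg, if_true, neg_mul, one_mul, SgnL]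
          exact Ln_neg_pos h3 h5
      · exact absurd h5 hpq
    · intro h3 h4 h5
      rcases h5 with h5 | h5
      · cases p
        · cases q
          · exact absurd rfl hpq
          · simp only [sg, Bool.false_eq_true, if_false, one_mul, SgnL, if_true]
            exact Ln_neg h5 h4
        · cases q
          · simp only [sg, if_true, neg_mul, one_mul, SgnL, Bool.false_eq_true, if_false]
            exact Ln_neg_neg h5 h4
          · exact absurd rfl hpq
      · exact absurd h5 hpq

open Classical in
/-- The number of the half-periods survived by the hider. -/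
noncomputable def cnt (a : ℝ) : (n : ℕ) → (Fin n → Bool × Bool) → (g l : ℝ → ℝ) → ℕ
  | 0, _, _, _ => 0
  | n + 1, o, g, l => (if o 0 ∈ WS a g l then 1 else 0) + (if o 0 ∈ VS a g l then
      1 + cnt a n (fun i => o i.succ) (fun s => g (s + 1)) (fun s => l (s + 1)) else 0)

/-- A meeting at the time `y` is only possible if at most `y / (1/2 - a)` half-periods have been
survived. -/
theorem time_bound {a : ℝ} (ha : 0 < a) (ha' : a < 1 / 8) : ∀ (n : ℕ) (o : Fin n → Bool × Bool)
    (g l : ℝ → ℝ) (y : ℝ), 0 ≤ y → g y = Hgt (wave a n o y) → l y = Ln (wave a n o y) →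
    (1 / 2 - a) * (cnt a n o g l : ℝ) ≤ y := by
  intro n
  induction n with
  | zero => intro o g l y hy _ _; simpa [cnt] using hy
  | succ n ih =>
    intro o g l y hy h1 h2
    rw [cnt]
    rcases le_or_gt y 1 with h | h
    · rw [wave, wave_of_le a (by linarith) n _ (y - 1) (by linarith), add_zero] at h1 h2
      have hm := meets_of_eq ha ha' hy h h1 h2
      have hV : o 0 ∉ VS a g l := by
        rw [mem_VS]
        push Not
        exact ⟨y, hy, h, hm⟩
      rw [if_neg hV]
      by_cases hc : y ≤ 1 / 2 - a
      · have hW : o 0 ∉ WS a g l := by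
          rw [mem_WS]
          push Not
          exact ⟨y, hy, hc, hm⟩
        rw [if_neg hW]
        simpa using hy
      · rw [not_le] at hc
        have : (((if o 0 ∈ WS a g l then 1 else 0) + 0 : ℕ) : ℝ) ≤ 1 := by
          split_ifs <;> simp
        nlinarith
    · obtain ⟨m, hm⟩ := disp_of_ge a (by linarith) (o 0) h.le
      rw [wave, hm] at h1 h2
      rw [Hgt_add_int] at h1
      rw [Ln_add_int] at h2
      have h3 := ih (fun i => o i.succ) (fun s => g (s + 1)) (fun s => l (s + 1)) (y - 1)
        (by linarith) (by simpa using h1) (by simpa using h2)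
      set c := cnt a n (fun i => o i.succ) (fun s => g (s + 1)) (fun s => l (s + 1))
      have h4 : (((if o 0 ∈ WS a g l then 1 else 0) +
          (if o 0 ∈ VS a g l then 1 + c else 0) : ℕ) : ℝ) ≤ 2 + c := by
        have : (if o 0 ∈ WS a g l then 1 else 0) + (if o 0 ∈ VS a g l then 1 + c else 0) ≤
            2 + c := by
          split_ifs <;> omega
        exact_mod_cast this
      have hpos : (0 : ℝ) < 1 / 2 - a := by linarith
      calc (1 / 2 - a) * (((if o 0 ∈ WS a g l then 1 else 0) +
            (if o 0 ∈ VS a g l then 1 + c else 0) : ℕ) : ℝ) ≤ (1 / 2 - a) * (2 + c) :=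
            mul_le_mul_of_nonneg_left h4 hpos.le
        _ = (1 - 2 * a) + (1 / 2 - a) * c := by ring
        _ ≤ y := by linarith

/-- The sum over all the sequences of options. -/
theorem sum_cnt (a : ℝ) : ∀ (n : ℕ) (g l : ℝ → ℝ),
    ∑ o : Fin n → Bool × Bool, cnt a n o g l =
      NN n (fun k => (WS a (fun s => g (s + k)) (fun s => l (s + k))).card)
        (fun k => (VS a (fun s => g (s + k)) (fun s => l (s + k))).card) := by
  intro n
  induction n with
  | zero => intro g l; simp [cnt, NN]
  | succ n ih =>
    intro g l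
    rw [← Equiv.sum_comp (Fin.consEquiv (fun _ => Bool × Bool)), Fintype.sum_prod_type]
    have h1 : ∀ (x : Bool × Bool) (o : Fin n → Bool × Bool),
        cnt a (n + 1) (Fin.consEquiv (fun _ => Bool × Bool) (x, o)) g l =
          (if x ∈ WS a g l then 1 else 0) + (if x ∈ VS a g l then
            1 + cnt a n o (fun s => g (s + 1)) (fun s => l (s + 1)) else 0) := by
      intro x o
      rw [cnt]
      simp [Fin.consEquiv]
    have h2 : ∀ x : Bool × Bool, ∑ o : Fin n → Bool × Bool,
        cnt a (n + 1) (Fin.consEquiv (fun _ => Bool × Bool) (x, o)) g l =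
          (if x ∈ WS a g l then 4 ^ n else 0) + (if x ∈ VS a g l then
            (4 ^ n + ∑ o : Fin n → Bool × Bool,
              cnt a n o (fun s => g (s + 1)) (fun s => l (s + 1))) else 0) := by
      intro x
      simp only [h1]
      rw [Finset.sum_add_distrib]
      congr 1
      · rw [Finset.sum_const, Finset.card_univ]
        simp
      · split_ifs with h
        · rw [Finset.sum_add_distrib, Finset.sum_const, Finset.card_univ]
          simp
        · simp
    have h3 := ih (fun s => g (s + 1)) (fun s => l (s + 1))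
    simp only [h2]
    rw [Finset.sum_add_distrib, Finset.sum_ite_mem, Finset.sum_ite_mem, Finset.univ_inter,
      Finset.univ_inter, Finset.sum_const, Finset.sum_const, h3, NN]
    simp only [smul_eq_mul, Nat.cast_zero, add_zero, Nat.cast_add, Nat.cast_one]
    simp only [add_assoc]

end Pool.Agent.W972.SG
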