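import Pool.Agent.W972.SG.Defs
import Pool.Agent.W972.SG.Concat
import Pool.Agent.W972.SG.Wave

/-!
# The spectacles network: potentials and the parametrization of the loops
-/

namespace Pool.Agent.W972.SG

open MeasureTheory Set Filter Topology
open scoped ENNReal NNReal
open Pool.Agent.Helper569.Net

variable {δ : ℝ} {hδ : 0 < δ}

/-- The loop `r`. -/
def lp (r : Bool) : Fin 3 := if r = true then 1 else 0

/-- The node of the loop `r`. -/
def nd (r : Bool) : Fin 2 := if r = true then 1 else 0

theorem lam_lip (x y : ℝ) : |lam x - lam y| ≤ |x - y| := by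
  unfold lam
  have d1 := neg_abs_le (x - y)
  have d2 := le_abs_self (x - y)
  rw [abs_le]
  have b1 := min_le_left x (1 / 2 - x)
  have b2 := min_le_right x (1 / 2 - x)
  have b3 := min_le_left (x - 1 / 2) (1 - x)
  have b4 := min_le_right (x - 1 / 2) (1 - x)
  have c1 := min_le_left y (1 / 2 - y)
  have c2 := min_le_right y (1 / 2 - y)
  have c3 := min_le_left (y - 1 / 2) (1 - y)
  have c4 := min_le_right (y - 1 / 2) (1 - y)
  split_ifs with h1 h2 h2
  · constructor
    · rcases min_choice x (1 / 2 - x) with h | h <;> rw [h] <;> linarith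
    · rcases min_choice y (1 / 2 - y) with h | h <;> rw [h] <;> linarith
  · rw [not_le] at h2
    constructor
    · rcases min_choice x (1 / 2 - x) with h | h <;>
        rcases min_choice (y - 1 / 2) (1 - y) with h' | h' <;> rw [h, h'] <;> linarith
    · rcases min_choice x (1 / 2 - x) with h | h <;>
        rcases min_choice (y - 1 / 2) (1 - y) with h' | h' <;> rw [h, h'] <;> linarith
  · rw [not_le] at h1
    constructor
    · rcases min_choice y (1 / 2 - y) with h | h <;>
        rcases min_choice (x - 1 / 2) (1 - x) with h' | h' <;> rw [h, h'] <;> linarith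
    · rcases min_choice y (1 / 2 - y) with h | h <;>
        rcases min_choice (x - 1 / 2) (1 - x) with h' | h' <;> rw [h, h'] <;> linarith
  · constructor
    · rcases min_choice (y - 1 / 2) (1 - y) with h | h <;> rw [h] <;> linarith
    · rcases min_choice (x - 1 / 2) (1 - x) with h | h <;> rw [h] <;> linarith

theorem min_lip (x y : ℝ) : |min x (1 - x) - min y (1 - y)| ≤ |x - y| := by
  have d1 := neg_abs_le (x - y)
  have d2 := le_abs_self (x - y)
  rw [abs_le]
  have b1 := min_le_left x (1 - x)
  have b2 := min_le_right x (1 - x)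
  have c1 := min_le_left y (1 - y)
  have c2 := min_le_right y (1 - y)
  constructor
  · rcases min_choice x (1 - x) with h | h <;> rw [h] <;> linarith
  · rcases min_choice y (1 - y) with h | h <;> rw [h] <;> linarith

theorem rep (q : (spectacles δ hδ).Q) : (∃ v : Fin 2, q = (spectacles δ hδ).node v) ∨
    ∃ (e : Fin 3) (x : Icc (0 : ℝ) ((spectacles δ hδ).len e)), q = (spectacles δ hδ).point e x :=
  Network.exists_rep q

/-- The signed height with respect to the loop `r`, on the arc `e`. -/
noncomputable def GF (δ : ℝ) (r : Bool) (e : Fin 3) (x : ℝ) : ℝ :=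
  if e = 2 then (if r = true then x - δ else -x)
  else if e = lp r then min x (1 - x) else -δ - min x (1 - x)

theorem GF_lip (δ : ℝ) (r : Bool) (e : Fin 3) (x y : ℝ) : |GF δ r e x - GF δ r e y| ≤ |x - y| := by
  unfold GF
  split_ifs
  · rw [show x - δ - (y - δ) = x - y by ring]
  · rw [show -x - -y = -(x - y) by ring, abs_neg]
  · exact min_lip x y
  · rw [show -δ - min x (1 - x) - (-δ - min y (1 - y)) = -(min x (1 - x) - min y (1 - y)) by ring,
      abs_neg]
    exact min_lip x y

/-- The signed height with respect to the loop `r`, at the node `v`. -/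
noncomputable def GN (δ : ℝ) (r : Bool) (v : Fin 2) : ℝ := if v = nd r then 0 else -δ

/-- The signed height with respect to the loop `r`. -/
noncomputable def GP (δ : ℝ) (hδ : 0 < δ) (r : Bool) : Network.Potential (spectacles δ hδ) where
  F p := match p with
    | .node v => GN δ r v
    | .pt e x => GF δ r e (x : ℝ)
  along e x y := GF_lip δ r e x y
  src := by
    intro (e : Fin 3)
    cases r <;> fin_cases e <;>
      simp [spectacles, Network.zero, GF, GN, nd, lp]
  tgt := by
    intro (e : Fin 3)
    cases r <;> fin_cases e <;>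
      simp [spectacles, Network.last, GF, GN, nd, lp]

/-- The lane function of the loop `r`, on the arc `e`. -/
noncomputable def LF (r : Bool) (e : Fin 3) (x : ℝ) : ℝ := if e = lp r then lam x else 0

theorem LF_lip (r : Bool) (e : Fin 3) (x y : ℝ) : |LF r e x - LF r e y| ≤ |x - y| := by
  unfold LF
  split_ifs
  · exact lam_lip x y
  · simp

theorem lam_zero : lam 0 = 0 := by
  unfold lam; norm_num

theorem lam_one : lam 1 = 0 := by
  unfold lam; norm_num

/-- The lane function of the loop `r`. -/
noncomputable def LP (δ : ℝ) (hδ : 0 < δ) (r : Bool) : Network.Potential (spectacles δ hδ) where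
  F p := match p with
    | .node _ => 0
    | .pt e x => LF r e (x : ℝ)
  along e x y := LF_lip r e x y
  src := by
    intro (e : Fin 3)
    cases r <;> fin_cases e <;>
      simp [Network.zero, LF, lp, lam_zero]
  tgt := by
    intro (e : Fin 3)
    cases r <;> fin_cases e <;>
      simp [spectacles, Network.last, LF, lp, lam_one]

theorem lam_eq_zero {x : ℝ} (h0 : 0 ≤ x) (h1 : x ≤ 1) (h : lam x = 0) :
    min x (1 - x) ≤ 0 ∨ min x (1 - x) = 1 / 2 := by
  unfold lam at h
  split_ifs at h with h2
  · rcases min_choice x (1 / 2 - x) with h3 | h3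
    · left
      rw [h3] at h
      rw [h]; norm_num
    · right
      rw [h3] at h
      have : x = 1 / 2 := by linarith
      rw [this]; norm_num
  · rcases min_choice (x - 1 / 2) (1 - x) with h3 | h3
    · right
      rw [h3] at h
      have : x = 1 / 2 := by linarith
      rw [this]; norm_num
    · left
      rw [h3] at h
      have : x = 1 := by linarith
      rw [this]; norm_num

theorem len_eq (e : Fin 3) (x : Icc (0 : ℝ) ((spectacles δ hδ).len e)) :
    0 ≤ (x : ℝ) ∧ (e ≠ 2 → (x : ℝ) ≤ 1) ∧ (e = 2 → (x : ℝ) ≤ δ) := by
  refine ⟨x.2.1, ?_, ?_⟩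
  · intro he
    have h := x.2.2
    fin_cases e
    · simpa [spectacles] using h
    · simpa [spectacles] using h
    · exact absurd rfl he
  · intro he
    subst he
    have h := x.2.2
    simpa [spectacles] using h

theorem GP_le (r : Bool) (q : (spectacles δ hδ).Q) : (GP δ hδ r).f q ≤ 1 / 2 := by
  rcases rep q with ⟨v, rfl⟩ | ⟨e, x, rfl⟩
  · rw [Network.Potential.f_node]
    change GN δ r v ≤ 1 / 2
    unfold GN
    split_ifs <;> linarith
  · rw [Network.Potential.f_point]
    change GF δ r e x ≤ 1 / 2
    obtain ⟨h1, h2, h3⟩ := len_eq e x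
    unfold GF
    split_ifs with h4 h5 h5
    · have := h3 h4; linarith
    · linarith
    · have b1 := min_le_left (x : ℝ) (1 - x)
      have b2 := min_le_right (x : ℝ) (1 - x)
      linarith
    · have : 0 ≤ min (x : ℝ) (1 - x) := le_min h1 (by have := h2 h4; linarith)
      linarith

theorem LP_zero (r : Bool) (q : (spectacles δ hδ).Q) (h : (LP δ hδ r).f q = 0) :
    (GP δ hδ r).f q ≤ 0 ∨ (GP δ hδ r).f q = 1 / 2 := by
  rcases rep q with ⟨v, rfl⟩ | ⟨e, x, rfl⟩
  · rw [Network.Potential.f_node]
    left
    change GN δ r v ≤ 0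
    unfold GN
    split_ifs <;> linarith
  · rw [Network.Potential.f_point] at h ⊢
    change LF r e x = 0 at h
    change GF δ r e x ≤ 0 ∨ GF δ r e x = 1 / 2
    obtain ⟨h1, h2, h3⟩ := len_eq e x
    unfold LF at h
    unfold GF
    split_ifs at h ⊢ with h4 h5 h5 h6 h6 h7
    all_goals first
      | exact lam_eq_zero h1 (h2 ‹_›) h
      | (left; linarith)
      | (left; have := h3 ‹_›; linarith)
      | (left; have : 0 ≤ min (x : ℝ) (1 - x) := le_min h1 (by have := h2 ‹_›; linarith)
         linarith)

/-- The searcher cannot be in the two loops. -/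
theorem GP_disj (r : Bool) (q : (spectacles δ hδ).Q) (h : 0 < (GP δ hδ r).f q) :
    (GP δ hδ (!r)).f q < 0 := by
  rcases rep q with ⟨v, rfl⟩ | ⟨e, x, rfl⟩
  · rw [Network.Potential.f_node] at h
    exfalso
    change 0 < GN δ r v at h
    unfold GN at h
    split_ifs at h <;> linarith
  · rw [Network.Potential.f_point] at h ⊢
    change 0 < GF δ r e x at h
    change GF δ (!r) e x < 0
    obtain ⟨h1, h2, h3⟩ := len_eq e x
    have h4 : e ≠ 2 := by
      rintro rfl
      have := h3 rfl
      unfold GF at h
      rw [if_pos rfl] at h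
      split_ifs at h <;> linarith
    have h5 : 0 ≤ min (x : ℝ) (1 - x) := le_min h1 (by have := h2 h4; linarith)
    have h6 : e = lp r := by
      by_contra hcon
      unfold GF at h
      rw [if_neg h4, if_neg hcon] at h
      linarith
    have h7 : e ≠ lp (!r) := by
      rw [h6]; cases r <;> decide
    unfold GF
    rw [if_neg h4, if_neg h7]
    linarith

theorem loop_node (r : Bool) : (spectacles δ hδ).node (nd r) =
    (spectacles δ hδ).point (lp r) ((spectacles δ hδ).zero (lp r)) ∧
    (spectacles δ hδ).node (nd r) =
    (spectacles δ hδ).point (lp r) ((spectacles δ hδ).last (lp r)) := by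
  cases r
  · exact ⟨Network.node_src (N := spectacles δ hδ) (0 : Fin 3),
      Network.node_tgt (N := spectacles δ hδ) (0 : Fin 3)⟩
  · exact ⟨Network.node_src (N := spectacles δ hδ) (1 : Fin 3),
      Network.node_tgt (N := spectacles δ hδ) (1 : Fin 3)⟩

/-- The signed height vanishes only at the node of the loop. -/
theorem GP_eq_zero (r : Bool) (q : (spectacles δ hδ).Q) (h : (GP δ hδ r).f q = 0) :
    q = (spectacles δ hδ).node (nd r) := by
  rcases rep q with ⟨v, rfl⟩ | ⟨e, x, rfl⟩
  · rw [Network.Potential.f_node] at h
    change GN δ r v = 0 at h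
    unfold GN at h
    split_ifs at h with h1
    · rw [h1]
    · linarith
  · rw [Network.Potential.f_point] at h
    change GF δ r e x = 0 at h
    obtain ⟨h1, h2, h3⟩ := len_eq e x
    by_cases h4 : e = 2
    · subst h4
      unfold GF at h
      rw [if_pos rfl] at h
      cases r
      · simp only [Bool.false_eq_true, if_false, neg_eq_zero] at h
        have h5 := Network.node_src (N := spectacles δ hδ) (2 : Fin 3)
        change (spectacles δ hδ).node (0 : Fin 2) = _ at h5
        change _ = (spectacles δ hδ).node (0 : Fin 2)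
        rw [h5]
        congr 1
        exact Subtype.ext h
      · simp only [if_true] at h
        have h5 := Network.node_tgt (N := spectacles δ hδ) (2 : Fin 3)
        change (spectacles δ hδ).node (1 : Fin 2) = _ at h5
        change _ = (spectacles δ hδ).node (1 : Fin 2)
        rw [h5]
        congr 1
        apply Subtype.ext
        change (x : ℝ) = δ
        linarith
    · have h5 : 0 ≤ min (x : ℝ) (1 - x) := le_min h1 (by have := h2 h4; linarith)
      have h6 : e = lp r := by
        by_contra hcon
        unfold GF at h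
        rw [if_neg h4, if_neg hcon] at h
        linarith
      subst h6
      unfold GF at h
      rw [if_neg h4, if_pos rfl] at h
      rcases min_choice (x : ℝ) (1 - x) with h7 | h7
      · rw [h7] at h
        rw [(loop_node (hδ := hδ) r).1]
        congr 1
        exact Subtype.ext h
      · rw [h7] at h
        rw [(loop_node (hδ := hδ) r).2]
        congr 1
        apply Subtype.ext
        change (x : ℝ) = (spectacles δ hδ).len (lp r)
        have h8 : (spectacles δ hδ).len (lp r) = 1 := by cases r <;> rfl
        have h9 : (x : ℝ) = 1 := by linarith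
        exact h9.trans h8.symm

theorem len_lp (r : Bool) : (spectacles δ hδ).len (lp r) = 1 := by cases r <;> rfl

/-- The loop `r`, parametrized by the line. -/
noncomputable def gam (δ : ℝ) (hδ : 0 < δ) (r : Bool) (y : ℝ) : (spectacles δ hδ).Q :=
  (spectacles δ hδ).point (lp r) ⟨Int.fract y, Int.fract_nonneg y, by
    rw [len_lp]; exact (Int.fract_lt_one y).le⟩

theorem gam_GP (r : Bool) (y : ℝ) : (GP δ hδ r).f (gam δ hδ r y) = Hgt y := by
  unfold gam
  rw [Network.Potential.f_point]
  change GF δ r (lp r) (Int.fract y) = Hgt y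
  unfold GF Hgt
  rw [if_neg (by cases r <;> decide), if_pos rfl]

theorem gam_LP (r : Bool) (y : ℝ) : (LP δ hδ r).f (gam δ hδ r y) = Ln y := by
  unfold gam
  rw [Network.Potential.f_point]
  change LF r (lp r) (Int.fract y) = Ln y
  unfold LF Ln
  rw [if_pos rfl]

theorem gam_lip (r : Bool) : LipschitzWith 1 (gam δ hδ r) := by
  apply lip_int_steps
  intro n x y hnx hxy hyn
  have key : ∀ z : ℝ, (n : ℝ) ≤ z → z ≤ n + 1 → ∀ (h : z - n ∈ Icc (0 : ℝ)
      ((spectacles δ hδ).len (lp r))), gam δ hδ r z = (spectacles δ hδ).point (lp r) ⟨z - n, h⟩ := by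
    intro z hz1 hz2 h
    rcases hz2.lt_or_eq with h1 | h1
    · unfold gam
      congr 1
      apply Subtype.ext
      change Int.fract z = z - n
      rw [Int.fract, Int.floor_eq_iff.2 ⟨hz1, h1⟩]
    · have e1 : gam δ hδ r z = (spectacles δ hδ).node (nd r) := by
        rw [(loop_node (hδ := hδ) r).1]
        unfold gam
        congr 1
        apply Subtype.ext
        change Int.fract z = 0
        rw [h1]
        have : (n : ℝ) + 1 = ((n + 1 : ℤ) : ℝ) := by push_cast; ring
        rw [this, Int.fract_intCast]
      rw [e1, (loop_node (hδ := hδ) r).2]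
      congr 1
      apply Subtype.ext
      change (spectacles δ hδ).len (lp r) = z - n
      rw [len_lp, h1]; ring
  have hx : x - n ∈ Icc (0 : ℝ) ((spectacles δ hδ).len (lp r)) := by
    rw [len_lp]; constructor <;> linarith
  have hy : y - n ∈ Icc (0 : ℝ) ((spectacles δ hδ).len (lp r)) := by
    rw [len_lp]; constructor <;> linarith
  rw [key x hnx (by linarith) hx, key y (by linarith) hyn hy]
  have := Network.point_lipschitz (N := spectacles δ hδ) (lp r) ⟨x - n, hx⟩ ⟨y - n, hy⟩
  refine this.trans (le_of_eq ?_)
  congr 1
  rw [Subtype.edist_eq, edist_dist, edist_dist, Real.dist_eq, Real.dist_eq]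
  congr 2
  ring

end Pool.Agent.W972.SG
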