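import Pool.Agent.W972.SG.Meas
import Pool.Agent.W972.SG.Spect

/-!
# The exceptional leads
-/

namespace Pool.Agent.W972.SG

open MeasureTheory Set Filter Topology
open scoped ENNReal NNReal
open Pool.Agent.Helper569.Net

theorem vol_small {A : Set ℝ} {c : ℝ} (hc : 0 ≤ c) (h : ∀ x ∈ A, ∀ y ∈ A, x ≤ y → y - x ≤ c) :
    volume A ≤ ENNReal.ofReal (2 * c) := by
  rcases A.eq_empty_or_nonempty with rfl | ⟨m, hm⟩
  · simp
  · have hsub : A ⊆ Icc (m - c) (m + c) := by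
      intro x hx
      rcases le_total x m with h1 | h1
      · have := h x hx m hm h1
        constructor <;> linarith
      · have := h m hm x hx h1
        constructor <;> linarith
    refine (measure_mono hsub).trans ?_
    rw [Real.volume_Icc]
    exact ENNReal.ofReal_le_ofReal (by linarith)

theorem vol_null {A : Set ℝ} {c : ℝ} (hc : 0 < c) (h : ∀ x ∈ A, ∀ y ∈ A, x < y → c ≤ y - x) :
    volume A = 0 := by
  refine measure_null_of_locally_null A fun x hx => ?_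
  refine ⟨A ∩ Ioo (x - c) (x + c), ?_, ?_⟩
  · exact inter_mem_nhdsWithin A (Ioo_mem_nhds (by linarith) (by linarith))
  · have hsub : A ∩ Ioo (x - c) (x + c) ⊆ {x} := by
      rintro y ⟨hy, hy1, hy2⟩
      rcases lt_trichotomy y x with h1 | h1 | h1
      · have := h y hy x hx h1; linarith
      · exact h1
      · have := h x hx y hy h1; linarith
    exact measure_mono_null hsub (by simp)

variable {a : ℝ} {φ : ℝ → ℝ} {k : ℝ} {η : ℝ}

theorem evE_diam (ha : 0 < a) (ha' : a < 1 / 8) (hη : η ≤ 1 / 4)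
    (hφ : ∀ s t, |φ s - φ t| ≤ |s - t|) :
    volume {ε : ℝ | 0 ≤ ε ∧ ε ≤ η ∧ EvE a (fun s => φ (s + k - ε))} ≤ ENNReal.ofReal (4 * a) := by
  rw [show 4 * a = 2 * (2 * a) by ring]
  refine vol_small (by linarith) ?_
  rintro x ⟨hx0, hx1, s0, hs0, hs0', s1, hs1, hs1', hx2, hx3⟩
    y ⟨hy0, hy1, t0, ht0, ht0', t1, ht1, ht1', hy2, hy3⟩ hxy
  simp only at hx2 hx3 hy2 hy3
  have h1 := hφ (t1 + k - y) (s0 + k - x)
  have h2 : 1 / 2 - a ≤ |t1 + k - y - (s0 + k - x)| := by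
    refine le_trans ?_ h1
    refine le_trans ?_ (le_abs_self _)
    linarith
  rcases abs_cases (t1 + k - y - (s0 + k - x)) with ⟨h3, h4⟩ | ⟨h3, h4⟩
  · rw [h3] at h2; linarith
  · rw [h3] at h2; linarith

theorem evF_diam (ha : 0 < a) (ha' : a < 1 / 8) (hη : η ≤ 1 / 4)
    (hφ : ∀ s t, |φ s - φ t| ≤ |s - t|) :
    volume {ε : ℝ | 0 ≤ ε ∧ ε ≤ η ∧ EvF a (fun s => φ (s + k - ε))} ≤ ENNReal.ofReal (4 * a) := by
  rw [show 4 * a = 2 * (2 * a) by ring]
  refine vol_small (by linarith) ?_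
  rintro x ⟨hx0, hx1, s0, hs0, hs0', s1, hs1, hs1', hx2, hx3⟩
    y ⟨hy0, hy1, t0, ht0, ht0', t1, ht1, ht1', hy2, hy3⟩ hxy
  simp only at hx2 hx3 hy2 hy3
  have h1 := hφ (s1 + k - x) (t0 + k - y)
  have h2 : 1 / 2 - a ≤ |s1 + k - x - (t0 + k - y)| := by
    refine le_trans ?_ h1
    refine le_trans ?_ (le_abs_self _)
    linarith
  rcases abs_cases (s1 + k - x - (t0 + k - y)) with ⟨h3, h4⟩ | ⟨h3, h4⟩
  · rw [h3] at h2; linarith
  · rw [h3] at h2; linarith

theorem evP_null (ha : 0 < a) (hφ : ∀ s t, |φ s - φ t| ≤ |s - t|) :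
    volume {ε : ℝ | 0 ≤ ε ∧ ε ≤ η ∧ EvP a (fun s => φ (s + k - ε))} = 0 := by
  refine vol_null (c := 2 * a) (by linarith) ?_
  rintro x ⟨hx0, hx1, hx2, hx3, hx4⟩ y ⟨hy0, hy1, hy2, hy3, hy4⟩ hxy
  simp only at hx2 hx3 hx4 hy2 hy3 hy4
  have h1 := hφ (1 / 2 + k - y) (1 / 2 - a + k - x)
  rw [hx2, hy3] at h1
  rw [show (1 : ℝ) / 2 - (1 / 2 - a) = a by ring, abs_of_pos ha] at h1
  rcases abs_cases (1 / 2 + k - y - (1 / 2 - a + k - x)) with ⟨h3, h4⟩ | ⟨h3, h4⟩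
  · rw [h3] at h1; linarith
  · rw [h3] at h1; linarith

variable {δ : ℝ} {hδ : 0 < δ}

/-- The signed height of the searcher. -/
noncomputable def phi (S : SPath (spectacles δ hδ) (spectaclesMid δ hδ)) (r : Bool) (τ : ℝ) : ℝ :=
  (GP δ hδ r).f (S.pos τ.toNNReal)

/-- The lane function of the searcher. -/
noncomputable def psi (S : SPath (spectacles δ hδ) (spectaclesMid δ hδ)) (r : Bool) (τ : ℝ) : ℝ :=
  (LP δ hδ r).f (S.pos τ.toNNReal)

theorem pot_lip (P : Network.Potential (spectacles δ hδ))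
    (S : SPath (spectacles δ hδ) (spectaclesMid δ hδ)) :
    LipschitzWith 1 (fun τ : ℝ => P.f (S.pos τ.toNNReal)) := by
  have h1 : LipschitzWith 1 Real.toNNReal := by
    refine LipschitzWith.of_dist_le_mul fun x y => ?_
    rw [NNReal.coe_one, one_mul, NNReal.dist_eq, Real.dist_eq, Real.coe_toNNReal', Real.coe_toNNReal']
    exact abs_max_sub_max_le_abs x y 0
  have h2 := P.lipschitz.comp (S.lip.comp h1)
  rw [mul_one, mul_one] at h2
  exact h2

theorem phi_lip (S : SPath (spectacles δ hδ) (spectaclesMid δ hδ)) (r : Bool) (s t : ℝ) :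
    |phi S r s - phi S r t| ≤ |s - t| := by
  have := (pot_lip (GP δ hδ r) S).dist_le_mul s t
  rwa [NNReal.coe_one, one_mul, Real.dist_eq, Real.dist_eq] at this

theorem good_phi (S : SPath (spectacles δ hδ) (spectaclesMid δ hδ)) (r : Bool) (c : ℝ) :
    Good (fun s => phi S r (s + c)) (fun s => psi S r (s + c)) where
  hg := by
    intro s t
    have := phi_lip S r (s + c) (t + c)
    rwa [show s + c - (t + c) = s - t by ring] at this
  hl := (pot_lip (LP δ hδ r) S).continuous.comp (continuous_id.add continuous_const)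
  hz := fun s h => LP_zero r _ h
  hm := fun s => GP_le r _

theorem phi_of_nonpos (S : SPath (spectacles δ hδ) (spectaclesMid δ hδ)) (r : Bool) {τ : ℝ}
    (h : τ ≤ 0) : phi S r τ < 0 := by
  unfold phi
  rw [Real.toNNReal_of_nonpos h, S.pos_zero]
  change GF δ r 2 (δ / 2) < 0
  unfold GF
  rw [if_pos rfl]
  split_ifs <;> linarith

theorem node_null (S : SPath (spectacles δ hδ) (spectaclesMid δ hδ)) (r : Bool) (k : ℝ) :
    volume {ε : ℝ | phi S r (k - ε) = 0} = 0 := by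
  have h1 := S.2
  have h2 := (Measure.measurePreserving_sub_left (volume : Measure ℝ) k).quasiMeasurePreserving.preimage_null h1
  refine measure_mono_null ?_ h2
  intro ε hε
  have h3 : 0 ≤ k - ε := by
    by_contra hcon
    exact (phi_of_nonpos S r (not_le.1 hcon).le).ne hε
  refine ⟨h3, nd r, ?_⟩
  exact (GP_eq_zero r _ hε).symm

/-- The exceptional leads. -/
def Bad (S : SPath (spectacles δ hδ) (spectaclesMid δ hδ)) (a η : ℝ) : Set ℝ :=
  ⋃ i : Fin 11 × Bool, ({ε : ℝ | phi S i.2 ((i.1 : ℕ) - ε) = 0} ∪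
    ({ε : ℝ | 0 ≤ ε ∧ ε ≤ η ∧ EvE a (fun s => phi S i.2 (s + (i.1 : ℕ) - ε))} ∪
    ({ε : ℝ | 0 ≤ ε ∧ ε ≤ η ∧ EvF a (fun s => phi S i.2 (s + (i.1 : ℕ) - ε))} ∪
    {ε : ℝ | 0 ≤ ε ∧ ε ≤ η ∧ EvP a (fun s => phi S i.2 (s + (i.1 : ℕ) - ε))})))

theorem vol_Bad (S : SPath (spectacles δ hδ) (spectaclesMid δ hδ)) (ha : 0 < a) (ha' : a < 1 / 8)
    (hη : η ≤ 1 / 4) : volume (Bad S a η) ≤ ENNReal.ofReal (176 * a) := by
  unfold Bad
  refine (measure_iUnion_le _).trans ?_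
  rw [tsum_fintype]
  have h1 : ∀ i : Fin 11 × Bool, volume ({ε : ℝ | phi S i.2 ((i.1 : ℕ) - ε) = 0} ∪
    ({ε : ℝ | 0 ≤ ε ∧ ε ≤ η ∧ EvE a (fun s => phi S i.2 (s + (i.1 : ℕ) - ε))} ∪
    ({ε : ℝ | 0 ≤ ε ∧ ε ≤ η ∧ EvF a (fun s => phi S i.2 (s + (i.1 : ℕ) - ε))} ∪
    {ε : ℝ | 0 ≤ ε ∧ ε ≤ η ∧ EvP a (fun s => phi S i.2 (s + (i.1 : ℕ) - ε))}))) ≤
      ENNReal.ofReal (8 * a) := by
    intro i
    refine (measure_union_le _ _).trans ?_
    rw [node_null, zero_add]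
    refine (measure_union_le _ _).trans ?_
    rw [show 8 * a = 4 * a + 4 * a by ring, ENNReal.ofReal_add (by linarith) (by linarith)]
    refine add_le_add (evE_diam ha ha' hη (phi_lip S i.2)) ?_
    refine (measure_union_le _ _).trans ?_
    rw [evP_null ha (phi_lip S i.2), add_zero]
    exact evF_diam ha ha' hη (phi_lip S i.2)
  refine (Finset.sum_le_sum fun i _ => h1 i).trans ?_
  rw [Finset.sum_const, Finset.card_univ, nsmul_eq_mul]
  have h2 : Fintype.card (Fin 11 × Bool) = 22 := by decide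
  rw [h2, show 176 * a = ((22 : ℕ) : ℝ) * (8 * a) by push_cast; ring,
    ENNReal.ofReal_mul (p := ((22 : ℕ) : ℝ)) (by positivity), ENNReal.ofReal_natCast]

end Pool.Agent.W972.SG
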