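import Pool.Agent.W972.SG.Defs
import Pool.Agent.W972.SG.Concat

/-!
# The necklace network
-/

namespace Pool.Agent.W972.SG

open MeasureTheory Set Filter Topology
open scoped ENNReal NNReal
open Pool.Agent.Helper569.Net

/-- The segment of the arc `e`. -/
def segE : Fin 14 → Fin 8 := ![0, 0, 1, 2, 2, 3, 3, 4, 4, 5, 5, 6, 7, 7]

/-- The arc in the segment `i` and in the lane `b`. -/
def arcOf (i : Fin 8) (b : Bool) : Fin 14 :=
  if b = true then ![1, 2, 4, 6, 8, 10, 11, 13] i else ![0, 2, 3, 5, 7, 9, 11, 12] i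

/-- The coordinates of the nodes. -/
noncomputable def co : ℕ → ℝ
  | 0 => 0
  | 1 => 999 / 1000
  | 2 => 1001 / 1000
  | 3 => 2
  | 4 => 3
  | 5 => 4
  | 6 => 4999 / 1000
  | 7 => 5001 / 1000
  | _ => 6

theorem co_lt (i : Fin 8) : co i < co ((i : ℕ) + 1) := by
  fin_cases i <;> norm_num [co]

theorem co_mono : Monotone co := by
  refine monotone_nat_of_le_succ fun n => ?_
  rcases lt_or_ge n 8 with h | h
  · exact (co_lt ⟨n, h⟩).le
  · obtain ⟨m, rfl⟩ := Nat.exists_eq_add_of_le h
    rw [show 8 + m = m + 8 by ring]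
    simp [co]

theorem segE_arcOf : ∀ (i : Fin 8) (b : Bool), segE (arcOf i b) = i := by decide

theorem arcOf_one : ∀ b b' : Bool, arcOf 1 b = arcOf 1 b' := by decide

theorem arcOf_six : ∀ b b' : Bool, arcOf 6 b = arcOf 6 b' := by decide

theorem eq_arcOf : ∀ e : Fin 14, ∃ b : Bool, e = arcOf (segE e) b := by decide

/-- The necklace: a chain of nodes with the coordinates `0, 1 - b, 1 + b, 2, 3, 4, 5 - b, 5 + b, 6`,
`b = 1/1000`, the consecutive ones being joined by two arcs, except the nodes `1 - b, 1 + b` and the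
nodes `5 - b, 5 + b`, which are joined by one arc. -/
noncomputable def necklace : Network where
  V := Fin 9
  E := Fin 14
  src e := (segE e).castSucc
  tgt e := (segE e).succ
  len e := co ((segE e : ℕ) + 1) - co (segE e : ℕ)
  len_pos e := sub_pos.2 (co_lt (segE e))
  connected := by
    have key : ∀ v : Fin 9, Relation.EqvGen (fun a b : Fin 9 => ∃ e : Fin 14,
        (segE e).castSucc = a ∧ (segE e).succ = b) 0 v := by
      intro v
      induction v using Fin.induction with
      | zero => exact Relation.EqvGen.refl _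
      | succ i ih =>
        refine Relation.EqvGen.trans _ _ _ ih (Relation.EqvGen.rel _ _ ⟨arcOf i false, ?_, ?_⟩)
        · rw [segE_arcOf]
        · rw [segE_arcOf]
    intro u v
    exact Relation.EqvGen.trans _ _ _ (Relation.EqvGen.symm _ _ (key u)) (key v)

theorem totalLength_necklace : totalLength necklace = 11.996 := by
  unfold totalLength
  change ∑ e : Fin 14, (co ((segE e : ℕ) + 1) - co (segE e : ℕ)) = 11.996
  simp [Fin.sum_univ_succ, segE, co]
  norm_num

/-- The coordinate of a node. -/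
noncomputable def coN (v : Fin 9) : ℝ := co (v : ℕ)

/-- The coordinate. -/
noncomputable def cP : Network.Potential necklace where
  F p := match p with
    | .node v => coN v
    | .pt e x => co (segE e : ℕ) + (x : ℝ)
  along e x y := by
    simp only
    rw [add_sub_add_left_eq_sub]
  src e := by
    change co ((segE e).castSucc : ℕ) = co (segE e : ℕ) + 0
    simp
  tgt e := by
    change co ((segE e).succ : ℕ) = co (segE e : ℕ) + (co ((segE e : ℕ) + 1) - co (segE e : ℕ))
    simp

theorem len_arcOf (i : Fin 8) (b : Bool) : necklace.len (arcOf i b) = co ((i : ℕ) + 1) - co i := by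
  change co ((segE (arcOf i b) : ℕ) + 1) - co (segE (arcOf i b) : ℕ) = _
  rw [segE_arcOf]

/-- The parametrization of one segment, by the coordinate. -/
noncomputable def gseg (b : Bool) (i : Fin 8) (y : ℝ) : necklace.Q :=
  necklace.point (arcOf i b) (projIcc 0 (necklace.len (arcOf i b)) (necklace.len_pos _).le (y - co i))

theorem gseg_congr {i : Fin 8} {b b' : Bool} (h : arcOf i b = arcOf i b') (y : ℝ) :
    gseg b i y = gseg b' i y := by
  have key : ∀ (e e' : Fin 14) (he : e = e'), necklace.point e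
      (projIcc 0 (necklace.len e) (necklace.len_pos _).le (y - co i)) = necklace.point e'
      (projIcc 0 (necklace.len e') (necklace.len_pos _).le (y - co i)) := by
    rintro e e' rfl
    rfl
  exact key _ _ h

theorem gseg_lip (b : Bool) (i : Fin 8) : LipschitzWith 1 (gseg b i) := by
  have h1 : LipschitzWith 1 (fun y : ℝ => y - co i) := by
    refine LipschitzWith.of_dist_le_mul fun x y => ?_
    rw [NNReal.coe_one, one_mul, Real.dist_eq, Real.dist_eq]
    rw [sub_sub_sub_cancel_right]
  have h2 := (Network.point_lipschitz (N := necklace) (arcOf i b)).comp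
    ((LipschitzWith.projIcc (necklace.len_pos (arcOf i b)).le).comp h1)
  rw [mul_one, mul_one] at h2
  exact h2

theorem gseg_left (b : Bool) (i : Fin 8) : gseg b i (co i) = necklace.node i.castSucc := by
  have h := Network.node_src (N := necklace) (arcOf i b)
  change necklace.node (segE (arcOf i b)).castSucc = _ at h
  rw [segE_arcOf] at h
  rw [h]
  unfold gseg
  congr 1
  rw [sub_self]
  exact projIcc_of_le_left _ le_rfl

theorem gseg_right (b : Bool) (i : Fin 8) : gseg b i (co ((i : ℕ) + 1)) = necklace.node i.succ := by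
  have h := Network.node_tgt (N := necklace) (arcOf i b)
  change necklace.node (segE (arcOf i b)).succ = _ at h
  rw [segE_arcOf] at h
  rw [h]
  unfold gseg
  congr 1
  apply Subtype.ext
  rw [coe_projIcc]
  change max 0 (min (necklace.len (arcOf i b)) (co ((i : ℕ) + 1) - co i)) = necklace.len (arcOf i b)
  rw [len_arcOf, min_self]
  exact max_eq_right (sub_nonneg.2 (co_lt i).le)

/-- The parametrization of the segments `0, …, n`. -/
noncomputable def GG (b : Bool) : ℕ → ℝ → necklace.Q
  | 0 => gseg b 0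
  | n + 1 => fun y => if y ≤ co (n + 1) then GG b n y else gseg b (Fin.ofNat 8 (n + 1)) y

theorem GG_spec (b : Bool) : ∀ (n : ℕ) (hn : n < 8), LipschitzWith 1 (GG b n) ∧
    ∀ y, co n ≤ y → GG b n y = gseg b ⟨n, hn⟩ y := by
  intro n
  induction n with
  | zero =>
    intro hn
    exact ⟨gseg_lip b 0, fun y _ => rfl⟩
  | succ n ih =>
    intro hn
    obtain ⟨ih1, ih2⟩ := ih (by omega)
    have hof : Fin.ofNat 8 (n + 1) = ⟨n + 1, hn⟩ := by
      apply Fin.ext
      exact Nat.mod_eq_of_lt hn
    have heq : GG b n (co (n + 1)) = gseg b ⟨n + 1, hn⟩ (co (n + 1)) := by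
      rw [ih2 _ (co_mono (by omega))]
      have h1 := gseg_right b ⟨n, by omega⟩
      have h2 := gseg_left b ⟨n + 1, hn⟩
      simp only at h1 h2
      rw [h1, h2]
      rfl
    constructor
    · unfold GG
      rw [hof]
      exact lip_ite ih1 (gseg_lip b _) _ heq
    · intro y hy
      unfold GG
      rw [hof]
      by_cases h : y ≤ co (n + 1)
      · rw [if_pos h]
        have : y = co (n + 1) := le_antisymm h hy
        rw [this, heq]
      · rw [if_neg h]

theorem GG_mem (b : Bool) (n : ℕ) (hn : n < 8) (y : ℝ) (h1 : co n ≤ y) (h2 : y ≤ co (n + 1)) :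
    ∀ m, n ≤ m → m < 8 → GG b m y = gseg b ⟨n, hn⟩ y := by
  intro m hm
  induction m, hm using Nat.le_induction with
  | base => intro _; exact (GG_spec b n hn).2 y h1
  | succ m hm ih =>
    intro hm8
    unfold GG
    rw [if_pos (h2.trans (co_mono (by omega)))]
    exact ih (by omega)

/-- The parametrization of the necklace by the coordinate, in the lane `b`. -/
noncomputable def Gam (b : Bool) (y : ℝ) : necklace.Q := GG b 7 y

theorem Gam_lip (b : Bool) : LipschitzWith 1 (Gam b) := (GG_spec b 7 (by omega)).1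

theorem Gam_seg (b : Bool) (i : Fin 8) (y : ℝ) (h1 : co i ≤ y) (h2 : y ≤ co ((i : ℕ) + 1)) :
    Gam b y = gseg b i y := GG_mem b i i.2 y h1 h2 7 (by omega) (by omega)

theorem exists_seg (y : ℝ) (h0 : 0 ≤ y) (h6 : y ≤ 6) :
    ∃ i : Fin 8, co i ≤ y ∧ y ≤ co ((i : ℕ) + 1) := by
  by_contra hcon
  push Not at hcon
  have key : ∀ n : ℕ, n ≤ 8 → co n ≤ y := by
    intro n
    induction n with
    | zero => intro _; exact h0
    | succ n ih =>
      intro hn
      exact (hcon ⟨n, by omega⟩ (ih (by omega))).le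
  have h1 := hcon 7 (key 7 (by omega))
  have h2 : co (((7 : Fin 8) : ℕ) + 1) = 6 := rfl
  rw [h2] at h1
  linarith

theorem cP_gseg (b : Bool) (i : Fin 8) (y : ℝ) (h1 : co i ≤ y) (h2 : y ≤ co ((i : ℕ) + 1)) :
    cP.f (gseg b i y) = y := by
  unfold gseg
  change co (segE (arcOf i b) : ℕ) + ((projIcc 0 (necklace.len (arcOf i b))
    (necklace.len_pos _).le (y - co i) : ℝ)) = y
  rw [segE_arcOf, projIcc_of_mem _ (by
    rw [len_arcOf]; constructor <;> linarith : y - co i ∈ Icc 0 (necklace.len (arcOf i b)))]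
  simp

theorem cP_Gam (b : Bool) (y : ℝ) (h0 : 0 ≤ y) (h6 : y ≤ 6) : cP.f (Gam b y) = y := by
  obtain ⟨i, h1, h2⟩ := exists_seg y h0 h6
  rw [Gam_seg b i y h1 h2, cP_gseg b i y h1 h2]

theorem exists_point (q : necklace.Q) : ∃ (e : Fin 14) (x : Icc (0 : ℝ) (necklace.len e)),
    q = necklace.point e x := by
  rcases Network.exists_rep q with ⟨(v : Fin 9), rfl⟩ | ⟨e, x, rfl⟩
  · induction v using Fin.cases with
    | zero => exact ⟨0, _, Network.node_src (N := necklace) (0 : Fin 14)⟩
    | succ i =>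
      refine ⟨arcOf i false, necklace.last (arcOf i false), ?_⟩
      have h := Network.node_tgt (N := necklace) (arcOf i false)
      change necklace.node (segE (arcOf i false)).succ = _ at h
      rw [segE_arcOf] at h
      exact h
  · exact ⟨e, x, rfl⟩

theorem co_range (i : Fin 8) : 0 ≤ co i ∧ co ((i : ℕ) + 1) ≤ 6 := by
  constructor
  · exact co_mono (Nat.zero_le _)
  · have : co 8 = 6 := rfl
    rw [← this]
    exact co_mono (by omega)

/-- Every point is `Gam false y` or `Gam true y`, where `y` is its coordinate. -/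
theorem Gam_surj (q : necklace.Q) : 0 ≤ cP.f q ∧ cP.f q ≤ 6 ∧ ∃ b, q = Gam b (cP.f q) := by
  obtain ⟨e, x, rfl⟩ := exists_point q
  obtain ⟨b, hb⟩ := eq_arcOf e
  have hx0 : 0 ≤ (x : ℝ) := x.2.1
  have hx1 : (x : ℝ) ≤ co ((segE e : ℕ) + 1) - co (segE e : ℕ) := x.2.2
  have hc : cP.f (necklace.point e x) = co (segE e : ℕ) + x := rfl
  rw [hc]
  have hr := co_range (segE e)
  refine ⟨by linarith [hr.1], by linarith [hr.2], b, ?_⟩
  rw [Gam_seg b (segE e) _ (by linarith) (by linarith)]
  unfold gseg
  have key : ∀ (e' : Fin 14) (he : e = e') , necklace.point e x = necklace.point e'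
      (projIcc 0 (necklace.len e') (necklace.len_pos _).le (co (segE e : ℕ) + x - co (segE e : ℕ))) := by
    rintro e' rfl
    congr 1
    rw [add_sub_cancel_left]
    exact (projIcc_val _ x).symm
  exact key _ hb

/-- The two lanes coincide at the integers. -/
theorem Gam_nat (b b' : Bool) (n : ℕ) (hn : n ≤ 6) : Gam b n = Gam b' n := by
  have hnode : ∀ (i : Fin 8) (y : ℝ), y = co i → Gam b y = Gam b' y := by
    rintro i y rfl
    rw [Gam_seg b i _ le_rfl (co_lt i).le, Gam_seg b' i _ le_rfl (co_lt i).le, gseg_left, gseg_left]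
  interval_cases n
  · exact hnode 0 _ (by norm_num [co])
  · have h1 : ((1 : Fin 8) : ℕ) = 1 := rfl
    have e1 : co ((1 : Fin 8) : ℕ) = 999 / 1000 := rfl
    have e2 : co (((1 : Fin 8) : ℕ) + 1) = 1001 / 1000 := rfl
    rw [Gam_seg b 1 _ (by rw [e1]; norm_num) (by rw [e2]; norm_num),
      Gam_seg b' 1 _ (by rw [e1]; norm_num) (by rw [e2]; norm_num)]
    exact gseg_congr (arcOf_one b b') _
  · exact hnode 3 _ (by
      have : co ((3 : Fin 8) : ℕ) = 2 := rfl
      rw [this]; norm_num)
  · exact hnode 4 _ (by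
      have : co ((4 : Fin 8) : ℕ) = 3 := rfl
      rw [this]; norm_num)
  · exact hnode 5 _ (by
      have : co ((5 : Fin 8) : ℕ) = 4 := rfl
      rw [this]; norm_num)
  · have e1 : co ((6 : Fin 8) : ℕ) = 4999 / 1000 := rfl
    have e2 : co (((6 : Fin 8) : ℕ) + 1) = 5001 / 1000 := rfl
    rw [Gam_seg b 6 _ (by rw [e1]; norm_num) (by rw [e2]; norm_num),
      Gam_seg b' 6 _ (by rw [e1]; norm_num) (by rw [e2]; norm_num)]
    exact gseg_congr (arcOf_six b b') _
  · have e2 : co (((7 : Fin 8) : ℕ) + 1) = 6 := rfl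
    have h6 : ((6 : ℕ) : ℝ) = co (((7 : Fin 8) : ℕ) + 1) := by rw [e2]; norm_num
    rw [h6, Gam_seg b 7 _ (co_lt 7).le le_rfl, Gam_seg b' 7 _ (co_lt 7).le le_rfl, gseg_right,
      gseg_right]

/-- The coordinates of the nodes. -/
theorem cP_node (v : Fin 9) : cP.f (necklace.node v) = co (v : ℕ) := rfl

end Pool.Agent.W972.SG
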