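import Mathlib

/-!
# The certificate for the upper bound: definitions and soundness

The searcher moves on a chain with the integer positions `0, …, 6`; `posT s`, `tgtT s` are the
positions of the searcher at the beginning and at the end of a step in the state `s`, and
`nx0 s`, `nx1 s` are the next states (the second one being chosen with the probability `1/12`).
The hider is at each time in one of the classes `0, …, 5` (the integer part of its coordinate).
-/

namespace Pool.Agent.W972.SG

open scoped ENNReal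

def posT : Fin 16 → ℕ := ![3, 3, 2, 4, 1, 1, 5, 5, 0, 1, 6, 5, 1, 5, 2, 4]
def tgtT : Fin 16 → ℕ := ![2, 4, 1, 5, 0, 1, 6, 5, 1, 1, 5, 5, 2, 4, 3, 3]
def nx0 : Fin 16 → Fin 16 := ![2, 3, 4, 6, 8, 9, 10, 11, 12, 4, 13, 6, 14, 15, 1, 0]
def nx1 : Fin 16 → Fin 16 := ![2, 3, 5, 7, 8, 9, 10, 11, 12, 4, 13, 6, 14, 15, 1, 0]

/-- Twice the factor of a step from `x` to `y` while the class changes from `z` to `z'`. -/
def f2 (x y z z' : ℕ) : ℕ :=
  cond (Nat.ble x z) (cond (Nat.ble y z') 2 (cond (Nat.beq x y) 0 1))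
    (cond (Nat.ble y z') (cond (Nat.beq x y) 0 1) 2)

def fc (s : Fin 16) (z z' : ℕ) : ℕ := f2 (posT s) (tgtT s) z z'

def kk (s s' : Fin 16) : ℕ := (if nx0 s = s' then 11 else 0) + (if nx1 s = s' then 1 else 0)

def stepF (z z' : ℕ) (m : Fin 16 → ℕ) (s' : Fin 16) : ℕ := ∑ s, kk s s' * fc s z z' * m s

/-- A node of the certificate. -/
structure Nd where
  z : ℕ
  acc : ℕ
  m : List ℕ
  ch : List ℕ

def stepL (z z' : ℕ) : List ℕ → List ℕ
  | [m0, m1, m2, m3, m4, m5, m6, m7, m8, m9, m10, m11, m12, m13, m14, m15] =>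
    [12 * (f2 4 3 z z' * m15),
     12 * (f2 2 3 z z' * m14),
     12 * (f2 3 2 z z' * m0),
     12 * (f2 3 4 z z' * m1),
     11 * (f2 2 1 z z' * m2) + 12 * (f2 1 1 z z' * m9),
     f2 2 1 z z' * m2,
     11 * (f2 4 5 z z' * m3) + 12 * (f2 5 5 z z' * m11),
     f2 4 5 z z' * m3,
     12 * (f2 1 0 z z' * m4),
     12 * (f2 1 1 z z' * m5),
     12 * (f2 5 6 z z' * m6),
     12 * (f2 5 5 z z' * m7),
     12 * (f2 0 1 z z' * m8),
     12 * (f2 6 5 z z' * m10),
     12 * (f2 1 2 z z' * m12),
     12 * (f2 5 4 z z' * m13)]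
  | _ => []

def dot : List ℕ → List ℕ → ℕ
  | a :: u, b :: v => a * b + dot u v
  | _, _ => 0

def sumL : List ℕ → ℕ
  | [] => 0
  | a :: u => a + sumL u

def okL (z z' : ℕ) : List ℕ → List ℕ → List ℕ → Bool
  | p :: ps, a :: v, b :: m =>
    Nat.ble a (24 * b) && ((Nat.beq a 0 || (Nat.ble p z == Nat.ble p z')) && okL z z' ps v m)
  | [], [], [] => true
  | _, _, _ => false

def posL : List ℕ := [3, 3, 2, 4, 1, 1, 5, 5, 0, 1, 6, 5, 1, 5, 2, 4]

def chkChild (U : List (List ℕ)) (nxt : List Nd) (nd : Nd) (z2 : ℕ) : Bool :=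
  let v := stepL nd.z z2 nd.m
  let acc := nd.acc + sumL nd.m
  match nd.ch.getD z2 0 with
  | 0 => Nat.ble (240000 * acc + dot (U.getD z2 []) v) 2632800000000
  | j + 1 => match nxt[j]? with
    | none => false
    | some x => Nat.ble acc x.acc && okL z2 x.z posL v x.m

def chkNode (U : List (List ℕ)) (nxt : List Nd) (nd : Nd) : Bool :=
  Nat.beq nd.m.length 16 && (chkChild U nxt nd 0 && (chkChild U nxt nd 1 && (chkChild U nxt nd 2 &&
    (chkChild U nxt nd 3 && (chkChild U nxt nd 4 && chkChild U nxt nd 5)))))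

def chkLevel (U : List (List ℕ)) (L nxt : List Nd) : Bool := L.all (chkNode U nxt)

theorem length16 {m : List ℕ} (h : m.length = 16) : ∃ m0 m1 m2 m3 m4 m5 m6 m7 m8 m9 m10 m11 m12 m13
    m14 m15, m = [m0, m1, m2, m3, m4, m5, m6, m7, m8, m9, m10, m11, m12, m13, m14, m15] := by
  refine ⟨m[0], m[1], m[2], m[3], m[4], m[5], m[6], m[7], m[8], m[9], m[10], m[11], m[12], m[13],
    m[14], m[15], ?_⟩
  apply List.ext_getElem
  · simp [h]
  · intro i h1 h2
    rw [h] at h1
    interval_cases i <;> rfl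

theorem stepL_eq (z z' : ℕ) {m : List ℕ} (h : m.length = 16) (s' : Fin 16) :
    (stepL z z' m).getD s' 0 = stepF z z' (fun s => m.getD s 0) s' := by
  obtain ⟨m0, m1, m2, m3, m4, m5, m6, m7, m8, m9, m10, m11, m12, m13, m14, m15, rfl⟩ := length16 h
  unfold stepF
  rw [Fin.sum_univ_def]
  fin_cases s' <;>
    simp [stepL, kk, nx0, nx1, fc, posT, tgtT, List.finRange] <;> ring

theorem stepL_length (z z' : ℕ) {m : List ℕ} (h : m.length = 16) : (stepL z z' m).length = 16 := by
  obtain ⟨m0, m1, m2, m3, m4, m5, m6, m7, m8, m9, m10, m11, m12, m13, m14, m15, rfl⟩ := length16 h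
  rfl

theorem dot_eq : ∀ (n : ℕ) (u v : List ℕ), u.length = n → v.length = n →
    dot u v = ∑ i : Fin n, u.getD i 0 * v.getD i 0 := by
  intro n
  induction n with
  | zero =>
    intro u v hu hv
    rw [List.length_eq_zero_iff] at hu hv
    subst hu hv
    simp [dot]
  | succ n ih =>
    intro u v hu hv
    match u, v, hu, hv with
    | a :: u, b :: v, hu, hv =>
      rw [Fin.sum_univ_succ, dot, ih u v (by simpa using hu) (by simpa using hv)]
      simp

theorem sumL_eq : ∀ (n : ℕ) (u : List ℕ), u.length = n → sumL u = ∑ i : Fin n, u.getD i 0 := by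
  intro n
  induction n with
  | zero =>
    intro u hu
    rw [List.length_eq_zero_iff] at hu
    subst hu
    simp [sumL]
  | succ n ih =>
    intro u hu
    match u, hu with
    | a :: u, hu =>
      rw [Fin.sum_univ_succ, sumL, ih u (by simpa using hu)]
      simp

theorem okL_sound (z z' : ℕ) : ∀ (ps v m : List ℕ), okL z z' ps v m = true → ∀ i : ℕ,
    v.getD i 0 ≤ 24 * m.getD i 0 ∧
      (v.getD i 0 ≠ 0 → (ps.getD i 0 ≤ z ↔ ps.getD i 0 ≤ z')) := by
  intro ps
  induction ps with
  | nil =>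
    intro v m h i
    match v, m, h with
    | [], [], _ => simp
  | cons p ps ih =>
    intro v m h i
    match v, m, h with
    | a :: v, b :: m, h =>
      simp only [okL, Bool.and_eq_true, Bool.or_eq_true] at h
      obtain ⟨h1, h2, h3⟩ := h
      cases i with
      | zero =>
        simp only [List.getD_cons_zero]
        refine ⟨Nat.le_of_ble_eq_true h1, fun ha => ?_⟩
        rcases h2 with h2 | h2
        · exact absurd (Nat.eq_of_beq_eq_true h2) ha
        · have h4 : Nat.ble p z = Nat.ble p z' := by simpa using h2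
          rw [← Nat.ble_eq, ← Nat.ble_eq, h4]
      | succ i =>
        simp only [List.getD_cons_succ]
        exact ih v m h3 i

variable {M : ℕ → Fin 16 → ℝ≥0∞} {z : ℕ → ℕ}

/-- The total mass at the time `n`. -/
noncomputable def tot (M : ℕ → Fin 16 → ℝ≥0∞) (n : ℕ) : ℝ≥0∞ := ∑ s, M n s

/-- The node `nd` dominates the situation at the time `n`. -/
structure Inv (M : ℕ → Fin 16 → ℝ≥0∞) (z : ℕ → ℕ) (nd : Nd) (n : ℕ) : Prop where
  mass : ∀ s : Fin 16, 1000000 * M n s ≤ (nd.m.getD s 0 : ℕ)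
  cls : ∀ s, M n s ≠ 0 → (posT s ≤ z n ↔ posT s ≤ nd.z)
  acc : 1000000 * ∑ k ∈ Finset.range n, tot M k ≤ (nd.acc : ℕ)

/-- The desired conclusion. -/
def Done (M : ℕ → Fin 16 → ℝ≥0∞) : Prop :=
  ∀ N : ℕ, 240000000000 * ∑ k ∈ Finset.range N, tot M k ≤ (2632800000000 : ℕ)

theorem kk_sum (u : Fin 16 → ℕ) (s : Fin 16) : ∑ s', kk s s' * u s' = 11 * u (nx0 s) + u (nx1 s) := by
  unfold kk
  simp only [add_mul, Finset.sum_add_distrib, ite_mul, zero_mul, one_mul, Finset.sum_ite_eq,
    Finset.mem_univ, if_true]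

/-- The potential `U` bounds the remaining sum. -/
theorem potential (U : ℕ → Fin 16 → ℕ)
    (hU : ∀ z z' : ℕ, z ≤ 5 → z' ≤ 5 → ∀ s,
      240000 + fc s z z' * (11 * U z' (nx0 s) + U z' (nx1 s)) ≤ 24 * U z s)
    (hz : ∀ n, z n ≤ 5)
    (hM : ∀ n s', 24 * M (n + 1) s' ≤ ∑ s, (kk s s' * fc s (z n) (z (n + 1)) : ℕ) * M n s) :
    ∀ (N n : ℕ), 10000 * ∑ k ∈ Finset.range N, tot M (n + k) ≤ ∑ s, (U (z n) s : ℕ) * M n s := by
  intro N
  induction N with
  | zero => intro n; simp
  | succ N ih =>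
    intro n
    rw [Finset.sum_range_succ']
    have h1 := ih (n + 1)
    have h2 : ∑ k ∈ Finset.range N, tot M (n + (k + 1)) =
        ∑ k ∈ Finset.range N, tot M (n + 1 + k) :=
      Finset.sum_congr rfl fun k _ => by rw [show n + (k + 1) = n + 1 + k by ring]
    rw [h2, add_zero]
    have h3 : 24 * (10000 * (∑ k ∈ Finset.range N, tot M (n + 1 + k) + tot M n)) ≤
        24 * ∑ s, (U (z n) s : ℕ) * M n s := by
      calc 24 * (10000 * (∑ k ∈ Finset.range N, tot M (n + 1 + k) + tot M n))
          = 24 * (10000 * ∑ k ∈ Finset.range N, tot M (n + 1 + k)) + 240000 * tot M n := by ring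
        _ ≤ 24 * (∑ s', (U (z (n + 1)) s' : ℕ) * M (n + 1) s') + 240000 * tot M n := by gcongr
        _ = ∑ s', (U (z (n + 1)) s' : ℕ) * (24 * M (n + 1) s') + 240000 * tot M n := by
          rw [Finset.mul_sum]
          congr 1
          refine Finset.sum_congr rfl fun s _ => ?_
          ring
        _ ≤ ∑ s', (U (z (n + 1)) s' : ℕ) *
              (∑ s, (kk s s' * fc s (z n) (z (n + 1)) : ℕ) * M n s) + 240000 * tot M n := by
          gcongr with s' _
          exact hM n s'
        _ = ∑ s, ((240000 + fc s (z n) (z (n + 1)) *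
              (11 * U (z (n + 1)) (nx0 s) + U (z (n + 1)) (nx1 s)) : ℕ) : ℝ≥0∞) * M n s := by
          have e1 : ∑ s', (U (z (n + 1)) s' : ℝ≥0∞) *
              (∑ s, ((kk s s' * fc s (z n) (z (n + 1)) : ℕ) : ℝ≥0∞) * M n s) =
              ∑ s, ((fc s (z n) (z (n + 1)) * (11 * U (z (n + 1)) (nx0 s) +
                U (z (n + 1)) (nx1 s)) : ℕ) : ℝ≥0∞) * M n s := by
            simp only [Finset.mul_sum]
            rw [Finset.sum_comm]
            refine Finset.sum_congr rfl fun s _ => ?_
            rw [← kk_sum (U (z (n + 1))) s, Finset.mul_sum]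
            push_cast
            rw [Finset.sum_mul]
            refine Finset.sum_congr rfl fun s' _ => ?_
            ring
          rw [e1, tot, Finset.mul_sum, ← Finset.sum_add_distrib]
          refine Finset.sum_congr rfl fun s _ => ?_
          push_cast
          ring
        _ ≤ ∑ s, ((24 * U (z n) s : ℕ) : ℝ≥0∞) * M n s := by
          gcongr with s _
          exact hU (z n) (z (n + 1)) (hz n) (hz (n + 1)) s
        _ = 24 * ∑ s, (U (z n) s : ℕ) * M n s := by
          rw [Finset.mul_sum]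
          refine Finset.sum_congr rfl fun s _ => ?_
          push_cast
          ring
    exact (ENNReal.mul_le_mul_iff_right (by norm_num) (by norm_num)).1 h3

theorem posL_eq (s : Fin 16) : posL.getD s 0 = posT s := by
  fin_cases s <;> rfl

theorem child_sound (U : List (List ℕ)) (hUlen : ∀ z ≤ 5, (U.getD z []).length = 16)
    (hU : ∀ z z' : ℕ, z ≤ 5 → z' ≤ 5 → ∀ s : Fin 16,
      240000 + fc s z z' * (11 * (U.getD z' []).getD (nx0 s) 0 + (U.getD z' []).getD (nx1 s) 0) ≤
        24 * (U.getD z []).getD s 0)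
    (hz : ∀ n, z n ≤ 5)
    (hM : ∀ n s', 24 * M (n + 1) s' ≤ ∑ s, (kk s s' * fc s (z n) (z (n + 1)) : ℕ) * M n s)
    (nxt : List Nd) (nd : Nd) (n : ℕ) (hlen : nd.m.length = 16) (hI : Inv M z nd n)
    (h : chkChild U nxt nd (z (n + 1)) = true) :
    (∃ x ∈ nxt, Inv M z x (n + 1)) ∨ Done M := by
  -- the masses at the time `n + 1`
  have hmass : ∀ s' : Fin 16, 24 * (1000000 * M (n + 1) s') ≤
      ((stepL nd.z (z (n + 1)) nd.m).getD s' 0 : ℕ) := by
    intro s'
    rw [stepL_eq _ _ hlen, stepF]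
    calc 24 * (1000000 * M (n + 1) s') = 1000000 * (24 * M (n + 1) s') := by ring
      _ ≤ 1000000 * ∑ s, (kk s s' * fc s (z n) (z (n + 1)) : ℕ) * M n s := by
        gcongr; exact hM n s'
      _ = ∑ s, ((kk s s' * fc s (z n) (z (n + 1)) : ℕ) : ℝ≥0∞) * (1000000 * M n s) := by
        rw [Finset.mul_sum]
        refine Finset.sum_congr rfl fun s _ => ?_
        ring
      _ ≤ ∑ s, ((kk s s' * fc s nd.z (z (n + 1)) : ℕ) : ℝ≥0∞) * (nd.m.getD s 0 : ℕ) := by
        refine Finset.sum_le_sum fun s _ => ?_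
        by_cases h0 : M n s = 0
        · rw [h0]; simp
        · have h1 := hI.cls s h0
          have h2 : fc s (z n) (z (n + 1)) = fc s nd.z (z (n + 1)) := by
            unfold fc f2
            have h3 : Nat.ble (posT s) (z n) = Nat.ble (posT s) nd.z := by
              rw [Bool.eq_iff_iff, Nat.ble_eq, Nat.ble_eq]; exact h1
            rw [h3]
          rw [h2]
          gcongr
          exact hI.mass s
      _ = _ := by push_cast; rfl
  have hacc : 1000000 * ∑ k ∈ Finset.range (n + 1), tot M k ≤ ((nd.acc + sumL nd.m : ℕ) : ℝ≥0∞) := by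
    rw [Finset.sum_range_succ, mul_add, Nat.cast_add]
    refine add_le_add hI.acc ?_
    rw [sumL_eq 16 nd.m hlen, tot, Finset.mul_sum]
    push_cast
    exact Finset.sum_le_sum fun s _ => hI.mass s
  unfold chkChild at h
  split at h
  · -- terminal
    right
    have h1 := Nat.le_of_ble_eq_true h
    have key : ∀ N : ℕ, 240000000000 * ∑ k ∈ Finset.range (n + 1 + N), tot M k ≤
        (2632800000000 : ℕ) := by
      intro N
      rw [Finset.sum_range_add]
      have h2 := potential (fun z s => (U.getD z []).getD s 0) hU hz hM N (n + 1)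
      calc 240000000000 * (∑ k ∈ Finset.range (n + 1), tot M k +
            ∑ k ∈ Finset.range N, tot M (n + 1 + k))
          = 240000 * (1000000 * ∑ k ∈ Finset.range (n + 1), tot M k) +
            24000000 * (10000 * ∑ k ∈ Finset.range N, tot M (n + 1 + k)) := by ring
        _ ≤ 240000 * ((nd.acc + sumL nd.m : ℕ) : ℝ≥0∞) + 24000000 *
            ∑ s : Fin 16, (((U.getD (z (n + 1)) []).getD s 0 : ℕ) : ℝ≥0∞) * M (n + 1) s := by
          gcongr
        _ = 240000 * ((nd.acc + sumL nd.m : ℕ) : ℝ≥0∞) +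
            ∑ s : Fin 16, (((U.getD (z (n + 1)) []).getD s 0 : ℕ) : ℝ≥0∞) *
              (24 * (1000000 * M (n + 1) s)) := by
          congr 1
          rw [Finset.mul_sum]
          refine Finset.sum_congr rfl fun s _ => ?_
          ring
        _ ≤ 240000 * ((nd.acc + sumL nd.m : ℕ) : ℝ≥0∞) +
            ∑ s : Fin 16, (((U.getD (z (n + 1)) []).getD s 0 : ℕ) : ℝ≥0∞) *
              ((stepL nd.z (z (n + 1)) nd.m).getD s 0 : ℕ) := by
          gcongr with s _
          exact hmass s
        _ = ((240000 * (nd.acc + sumL nd.m) +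
            dot (U.getD (z (n + 1)) []) (stepL nd.z (z (n + 1)) nd.m) : ℕ) : ℝ≥0∞) := by
          rw [dot_eq 16 _ _ (hUlen _ (hz _)) (stepL_length _ _ hlen)]
          push_cast
          rfl
        _ ≤ (2632800000000 : ℕ) := by exact_mod_cast h1
    intro N
    refine le_trans ?_ (key N)
    gcongr
    omega
  · -- dominated
    rename_i j hj
    split at h
    · exact absurd h (by simp)
    · rename_i x hx
      left
      refine ⟨x, List.mem_of_getElem? hx, ?_⟩
      rw [Bool.and_eq_true] at h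
      have h1 := Nat.le_of_ble_eq_true h.1
      have h2 := okL_sound _ _ _ _ _ h.2
      refine ⟨fun s => ?_, fun s hs => ?_, ?_⟩
      · have h3 : 24 * (1000000 * M (n + 1) s) ≤ 24 * ((x.m.getD s 0 : ℕ) : ℝ≥0∞) := by
          refine (hmass s).trans ?_
          have := (h2 s).1
          exact_mod_cast this
        exact (ENNReal.mul_le_mul_iff_right (by norm_num) (by norm_num)).1 h3
      · have h3 : (stepL nd.z (z (n + 1)) nd.m).getD s 0 ≠ 0 := by
          intro h0
          have h4 := hmass s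
          rw [h0, Nat.cast_zero, nonpos_iff_eq_zero] at h4
          apply hs
          simpa using h4
        have h5 := (h2 s).2 h3
        rwa [posL_eq] at h5
      · exact hacc.trans (by exact_mod_cast h1)

theorem level_sound (U : List (List ℕ)) (hUlen : ∀ z ≤ 5, (U.getD z []).length = 16)
    (hU : ∀ z z' : ℕ, z ≤ 5 → z' ≤ 5 → ∀ s : Fin 16,
      240000 + fc s z z' * (11 * (U.getD z' []).getD (nx0 s) 0 + (U.getD z' []).getD (nx1 s) 0) ≤
        24 * (U.getD z []).getD s 0)
    (hz : ∀ n, z n ≤ 5)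
    (hM : ∀ n s', 24 * M (n + 1) s' ≤ ∑ s, (kk s s' * fc s (z n) (z (n + 1)) : ℕ) * M n s)
    (L nxt : List Nd) (n : ℕ) (hc : chkLevel U L nxt = true)
    (h : (∃ x ∈ L, Inv M z x n) ∨ Done M) :
    (∃ x ∈ nxt, Inv M z x (n + 1)) ∨ Done M := by
  rcases h with ⟨nd, hnd, hI⟩ | h
  · unfold chkLevel at hc
    rw [List.all_eq_true] at hc
    have h1 := hc nd hnd
    unfold chkNode at h1
    simp only [Bool.and_eq_true] at h1
    obtain ⟨hl, c0, c1, c2, c3, c4, c5⟩ := h1
    have hlen : nd.m.length = 16 := Nat.eq_of_beq_eq_true hl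
    have hz5 := hz (n + 1)
    refine child_sound U hUlen hU hz hM nxt nd n hlen hI ?_
    generalize z (n + 1) = y at hz5
    interval_cases y
    · exact c0
    · exact c1
    · exact c2
    · exact c3
    · exact c4
    · exact c5
  · exact Or.inr h

end Pool.Agent.W972.SG
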