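import Pool.Agent.Helper569.NetMetric

/-!
# Search games on networks with a mobile hider: definitions

Networks are those of `Pool.Agent.Helper569.NetDefs`: `Network`, and `N.Q` is the metric space of
the points of `N` with the shortest-path distance.
-/

namespace Pool.Agent.W972.SG

open MeasureTheory Set Filter Topology
open scoped ENNReal NNReal
open Pool.Agent.Helper569.Net

/-- The total length `μ(N)` of the arcs. -/
noncomputable def totalLength (N : Network) : ℝ := ∑ e, N.len e

/-- The pure strategies of the searcher: the paths `S : [0,∞) → Q` with `S 0 = O` and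
`d (S t₁) (S t₂) ≤ |t₁ - t₂|` (these are the elements of `Traj N O`) such that the set of the times
`t ≥ 0` at which `S t` is a node has Lebesgue measure zero (non-loitering assumption). -/
def SPath (N : Network) (O : N.Q) : Type :=
  {S : Traj N O // volume {t : ℝ | 0 ≤ t ∧ S.1 t.toNNReal ∈ range N.node} = 0}

/-- The pure strategies of the hider: the paths `H : [0,∞) → Q` with
`d (H t₁) (H t₂) ≤ w |t₁ - t₂|`, the point `H 0` being arbitrary. -/
def HPath (N : Network) (w : ℝ≥0) : Type := {H : ℝ≥0 → N.Q // LipschitzWith w H}

variable {N : Network} {O : N.Q} {w : ℝ≥0}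

/-- The position of the searcher at the time `t`. -/
def SPath.pos (S : SPath N O) (t : ℝ≥0) : N.Q := S.1.1 t

/-- The position of the hider at the time `t`. -/
def HPath.pos (H : HPath N w) (t : ℝ≥0) : N.Q := H.1 t

/-- The topology of pointwise convergence on the pure strategies of the searcher. -/
noncomputable instance (N : Network) (O : N.Q) : TopologicalSpace (SPath N O) :=
  TopologicalSpace.induced SPath.pos inferInstance

/-- The topology of pointwise convergence on the pure strategies of the hider. -/
noncomputable instance (N : Network) (w : ℝ≥0) : TopologicalSpace (HPath N w) :=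
  TopologicalSpace.induced HPath.pos inferInstance

/-- The Borel `σ`-algebra. -/
noncomputable instance (N : Network) (O : N.Q) : MeasurableSpace (SPath N O) := borel _

instance (N : Network) (O : N.Q) : BorelSpace (SPath N O) := ⟨rfl⟩

/-- The Borel `σ`-algebra. -/
noncomputable instance (N : Network) (w : ℝ≥0) : MeasurableSpace (HPath N w) := borel _

instance (N : Network) (w : ℝ≥0) : BorelSpace (HPath N w) := ⟨rfl⟩

/-- The capture time `T = inf {t ≥ 0 : S t = H t}`, which is `∞` if the players never meet. -/
noncomputable def captureTime (S : SPath N O) (H : HPath N w) : ℝ≥0∞ :=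
  ⨅ (t : ℝ≥0) (_ : S.pos t = H.pos t), (t : ℝ≥0∞)

/-- The minimax value: the infimum over the mixed strategies `s` of the searcher of the supremum
over the pure strategies `H` of the hider of the expected capture time. -/
noncomputable def upperValue (N : Network) (O : N.Q) (w : ℝ≥0) : ℝ≥0∞ :=
  ⨅ s : ProbabilityMeasure (SPath N O), ⨆ H : HPath N w,
    ∫⁻ S, captureTime S H ∂(s : Measure (SPath N O))

/-- The maximin value: the supremum over the mixed strategies `h` of the hider of the infimum
over the pure strategies `S` of the searcher of the expected capture time. -/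
noncomputable def lowerValue (N : Network) (O : N.Q) (w : ℝ≥0) : ℝ≥0∞ :=
  ⨆ h : ProbabilityMeasure (HPath N w), ⨅ S : SPath N O,
    ∫⁻ H, captureTime S H ∂(h : Measure (HPath N w))

/-- The spectacles network `S_δ`: two nodes `0, 1`, a loop of length `1` at each of the two nodes
(the arcs `0, 1`) and an arc of length `δ` from the node `0` to the node `1` (the arc `2`). -/
def spectacles (δ : ℝ) (hδ : 0 < δ) : Network where
  V := Fin 2
  E := Fin 3
  src := ![0, 1, 0]
  tgt := ![0, 1, 1]
  len := ![1, 1, δ]
  len_pos := by
    intro e
    fin_cases e
    · exact one_pos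
    · exact one_pos
    · exact hδ
  connected := by
    have h01 : Relation.EqvGen (fun a b : Fin 2 => ∃ e : Fin 3, (![0, 1, 0] : Fin 3 → Fin 2) e = a ∧
        (![0, 1, 1] : Fin 3 → Fin 2) e = b) 0 1 := Relation.EqvGen.rel _ _ ⟨2, rfl, rfl⟩
    intro u v
    fin_cases u <;> fin_cases v
    · exact Relation.EqvGen.refl _
    · exact h01
    · exact h01.symm
    · exact Relation.EqvGen.refl _

/-- The midpoint of the segment of the spectacles, the starting point of the searcher. -/
noncomputable def spectaclesMid (δ : ℝ) (hδ : 0 < δ) : (spectacles δ hδ).Q :=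
  (spectacles δ hδ).point (2 : Fin 3) ⟨δ / 2, by
    change (0 : ℝ) ≤ δ / 2 ∧ δ / 2 ≤ δ
    constructor <;> linarith⟩

end Pool.Agent.W972.SG
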