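import Pool.Agent.W972.SG.Bad

/-!
# The lower bound for the spectacles network
-/

namespace Pool.Agent.W972.SG

open MeasureTheory Set Filter Topology
open scoped ENNReal NNReal
open Pool.Agent.Helper569.Net

variable {δ : ℝ} {hδ : 0 < δ}

/-- The hider goes around in the loop `r`, the lifted position being the wave with the lead `ε`. -/
noncomputable def hid (δ : ℝ) (hδ : 0 < δ) (a : ℝ) {w : ℝ≥0} (hw : 1 ≤ w) (ε : ℝ)
    (f : Bool × (Fin 10 → Bool × Bool)) : HPath (spectacles δ hδ) w :=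
  ⟨fun t => gam δ hδ f.1 (wave a 10 f.2 ((t : ℝ) + ε)), by
    have h1 : LipschitzWith 1 (fun t : ℝ≥0 => (t : ℝ) + ε) := by
      refine LipschitzWith.of_dist_le_mul fun x y => ?_
      rw [NNReal.coe_one, one_mul, Real.dist_eq, NNReal.dist_eq]
      rw [add_sub_add_right_eq_sub]
    have h2 := (gam_lip (hδ := hδ) f.1).comp ((wave_lip a 10 f.2).comp h1)
    rw [mul_one, mul_one] at h2
    exact h2.weaken hw⟩

theorem hid_pos (a : ℝ) {w : ℝ≥0} (hw : 1 ≤ w) (ε : ℝ) (f : Bool × (Fin 10 → Bool × Bool))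
    (t : ℝ≥0) : (hid δ hδ a hw ε f).pos t = gam δ hδ f.1 (wave a 10 f.2 ((t : ℝ) + ε)) := rfl

theorem captureTime_hid {a : ℝ} (ha : 0 < a) (ha' : a < 1 / 8) {w : ℝ≥0} (hw : 1 ≤ w) {ε : ℝ}
    (hε : 0 ≤ ε) (f : Bool × (Fin 10 → Bool × Bool))
    (S : SPath (spectacles δ hδ) (spectaclesMid δ hδ)) :
    ENNReal.ofReal ((1 / 2 - a) * (cnt a 10 f.2 (fun s => phi S f.1 (s - ε))
      (fun s => psi S f.1 (s - ε)) : ℝ)) ≤
      captureTime S (hid δ hδ a hw ε f) + ENNReal.ofReal ε := by
  have key : ∀ t : ℝ≥0, S.pos t = (hid δ hδ a hw ε f).pos t →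
      ENNReal.ofReal ((1 / 2 - a) * (cnt a 10 f.2 (fun s => phi S f.1 (s - ε))
      (fun s => psi S f.1 (s - ε)) : ℝ)) ≤ (t : ℝ≥0∞) + ENNReal.ofReal ε := by
    intro t ht
    have h1 := time_bound ha ha' 10 f.2 (fun s => phi S f.1 (s - ε)) (fun s => psi S f.1 (s - ε))
      ((t : ℝ) + ε) (by positivity) (by
        simp only [phi, add_sub_cancel_right, Real.toNNReal_coe]
        rw [ht, hid_pos, gam_GP]) (by
        simp only [psi, add_sub_cancel_right, Real.toNNReal_coe]
        rw [ht, hid_pos, gam_LP])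
    have h2 : (t : ℝ≥0∞) + ENNReal.ofReal ε = ENNReal.ofReal ((t : ℝ) + ε) := by
      rw [ENNReal.ofReal_add (by positivity) hε, ENNReal.ofReal_coe_nnreal]
    rw [h2]
    exact ENNReal.ofReal_le_ofReal h1
  unfold captureTime
  rw [ENNReal.iInf_add]
  refine le_iInf fun t => ?_
  rw [ENNReal.iInf_add]
  exact le_iInf fun ht => key t ht

open Classical in
/-- The status of the searcher. -/
noncomputable def stat (S : SPath (spectacles δ hδ) (spectaclesMid δ hδ)) (ε : ℝ) (k : ℕ) : Fin 3 :=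
  if 0 < phi S false (k - ε) then 1 else if 0 < phi S true (k - ε) then 2 else 0

theorem stat_iff (S : SPath (spectacles δ hδ) (spectaclesMid δ hδ)) (ε : ℝ) (k : ℕ) (r : Bool) :
    stat S ε k = stOf r ↔ 0 < phi S r (k - ε) := by
  unfold stat
  cases r
  · unfold stOf
    split_ifs with h1 h2 <;> simp_all
  · unfold stOf
    by_cases h2 : 0 < phi S true (k - ε)
    · have h3 : ¬ 0 < phi S false (k - ε) := not_lt.2 (GP_disj true _ h2).le
      rw [if_neg h3, if_pos h2]
      simp [h2]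
    · rw [if_neg h2]
      split_ifs <;> simp_all

theorem stat_zero (S : SPath (spectacles δ hδ) (spectaclesMid δ hδ)) {ε : ℝ} (hε : 0 ≤ ε) :
    stat S ε 0 = 0 := by
  unfold stat
  rw [if_neg, if_neg]
  · rw [Nat.cast_zero]
    exact not_lt.2 (phi_of_nonpos S true (by linarith)).le
  · rw [Nat.cast_zero]
    exact not_lt.2 (phi_of_nonpos S false (by linarith)).le

theorem total_cnt {a η : ℝ} (ha : 0 < a) (ha' : a < 1 / 8)
    (S : SPath (spectacles δ hδ) (spectaclesMid δ hδ)) {ε : ℝ} (hε : 0 ≤ ε) (hε' : ε ≤ η)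
    (hbad : ε ∉ Bad S a η) :
    7682048 ≤ ∑ f : Bool × (Fin 10 → Bool × Bool), cnt a 10 f.2 (fun s => phi S f.1 (s - ε))
      (fun s => psi S f.1 (s - ε)) := by
  rw [Fintype.sum_prod_type, Fintype.sum_bool]
  simp only
  rw [sum_cnt, sum_cnt, add_comm]
  have hb : ∀ (k : ℕ), k < 11 → ∀ r : Bool, phi S r (k - ε) ≠ 0 ∧
      ¬ EvE a (fun s => phi S r (s + k - ε)) ∧ ¬ EvF a (fun s => phi S r (s + k - ε)) ∧
      ¬ EvP a (fun s => phi S r (s + k - ε)) := by
    intro k hk r
    unfold Bad at hbad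
    rw [mem_iUnion] at hbad
    push Not at hbad
    have h1 := hbad (⟨k, hk⟩, r)
    simp only [mem_union, mem_ofPred_eq, not_or, not_and] at h1
    exact ⟨h1.1, h1.2.1 hε hε', h1.2.2.1 hε hε', h1.2.2.2 hε hε'⟩
  have hgood : ∀ (k : ℕ) (r : Bool), Good (fun s => phi S r (s + k - ε))
      (fun s => psi S r (s + k - ε)) := by
    intro k r
    have := good_phi S r (k - ε)
    simpa only [add_sub_assoc] using this
  have h0 : ∀ (k : ℕ) (r : Bool), phi S r (0 + k - ε) = phi S r (k - ε) := by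
    intro k r; rw [zero_add]
  have h1 : ∀ (k : ℕ) (r : Bool), phi S r (1 + k - ε) = phi S r ((k + 1 : ℕ) - ε) := by
    intro k r; push_cast; rw [add_comm (1 : ℝ)]
  refine NN_ten (stat S ε) (fun r k => (WS a (fun s => phi S r (s + k - ε))
    (fun s => psi S r (s + k - ε))).card) (fun r k => (VS a (fun s => phi S r (s + k - ε))
    (fun s => psi S r (s + k - ε))).card) (stat_zero S hε) ?_ ?_
  · intro r k hk
    have hk1 := hb k (by omega) r
    have hne : (fun s => phi S r (s + k - ε)) 0 ≠ 0 := by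
      simp only [h0]; exact hk1.1
    unfold eLo
    split_ifs with h2
    · exact WS_two ha (hgood k r) hne
    · rw [stat_iff] at h2
      have h3 : (fun s => phi S r (s + k - ε)) 0 < 0 := by
        simp only [h0]
        exact lt_of_le_of_ne (not_lt.1 h2) hk1.1
      exact WS_four ha (hgood k r) h3
  · intro r k hk
    have hk1 := hb k (by omega) r
    have hk2 := hb (k + 1) (by omega) r
    have hne : (fun s => phi S r (s + k - ε)) 0 ≠ 0 := by
      simp only [h0]; exact hk1.1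
    have hne1 : (fun s => phi S r (s + k - ε)) 1 ≠ 0 := by
      simp only [h1]; exact hk2.1
    unfold vLo
    split_ifs with h2 h3 h3
    · exact VS_in_in ha ha' (hgood k r) hne hne1 hk1.2.1 hk1.2.2.1 hk1.2.2.2
    · rw [stat_iff] at h3
      have h4 : (fun s => phi S r (s + k - ε)) 1 < 0 := by
        simp only [h1]
        exact lt_of_le_of_ne (not_lt.1 h3) hk2.1
      exact VS_in_out ha ha' (hgood k r) hne h4 hk1.2.2.1
    · rw [stat_iff] at h2
      have h4 : (fun s => phi S r (s + k - ε)) 0 < 0 := by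
        simp only [h0]
        exact lt_of_le_of_ne (not_lt.1 h2) hk1.1
      exact VS_out_in ha ha' (hgood k r) h4 hne1 hk1.2.1
    · rw [stat_iff] at h2 h3
      have h4 : (fun s => phi S r (s + k - ε)) 0 < 0 := by
        simp only [h0]
        exact lt_of_le_of_ne (not_lt.1 h2) hk1.1
      have h5 : (fun s => phi S r (s + k - ε)) 1 < 0 := by
        simp only [h1]
        exact lt_of_le_of_ne (not_lt.1 h3) hk2.1
      exact VS_out_out ha ha' (hgood k r) h4 h5 hk1.2.1

/-- The uniform probability measure on the rooms and the options. -/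
noncomputable def unif : Measure (Bool × (Fin 10 → Bool × Bool)) :=
  (2097152 : ℝ≥0∞)⁻¹ • Measure.count

theorem card_F : Fintype.card (Bool × (Fin 10 → Bool × Bool)) = 2097152 := by
  rw [Fintype.card_prod, Fintype.card_bool, Fintype.card_fun]
  norm_num [Fintype.card_prod, Fintype.card_bool, Fintype.card_fin]

instance : IsProbabilityMeasure unif := by
  constructor
  unfold unif
  rw [Measure.smul_apply, Measure.count_apply MeasurableSet.univ, smul_eq_mul]
  have : (univ : Set (Bool × (Fin 10 → Bool × Bool))).encard = 2097152 := by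
    rw [Set.encard_univ, ENat.card_eq_coe_fintype_card, card_F]
    rfl
  rw [this]
  change (2097152 : ℝ≥0∞)⁻¹ * ((2097152 : ℕ∞) : ℝ≥0∞) = 1
  rw [show ((2097152 : ℕ∞) : ℝ≥0∞) = (2097152 : ℝ≥0∞) by norm_cast]
  exact ENNReal.inv_mul_cancel (by norm_num) (by norm_num)

theorem lintegral_unif (f : Bool × (Fin 10 → Bool × Bool) → ℝ≥0∞) :
    ∫⁻ x, f x ∂unif = (2097152 : ℝ≥0∞)⁻¹ * ∑ x, f x := by
  unfold unif
  rw [lintegral_smul_measure, lintegral_count, tsum_fintype, smul_eq_mul]

theorem inner_bound {a η : ℝ} (ha : 0 < a) (ha' : a < 1 / 8) {w : ℝ≥0} (hw : 1 ≤ w)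
    (S : SPath (spectacles δ hδ) (spectaclesMid δ hδ)) {ε : ℝ} (hε : 0 ≤ ε) (hε' : ε ≤ η)
    (hbad : ε ∉ Bad S a η) :
    ENNReal.ofReal ((1 / 2 - a) * (7682048 / 2097152)) ≤
      ∫⁻ f, captureTime S (hid δ hδ a hw ε f) ∂unif + ENNReal.ofReal η := by
  have h1 : ∑ f : Bool × (Fin 10 → Bool × Bool), ENNReal.ofReal ((1 / 2 - a) *
      (cnt a 10 f.2 (fun s => phi S f.1 (s - ε)) (fun s => psi S f.1 (s - ε)) : ℝ)) ≤
      ∑ f : Bool × (Fin 10 → Bool × Bool), (captureTime S (hid δ hδ a hw ε f) +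
        ENNReal.ofReal η) := by
    refine Finset.sum_le_sum fun f _ => ?_
    refine (captureTime_hid ha ha' hw hε f S).trans ?_
    gcongr
  rw [← ENNReal.ofReal_sum_of_nonneg (fun f _ => by
    have : (0 : ℝ) ≤ 1 / 2 - a := by linarith
    positivity), ← Finset.mul_sum, Finset.sum_add_distrib, Finset.sum_const, Finset.card_univ,
    card_F] at h1
  have h2 : ENNReal.ofReal ((1 / 2 - a) * 7682048) ≤
      ∑ f : Bool × (Fin 10 → Bool × Bool), captureTime S (hid δ hδ a hw ε f) +
        2097152 • ENNReal.ofReal η := by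
    refine le_trans ?_ h1
    refine ENNReal.ofReal_le_ofReal ?_
    have h3 : (0 : ℝ) ≤ 1 / 2 - a := by linarith
    refine mul_le_mul_of_nonneg_left ?_ h3
    have := total_cnt ha ha' S hε hε' hbad
    exact_mod_cast this
  rw [lintegral_unif]
  have h3 : ENNReal.ofReal ((1 / 2 - a) * (7682048 / 2097152)) =
      (2097152 : ℝ≥0∞)⁻¹ * ENNReal.ofReal ((1 / 2 - a) * 7682048) := by
    have : (2097152 : ℝ≥0∞)⁻¹ = ENNReal.ofReal (2097152⁻¹) := by
      rw [ENNReal.ofReal_inv_of_pos (by norm_num)]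
      norm_num
    rw [this, ← ENNReal.ofReal_mul (by norm_num)]
    congr 1
    ring
  rw [h3]
  refine (mul_le_mul_right h2 _).trans (le_of_eq ?_)
  rw [mul_add]
  congr 1
  rw [nsmul_eq_mul, ← mul_assoc]
  push_cast
  rw [ENNReal.inv_mul_cancel (by norm_num) (by norm_num), one_mul]

theorem continuous_hid (a : ℝ) {w : ℝ≥0} (hw : 1 ≤ w) :
    Continuous (fun p : ℝ × (Bool × (Fin 10 → Bool × Bool)) => hid δ hδ a hw p.1 p.2) := by
  rw [continuous_prod_of_discrete_right]
  intro f
  refine continuous_induced_rng.2 ?_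
  refine continuous_pi fun t => ?_
  change Continuous fun ε : ℝ => gam δ hδ f.1 (wave a 10 f.2 ((t : ℝ) + ε))
  exact (gam_lip f.1).continuous.comp ((wave_lip a 10 f.2).continuous.comp
    (continuous_const.add continuous_id))

/-- The distribution of the lead. -/
noncomputable def lead (η : ℝ) : Measure ℝ := (ENNReal.ofReal η)⁻¹ • volume.restrict (Icc 0 η)

theorem lead_univ {η : ℝ} (hη : 0 < η) : lead η univ = 1 := by
  unfold lead
  rw [Measure.smul_apply, Measure.restrict_apply MeasurableSet.univ, univ_inter, Real.volume_Icc,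
    sub_zero, smul_eq_mul]
  exact ENNReal.inv_mul_cancel (by simpa using hη) ENNReal.ofReal_ne_top

theorem lead_bad {η a : ℝ} (ha : 0 < a) (ha' : a < 1 / 8) (hη : 0 < η) (hη' : η ≤ 1 / 4)
    (S : SPath (spectacles δ hδ) (spectaclesMid δ hδ)) :
    lead η (Bad S a η ∪ (Icc 0 η)ᶜ) ≤ ENNReal.ofReal (176 * a / η) := by
  refine (measure_union_le _ _).trans ?_
  have h1 : lead η (Icc 0 η)ᶜ = 0 := by
    unfold lead
    rw [Measure.smul_apply, Measure.restrict_apply measurableSet_Icc.compl, compl_inter_self,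
      measure_empty, smul_zero]
  rw [h1, add_zero]
  unfold lead
  rw [Measure.smul_apply, smul_eq_mul]
  have h2 : volume.restrict (Icc 0 η) (Bad S a η) ≤ ENNReal.ofReal (176 * a) :=
    (Measure.restrict_apply_le _ _).trans (vol_Bad S ha ha' hη')
  refine (mul_le_mul_right h2 _).trans (le_of_eq ?_)
  rw [← ENNReal.ofReal_inv_of_pos hη, ← ENNReal.ofReal_mul (by positivity)]
  congr 1
  field_simp

theorem lower_aux {a η : ℝ} (ha : 0 < a) (ha' : a < 1 / 8) (hη : 0 < η) (hη' : η ≤ 1 / 4)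
    {w : ℝ≥0} (hw : 1 ≤ w) :
    ENNReal.ofReal ((1 / 2 - a) * (7682048 / 2097152)) * (1 - ENNReal.ofReal (176 * a / η)) ≤
      lowerValue (spectacles δ hδ) (spectaclesMid δ hδ) w + ENNReal.ofReal η := by
  haveI : IsProbabilityMeasure (lead η) := ⟨lead_univ hη⟩
  have hcont := continuous_hid (δ := δ) (hδ := hδ) a hw
  have hmeas := hcont.measurable
  set P : Measure (ℝ × (Bool × (Fin 10 → Bool × Bool))) := (lead η).prod unif with hP
  haveI : IsProbabilityMeasure (P.map fun p => hid δ hδ a hw p.1 p.2) :=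
    Measure.isProbabilityMeasure_map hmeas.aemeasurable
  set h : ProbabilityMeasure (HPath (spectacles δ hδ) w) :=
    ⟨P.map fun p => hid δ hδ a hw p.1 p.2, inferInstance⟩ with hh
  unfold lowerValue
  refine le_trans ?_ (add_le_add (le_iSup (fun h : ProbabilityMeasure (HPath (spectacles δ hδ) w) =>
    ⨅ S : SPath (spectacles δ hδ) (spectaclesMid δ hδ),
    ∫⁻ H, captureTime S H ∂(h : Measure (HPath (spectacles δ hδ) w))) h) le_rfl)
  rw [ENNReal.iInf_add]
  refine le_iInf fun S => ?_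
  change _ ≤ ∫⁻ H, captureTime S H ∂(P.map fun p => hid δ hδ a hw p.1 p.2) + ENNReal.ofReal η
  rw [lintegral_map (measurable_captureTime_right S) hmeas]
  have hm2 : Measurable (fun p : ℝ × (Bool × (Fin 10 → Bool × Bool)) =>
      captureTime S (hid δ hδ a hw p.1 p.2)) := (measurable_captureTime_right S).comp hmeas
  rw [hP, lintegral_prod _ hm2.aemeasurable]
  simp only
  have hm3 : Measurable (fun ε : ℝ => ∫⁻ f, captureTime S (hid δ hδ a hw ε f) ∂unif) :=
    hm2.lintegral_prod_right'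
  have h4 : ∫⁻ ε, ∫⁻ f, captureTime S (hid δ hδ a hw ε f) ∂unif ∂(lead η) + ENNReal.ofReal η =
      ∫⁻ ε, (∫⁻ f, captureTime S (hid δ hδ a hw ε f) ∂unif + ENNReal.ofReal η) ∂(lead η) := by
    rw [lintegral_add_right _ measurable_const, lintegral_const, measure_univ, mul_one]
  rw [h4]
  set B := ENNReal.ofReal ((1 / 2 - a) * (7682048 / 2097152)) with hB
  set A : Set ℝ := {ε | B ≤ ∫⁻ f, captureTime S (hid δ hδ a hw ε f) ∂unif + ENNReal.ofReal η}
    with hA
  have h5 : B * lead η A ≤ ∫⁻ ε, (∫⁻ f, captureTime S (hid δ hδ a hw ε f) ∂unif +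
      ENNReal.ofReal η) ∂(lead η) :=
    mul_meas_ge_le_lintegral (hm3.add measurable_const) B
  refine le_trans ?_ h5
  refine mul_le_mul_right ?_ _
  have h6 : Aᶜ ⊆ Bad S a η ∪ (Icc 0 η)ᶜ := by
    intro ε hε
    by_contra hcon
    rw [mem_union, not_or, notMem_compl_iff] at hcon
    exact hε (inner_bound ha ha' hw S hcon.2.1 hcon.2.2 hcon.1)
  have h7 : lead η Aᶜ ≤ ENNReal.ofReal (176 * a / η) :=
    (measure_mono h6).trans (lead_bad ha ha' hη hη' S)
  have h8 : (1 : ℝ≥0∞) ≤ lead η A + lead η Aᶜ := by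
    rw [← measure_univ (μ := lead η), ← union_compl_self A]
    exact measure_union_le _ _
  rw [tsub_le_iff_right]
  exact h8.trans (add_le_add le_rfl h7)

/-- The lower bound for the spectacles network. -/
theorem lower_bound (δ : ℝ) (hδ : 0 < δ) {w : ℝ≥0} (hw : 1 ≤ w) :
    ENNReal.ofReal 1.831 ≤ lowerValue (spectacles δ hδ) (spectaclesMid δ hδ) w := by
  have h := lower_aux (δ := δ) (hδ := hδ) (a := 1 / 1000000000000) (η := 1 / 100000)
    (by norm_num) (by norm_num) (by norm_num) (by norm_num) hw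
  have h1 : (1 : ℝ≥0∞) - ENNReal.ofReal (176 * (1 / 1000000000000) / (1 / 100000)) =
      ENNReal.ofReal (1 - 176 * (1 / 1000000000000) / (1 / 100000)) := by
    rw [ENNReal.ofReal_sub _ (by norm_num), ENNReal.ofReal_one]
  rw [h1, ← ENNReal.ofReal_mul (by norm_num)] at h
  have h2 : ENNReal.ofReal 1.831 + ENNReal.ofReal (1 / 100000) ≤
      lowerValue (spectacles δ hδ) (spectaclesMid δ hδ) w + ENNReal.ofReal (1 / 100000) := by
    refine le_trans ?_ h
    rw [← ENNReal.ofReal_add (by norm_num) (by norm_num)]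
    refine ENNReal.ofReal_le_ofReal ?_
    norm_num
  exact (ENNReal.add_le_add_iff_right ENNReal.ofReal_ne_top).1 h2

end Pool.Agent.W972.SG
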