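import Pool.Agent.W972.SG.Defs

/-!
# Measurability of the capture time and weak duality
-/

namespace Pool.Agent.W972.SG

open MeasureTheory Set Filter Topology
open scoped ENNReal NNReal
open Pool.Agent.Helper569.Net

variable {N : Network} {O : N.Q} {w : ℝ≥0}

noncomputable instance (N : Network) : MeasurableSpace N.Q := borel _

instance (N : Network) : BorelSpace N.Q := ⟨rfl⟩

instance (N : Network) : SecondCountableTopology N.Q := EMetric.secondCountable_of_sigmaCompact N.Q

theorem SPath.lip (S : SPath N O) : LipschitzWith 1 S.pos := S.1.2.2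

theorem HPath.lip (H : HPath N w) : LipschitzWith w H.pos := H.2

theorem SPath.pos_zero (S : SPath N O) : S.pos 0 = O := S.1.2.1

theorem SPath.continuous_pos (t : ℝ≥0) : Continuous (fun S : SPath N O => S.pos t) :=
  (continuous_apply t).comp continuous_induced_dom

theorem HPath.continuous_pos (t : ℝ≥0) : Continuous (fun H : HPath N w => H.pos t) :=
  (continuous_apply t).comp continuous_induced_dom

theorem captureTime_le {S : SPath N O} {H : HPath N w} {t : ℝ≥0} (h : S.pos t = H.pos t) :
    captureTime S H ≤ t := iInf₂_le t h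

theorem captureTime_attained {S : SPath N O} {H : HPath N w} (h : captureTime S H ≠ ⊤) :
    ∃ t : ℝ≥0, S.pos t = H.pos t ∧ captureTime S H = t := by
  set A : Set ℝ≥0 := {t | S.pos t = H.pos t} with hA
  have hne : A.Nonempty := by
    by_contra hne
    apply h
    rw [Set.not_nonempty_iff_eq_empty] at hne
    rw [captureTime, iInf₂_eq_top]
    intro t ht
    exact absurd (show t ∈ A from ht) (by simp [hne])
  have hcl : IsClosed A := isClosed_eq S.lip.continuous H.lip.continuous
  have hmem : sInf A ∈ A := hcl.csInf_mem hne (OrderBot.bddBelow A)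
  refine ⟨sInf A, hmem, le_antisymm (captureTime_le hmem) ?_⟩
  refine le_iInf₂ fun t ht => ?_
  exact_mod_cast csInf_le (OrderBot.bddBelow A) ht

theorem captureTime_le_iff (S : SPath N O) (H : HPath N w) (T : ℝ≥0) :
    captureTime S H ≤ T ↔ ∀ n : ℕ, ∃ q : ℚ,
      edist (S.pos (min (q : ℝ).toNNReal T)) (H.pos (min (q : ℝ).toNNReal T)) < ((n : ℝ≥0∞) + 1)⁻¹ := by
  have hf : Continuous (fun t : ℝ≥0 => edist (S.pos t) (H.pos t)) :=
    S.lip.continuous.edist H.lip.continuous
  constructor
  · intro h n
    obtain ⟨t, ht, ht'⟩ := captureTime_attained (ne_top_of_le_ne_top ENNReal.coe_ne_top h)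
    rw [ht'] at h
    have htT : t ≤ T := by exact_mod_cast h
    have hf2 : Continuous (fun t : ℝ≥0 => edist (S.pos (min t T)) (H.pos (min t T))) :=
      hf.comp (continuous_id.min continuous_const)
    have h0 : edist (S.pos (min t T)) (H.pos (min t T)) < ((n : ℝ≥0∞) + 1)⁻¹ := by
      rw [min_eq_left htT, ht, edist_self]
      simp
    have hopen : IsOpen {t : ℝ≥0 | edist (S.pos (min t T)) (H.pos (min t T)) < ((n : ℝ≥0∞) + 1)⁻¹} :=
      isOpen_Iio.preimage hf2
    have hden : DenseRange (fun q : ℚ => (q : ℝ).toNNReal) := by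
      have h1 : DenseRange Real.toNNReal :=
        Function.Surjective.denseRange fun x : ℝ≥0 => ⟨x, Real.toNNReal_coe⟩
      have h2 : DenseRange (fun q : ℚ => (q : ℝ)) := Rat.denseRange_cast
      exact h1.comp h2 continuous_real_toNNReal
    obtain ⟨q, hq⟩ := hden.exists_mem_open hopen ⟨t, h0⟩
    exact ⟨q, hq⟩
  · intro h
    obtain ⟨t, ht, htmin⟩ := (isCompact_Icc (a := (0 : ℝ≥0)) (b := T)).exists_isMinOn
      ⟨0, by simp⟩ hf.continuousOn
    have h0 : edist (S.pos t) (H.pos t) = 0 := by
      by_contra hne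
      obtain ⟨n, hn⟩ := ENNReal.exists_inv_nat_lt hne
      obtain ⟨q, hq⟩ := h n
      have h1 : edist (S.pos t) (H.pos t) ≤ edist (S.pos (min (q : ℝ).toNNReal T)) (H.pos (min (q : ℝ).toNNReal T)) :=
        htmin (by simp : min (q : ℝ).toNNReal T ∈ Icc (0 : ℝ≥0) T)
      have h2 : ((n : ℝ≥0∞) + 1)⁻¹ ≤ (n : ℝ≥0∞)⁻¹ := ENNReal.inv_le_inv.2 le_self_add
      exact absurd (h1.trans_lt (hq.trans_le (h2.trans hn.le))) (lt_irrefl _)
    exact (captureTime_le (edist_eq_zero.1 h0)).trans (by exact_mod_cast ht.2)

theorem measurable_captureTime₂ :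
    Measurable (fun p : SPath N O × HPath N w => captureTime p.1 p.2) := by
  refine measurable_of_Iic fun a => ?_
  rcases eq_or_ne a ⊤ with rfl | ha
  · simp
  · lift a to ℝ≥0 using ha
    have h1 : (fun p : SPath N O × HPath N w => captureTime p.1 p.2) ⁻¹' Iic (a : ℝ≥0∞) =
        ⋂ n : ℕ, ⋃ q : ℚ, {p : SPath N O × HPath N w |
          edist (p.1.pos (min (q : ℝ).toNNReal a)) (p.2.pos (min (q : ℝ).toNNReal a)) < ((n : ℝ≥0∞) + 1)⁻¹} := by
      ext p
      simp only [mem_preimage, mem_Iic, mem_iInter, mem_iUnion, mem_ofPred_eq]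
      exact captureTime_le_iff p.1 p.2 a
    rw [h1]
    refine MeasurableSet.iInter fun n => MeasurableSet.iUnion fun q => ?_
    refine measurableSet_lt ?_ measurable_const
    refine Measurable.edist ?_ ?_
    · exact (SPath.continuous_pos _).measurable.comp measurable_fst
    · exact (HPath.continuous_pos _).measurable.comp measurable_snd

theorem measurable_captureTime_right (S : SPath N O) :
    Measurable (fun H : HPath N w => captureTime S H) :=
  measurable_captureTime₂.of_uncurry_left (f := fun (S : SPath N O) (H : HPath N w) =>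
    captureTime S H) (x := S)

theorem measurable_captureTime_left (H : HPath N w) :
    Measurable (fun S : SPath N O => captureTime S H) :=
  measurable_captureTime₂.of_uncurry_right (f := fun (S : SPath N O) (H : HPath N w) =>
    captureTime S H) (y := H)

/-- Weak duality: the maximin value is at most the minimax value. -/
theorem lowerValue_le_upperValue (N : Network) (O : N.Q) (w : ℝ≥0) :
    lowerValue N O w ≤ upperValue N O w := by
  refine iSup_le fun h => le_iInf fun s => ?_
  calc ⨅ S : SPath N O, ∫⁻ H, captureTime S H ∂(h : Measure (HPath N w))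
      = ∫⁻ _ : SPath N O, (⨅ S : SPath N O, ∫⁻ H, captureTime S H ∂(h : Measure (HPath N w)))
          ∂(s : Measure (SPath N O)) := by simp
    _ ≤ ∫⁻ S, ∫⁻ H, captureTime S H ∂(h : Measure (HPath N w)) ∂(s : Measure (SPath N O)) :=
        lintegral_mono fun S => iInf_le _ S
    _ = ∫⁻ H, ∫⁻ S, captureTime S H ∂(s : Measure (SPath N O)) ∂(h : Measure (HPath N w)) :=
        lintegral_lintegral_swap measurable_captureTime₂.aemeasurable
    _ ≤ ∫⁻ _ : HPath N w, (⨆ H : HPath N w, ∫⁻ S, captureTime S H ∂(s : Measure (SPath N O)))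
          ∂(h : Measure (HPath N w)) := lintegral_mono fun H => le_iSup (fun H : HPath N w =>
            ∫⁻ S, captureTime S H ∂(s : Measure (SPath N O))) H
    _ = ⨆ H : HPath N w, ∫⁻ S, captureTime S H ∂(s : Measure (SPath N O)) := by simp

end Pool.Agent.W972.SG
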