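import Mathlib

/-!
# One period of the wave: how many of the four options of the hider survive

In each period `[0,1]` the hider uses one of four options `o = (p,q)`: it goes from the node of the
loop towards the far point in the lane `p` and comes back in the lane `q`.  If `p = q` it turns back
at the height `1/2 - a`.  The searcher is described by its signed height `g` in the loop (negative
outside the loop) and by its lane function `l` (positive in the lane `false`, negative in the lane
`true`).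
-/

namespace Pool.Agent.W972.SG

open Set

/-- The height of the hider. -/
noncomputable def hgt (a : ℝ) (o : Bool × Bool) (s : ℝ) : ℝ :=
  if o.1 = o.2 then min (min s (1 - s)) (1 / 2 - a) else min s (1 - s)

/-- `x` has the sign of the lane `b`. -/
def SgnL (b : Bool) (x : ℝ) : Prop := if b = true then x < 0 else 0 < x

/-- The necessary condition for a meeting at the time `s` of the period. -/
def Meets (a : ℝ) (g l : ℝ → ℝ) (o : Bool × Bool) (s : ℝ) : Prop :=
  g s = hgt a o s ∧ (0 < s → s < 1 → (s < 1 / 2 ∨ o.1 = o.2) → SgnL o.1 (l s)) ∧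
    (0 < s → s < 1 → (1 / 2 < s ∨ o.1 = o.2) → SgnL o.2 (l s))

open Classical in
/-- The options which survive the whole period. -/
noncomputable def VS (a : ℝ) (g l : ℝ → ℝ) : Finset (Bool × Bool) :=
  Finset.univ.filter fun o => ∀ s, 0 ≤ s → s ≤ 1 → ¬ Meets a g l o s

open Classical in
/-- The options which survive until the time `1/2 - a`. -/
noncomputable def WS (a : ℝ) (g l : ℝ → ℝ) : Finset (Bool × Bool) :=
  Finset.univ.filter fun o => ∀ s, 0 ≤ s → s ≤ 1 / 2 - a → ¬ Meets a g l o s

/-- The hypotheses on the searcher. -/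
structure Good (g l : ℝ → ℝ) : Prop where
  hg : ∀ s t, |g s - g t| ≤ |s - t|
  hl : Continuous l
  hz : ∀ s, l s = 0 → g s ≤ 0 ∨ g s = 1 / 2
  hm : ∀ s, g s ≤ 1 / 2

def EvE (a : ℝ) (g : ℝ → ℝ) : Prop :=
  ∃ s0, 0 ≤ s0 ∧ s0 ≤ 2 * a ∧ ∃ s1, 1 / 2 - a ≤ s1 ∧ s1 ≤ 1 / 2 + a ∧ g s0 ≤ 0 ∧ 1 / 2 - a ≤ g s1

def EvF (a : ℝ) (g : ℝ → ℝ) : Prop :=
  ∃ s0, 1 - 2 * a ≤ s0 ∧ s0 ≤ 1 ∧ ∃ s1, 1 / 2 - a ≤ s1 ∧ s1 ≤ 1 / 2 + a ∧ g s0 ≤ 0 ∧
    1 / 2 - a ≤ g s1

def EvP (a : ℝ) (g : ℝ → ℝ) : Prop :=
  g (1 / 2 - a) = 1 / 2 - a ∧ g (1 / 2) = 1 / 2 ∧ g (1 / 2 + a) = 1 / 2 - a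

def OutC (g l : ℝ → ℝ) (p : Bool) : Prop := ∃ s, 0 < s ∧ s < 1 / 2 ∧ g s = s ∧ SgnL p (l s)

def InC (g l : ℝ → ℝ) (q : Bool) : Prop := ∃ s, 1 / 2 < s ∧ s < 1 ∧ g s = 1 - s ∧ SgnL q (l s)

variable {a : ℝ} {g l : ℝ → ℝ}

theorem Good.le_add (H : Good g l) (s t : ℝ) (h : s ≤ t) : g t ≤ g s + (t - s) := by
  have h1 := H.hg t s
  rw [abs_of_nonneg (by linarith : (0 : ℝ) ≤ t - s)] at h1
  have := (abs_le.1 h1).2
  linarith

theorem Good.ge_sub (H : Good g l) (s t : ℝ) (h : s ≤ t) : g s ≤ g t + (t - s) := by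
  have h1 := H.hg t s
  rw [abs_of_nonneg (by linarith : (0 : ℝ) ≤ t - s)] at h1
  have := (abs_le.1 h1).1
  linarith

/-- Between two times at which the lanes differ there is a time at which `l` vanishes. -/
theorem Good.change (H : Good g l) {p q : Bool} (hpq : p ≠ q) {s t : ℝ} (hst : s ≤ t)
    (hs : SgnL p (l s)) (ht : SgnL q (l t)) :
    ∃ u, s < u ∧ u < t ∧ (g u ≤ 0 ∨ g u = 1 / 2) := by
  have hne : l s ≠ 0 ∧ l t ≠ 0 := by
    constructor
    · intro h; rw [h] at hs; unfold SgnL at hs; split_ifs at hs <;> exact lt_irrefl _ hs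
    · intro h; rw [h] at ht; unfold SgnL at ht; split_ifs at ht <;> exact lt_irrefl _ ht
  have : ∃ u ∈ Icc s t, l u = 0 := by
    cases p <;> cases q
    · exact absurd rfl hpq
    · have hs' : 0 < l s := by simpa [SgnL] using hs
      have ht' : l t < 0 := by simpa [SgnL] using ht
      exact intermediate_value_Icc' hst H.hl.continuousOn ⟨ht'.le, hs'.le⟩
    · have hs' : l s < 0 := by simpa [SgnL] using hs
      have ht' : 0 < l t := by simpa [SgnL] using ht
      exact intermediate_value_Icc hst H.hl.continuousOn ⟨hs'.le, ht'.le⟩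
    · exact absurd rfl hpq
  obtain ⟨u, hu, hu0⟩ := this
  refine ⟨u, lt_of_le_of_ne hu.1 ?_, lt_of_le_of_ne hu.2 ?_, H.hz u hu0⟩
  · rintro rfl; exact hne.1 hu0
  · rintro rfl; exact hne.2 hu0

theorem Good.rev (H : Good g l) : Good (fun s => g (1 - s)) (fun s => l (1 - s)) where
  hg := by
    intro s t
    have := H.hg (1 - s) (1 - t)
    rwa [show (1 - s) - (1 - t) = -(s - t) by ring, abs_neg] at this
  hl := H.hl.comp (continuous_const.sub continuous_id)
  hz := fun s h => H.hz _ h
  hm := fun s => H.hm _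

theorem Good.out_aux (H : Good g l) {p q : Bool} (hpq : p ≠ q) {s t : ℝ} (hs0 : 0 < s)
    (ht2 : t < 1 / 2) (hst : s ≤ t) (hgs : g s = s) (hgt : g t = t)
    (hs : SgnL p (l s)) (ht : SgnL q (l t)) : False := by
  obtain ⟨u, hu1, hu2, hu3⟩ := H.change hpq hst hs ht
  rcases hu3 with h | h
  · have := H.le_add u t hu2.le
    linarith
  · have := H.le_add s u hu1.le
    linarith

theorem Good.not_out (H : Good g l) : ∃ p, ¬ OutC g l p := by
  by_contra hcon
  push Not at hcon
  obtain ⟨s, hs0, hs1, hs2, hs3⟩ := hcon false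
  obtain ⟨t, ht0, ht1, ht2, ht3⟩ := hcon true
  rcases le_total s t with h | h
  · exact H.out_aux (by decide) hs0 ht1 h hs2 ht2 hs3 ht3
  · exact H.out_aux (by decide) ht0 hs1 h ht2 hs2 ht3 hs3

theorem inC_iff (q : Bool) : InC g l q ↔ OutC (fun s => g (1 - s)) (fun s => l (1 - s)) q := by
  constructor
  · rintro ⟨s, h1, h2, h3, h4⟩
    refine ⟨1 - s, by linarith, by linarith, ?_, ?_⟩
    · simpa using h3
    · simpa using h4
  · rintro ⟨s, h1, h2, h3, h4⟩
    exact ⟨1 - s, by linarith, by linarith, by simpa using h3, by simpa using h4⟩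

theorem Good.not_in (H : Good g l) : ∃ q, ¬ InC g l q := by
  obtain ⟨q, hq⟩ := H.rev.not_out
  exact ⟨q, fun h => hq ((inC_iff q).1 h)⟩

/-- The ways to be captured. -/
theorem captured_cases (ha : 0 < a) (ha' : a < 1 / 8) (h0 : g 0 ≠ 0) (h1 : g 1 ≠ 0)
    {o : Bool × Bool} {s : ℝ} (hs0 : 0 ≤ s) (hs1 : s ≤ 1) (hm : Meets a g l o s) :
    OutC g l o.1 ∨ InC g l o.2 ∨ (o.1 ≠ o.2 ∧ g (1 / 2) = 1 / 2) ∨
      (o.1 = o.2 ∧ 1 / 2 - a ≤ s ∧ s ≤ 1 / 2 + a ∧ g s = 1 / 2 - a) := by
  obtain ⟨hh, hp, hq⟩ := hm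
  have hs0' : 0 < s := by
    rcases hs0.lt_or_eq with h | h
    · exact h
    · exfalso
      subst h
      apply h0
      rw [hh, hgt]
      split_ifs
      · rw [min_eq_left (by rw [min_eq_left] <;> linarith), min_eq_left (by norm_num)]
      · rw [min_eq_left (by norm_num)]
  have hs1' : s < 1 := by
    rcases hs1.lt_or_eq with h | h
    · exact h
    · exfalso
      subst h
      apply h1
      rw [hh, hgt]
      split_ifs
      · rw [min_eq_left (by rw [min_eq_right] <;> linarith), min_eq_right (by norm_num)]; norm_num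
      · rw [min_eq_right (by norm_num)]; norm_num
  by_cases heq : o.1 = o.2
  · rw [hgt, if_pos heq] at hh
    rcases lt_or_ge s (1 / 2 - a) with h | h
    · left
      refine ⟨s, hs0', by linarith, ?_, hp hs0' hs1' (Or.inr heq)⟩
      rw [hh, min_eq_left (a := s) (by linarith), min_eq_left (by linarith)]
    · rcases le_or_gt s (1 / 2 + a) with h2 | h2
      · right; right; right
        refine ⟨heq, h, h2, ?_⟩
        rw [hh, min_eq_right]
        rw [le_min_iff]
        constructor <;> linarith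
      · right; left
        refine ⟨s, by linarith, hs1', ?_, hq hs0' hs1' (Or.inr heq)⟩
        rw [hh, min_eq_right (a := s) (by linarith), min_eq_left (by linarith)]
  · rw [hgt, if_neg heq] at hh
    rcases lt_trichotomy s (1 / 2) with h | h | h
    · left
      refine ⟨s, hs0', h, ?_, hp hs0' hs1' (Or.inl h)⟩
      rw [hh, min_eq_left (by linarith)]
    · right; right; left
      refine ⟨heq, ?_⟩
      subst h
      rw [hh, min_eq_left (by linarith)]
    · right; left
      refine ⟨s, h, hs1', ?_, hq hs0' hs1' (Or.inl h)⟩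
      rw [hh, min_eq_right (by linarith)]

theorem mem_VS (o : Bool × Bool) : o ∈ VS a g l ↔ ∀ s, 0 ≤ s → s ≤ 1 → ¬ Meets a g l o s := by
  simp [VS]

theorem mem_WS (o : Bool × Bool) :
    o ∈ WS a g l ↔ ∀ s, 0 ≤ s → s ≤ 1 / 2 - a → ¬ Meets a g l o s := by
  simp [WS]

theorem not_out_of_neg (H : Good g l) (h0 : g 0 < 0) (p : Bool) : ¬ OutC g l p := by
  rintro ⟨s, h1, h2, h3, h4⟩
  have := H.le_add 0 s h1.le
  linarith

theorem not_in_of_neg (H : Good g l) (h0 : g 1 < 0) (p : Bool) : ¬ InC g l p := by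
  rintro ⟨s, h1, h2, h3, h4⟩
  have := H.ge_sub s 1 h2.le
  linarith

theorem mid_of_neg (H : Good g l) (h0 : g 0 < 0) : g (1 / 2) ≠ 1 / 2 := by
  intro h
  have := H.le_add 0 (1 / 2) (by norm_num)
  linarith

theorem mid_of_neg' (H : Good g l) (h0 : g 1 < 0) : g (1 / 2) ≠ 1 / 2 := by
  intro h
  have := H.ge_sub (1 / 2) 1 (by norm_num)
  linarith

theorem VS_out_out (ha : 0 < a) (ha' : a < 1 / 8) (H : Good g l) (h0 : g 0 < 0) (h1 : g 1 < 0)
    (hE : ¬ EvE a g) : 4 ≤ (VS a g l).card := by
  have : VS a g l = Finset.univ := by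
    rw [Finset.eq_univ_iff_forall]
    intro o
    rw [mem_VS]
    intro s hs0 hs1 hm
    rcases captured_cases ha ha' h0.ne h1.ne hs0 hs1 hm with h | h | h | h
    · exact not_out_of_neg H h0 _ h
    · exact not_in_of_neg H h1 _ h
    · exact mid_of_neg H h0 h.2
    · exact hE ⟨0, le_rfl, by linarith, s, h.2.1, h.2.2.1, h0.le, h.2.2.2.ge⟩
  rw [this]
  decide

theorem VS_in_out (ha : 0 < a) (ha' : a < 1 / 8) (H : Good g l) (h0 : g 0 ≠ 0) (h1 : g 1 < 0)
    (hF : ¬ EvF a g) : 2 ≤ (VS a g l).card := by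
  obtain ⟨p, hp⟩ := H.not_out
  have : ({(p, false), (p, true)} : Finset (Bool × Bool)) ⊆ VS a g l := by
    intro o ho
    have ho1 : o.1 = p := by
      simp only [Finset.mem_insert, Finset.mem_singleton] at ho
      rcases ho with rfl | rfl <;> rfl
    rw [mem_VS]
    intro s hs0 hs1 hm
    rcases captured_cases ha ha' h0 h1.ne hs0 hs1 hm with h | h | h | h
    · exact hp (ho1 ▸ h)
    · exact not_in_of_neg H h1 _ h
    · exact mid_of_neg' H h1 h.2
    · exact hF ⟨1, by linarith, le_rfl, s, h.2.1, h.2.2.1, h1.le, h.2.2.2.ge⟩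
  refine le_trans ?_ (Finset.card_le_card this)
  cases p <;> decide

theorem VS_out_in (ha : 0 < a) (ha' : a < 1 / 8) (H : Good g l) (h0 : g 0 < 0) (h1 : g 1 ≠ 0)
    (hE : ¬ EvE a g) : 2 ≤ (VS a g l).card := by
  obtain ⟨q, hq⟩ := H.not_in
  have : ({(false, q), (true, q)} : Finset (Bool × Bool)) ⊆ VS a g l := by
    intro o ho
    have ho1 : o.2 = q := by
      simp only [Finset.mem_insert, Finset.mem_singleton] at ho
      rcases ho with rfl | rfl <;> rfl
    rw [mem_VS]
    intro s hs0 hs1 hm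
    rcases captured_cases ha ha' h0.ne h1 hs0 hs1 hm with h | h | h | h
    · exact not_out_of_neg H h0 _ h
    · exact hq (ho1 ▸ h)
    · exact mid_of_neg H h0 h.2
    · exact hE ⟨0, le_rfl, by linarith, s, h.2.1, h.2.2.1, h0.le, h.2.2.2.ge⟩
  refine le_trans ?_ (Finset.card_le_card this)
  cases q <;> decide

/-- The main case: an ordered pair of captures of the two options which turn back. -/
theorem in_in_aux (ha : 0 < a) (ha' : a < 1 / 8) (H : Good g l) (h0 : g 0 ≠ 0) (h1 : g 1 ≠ 0)
    (hE : ¬ EvE a g) (hF : ¬ EvF a g) (hP : ¬ EvP a g) {p q : Bool} (hpq : p ≠ q) {s t : ℝ}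
    (hs0 : 0 < s) (ht1 : t < 1) (hst : s ≤ t)
    (hgs : g s = min (min s (1 - s)) (1 / 2 - a)) (hgt' : g t = min (min t (1 - t)) (1 / 2 - a))
    (hs : SgnL p (l s)) (ht : SgnL q (l t)) (hqp : (q, p) ∉ VS a g l) : False := by
  obtain ⟨u, hu1, hu2, hu3⟩ := H.change hpq hst hs ht
  have hs1 : s < 1 := by linarith
  have ht0 : 0 < t := by linarith
  have m1 := min_le_left (min s (1 - s)) (1 / 2 - a)
  have m2 := min_le_left s (1 - s)
  have m3 := min_le_right s (1 - s)
  have m4 := min_le_right (min s (1 - s)) (1 / 2 - a)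
  have n1 := min_le_left (min t (1 - t)) (1 / 2 - a)
  have n2 := min_le_left t (1 - t)
  have n3 := min_le_right t (1 - t)
  have n4 := min_le_right (min t (1 - t)) (1 / 2 - a)
  rcases hu3 with h | h
  · -- through the node
    have e1 := H.le_add u t hu2.le
    have e2 := H.ge_sub s u hu1.le
    -- t > 1/2 + a
    have ht2 : 1 / 2 + a < t := by
      by_contra hcon
      rw [not_lt] at hcon
      rcases lt_or_ge t (1 / 2 - a) with h3 | h3
      · have : min (min t (1 - t)) (1 / 2 - a) = t := by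
          rw [min_eq_left (a := t) (by linarith), min_eq_left (by linarith)]
        rw [hgt', this] at e1
        linarith
      · have : min (min t (1 - t)) (1 / 2 - a) = 1 / 2 - a := by
          rw [min_eq_right]
          rw [le_min_iff]
          constructor <;> linarith
        rw [hgt', this] at e1
        exact hE ⟨u, by linarith, by linarith, t, h3, hcon, h, by rw [hgt', this]⟩
    have hs2 : s < 1 / 2 - a := by
      by_contra hcon
      rw [not_lt] at hcon
      rcases lt_or_ge (1 / 2 + a) s with h3 | h3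
      · have : min (min s (1 - s)) (1 / 2 - a) = 1 - s := by
          rw [min_eq_right (a := s) (by linarith), min_eq_left (by linarith)]
        rw [hgs, this] at e2
        linarith
      · have : min (min s (1 - s)) (1 / 2 - a) = 1 / 2 - a := by
          rw [min_eq_right]
          rw [le_min_iff]
          constructor <;> linarith
        rw [hgs, this] at e2
        exact hF ⟨u, by linarith, by linarith, s, hcon, h3, h, by rw [hgs, this]⟩
    have hout : OutC g l p := by
      refine ⟨s, hs0, by linarith, ?_, hs⟩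
      rw [hgs, min_eq_left (a := s) (by linarith), min_eq_left (by linarith)]
    have hin : InC g l q := by
      refine ⟨t, by linarith, ht1, ?_, ht⟩
      rw [hgt', min_eq_right (a := t) (by linarith), min_eq_left (by linarith)]
    have hnout : ¬ OutC g l q := by
      obtain ⟨r, hr⟩ := H.not_out
      have : r ≠ p := by rintro rfl; exact hr hout
      have : r = q := by cases r <;> cases p <;> cases q <;> simp_all
      rwa [this] at hr
    have hnin : ¬ InC g l p := by
      obtain ⟨r, hr⟩ := H.not_in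
      have : r ≠ q := by rintro rfl; exact hr hin
      have : r = p := by cases r <;> cases p <;> cases q <;> simp_all
      rwa [this] at hr
    rw [mem_VS] at hqp
    push Not at hqp
    obtain ⟨v, hv0, hv1, hv2⟩ := hqp
    rcases captured_cases ha ha' h0 h1 hv0 hv1 hv2 with h4 | h4 | h4 | h4
    · exact hnout h4
    · exact hnin h4
    · rcases le_total u (1 / 2) with h5 | h5
      · have := H.le_add u (1 / 2) h5
        linarith [h4.2]
      · have := H.ge_sub (1 / 2) u h5
        linarith [h4.2]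
    · exact hpq h4.1.symm
  · -- through the far point
    have e1 := H.ge_sub u t hu2.le
    have e2 := H.le_add s u hu1.le
    have hu : u = 1 / 2 := by
      apply le_antisymm <;> linarith
    subst hu
    have hs3 : g s = s := by
      apply le_antisymm <;> linarith
    have ht3 : g t = 1 - t := by
      apply le_antisymm <;> linarith
    apply hP
    refine ⟨?_, h, ?_⟩
    · have f1 := H.le_add s (1 / 2 - a) (by linarith)
      have f2 := H.le_add (1 / 2 - a) (1 / 2) (by linarith)
      apply le_antisymm <;> linarith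
    · have f1 := H.ge_sub (1 / 2 + a) t (by linarith)
      have f2 := H.ge_sub (1 / 2) (1 / 2 + a) (by linarith)
      apply le_antisymm <;> linarith

theorem VS_in_in (ha : 0 < a) (ha' : a < 1 / 8) (H : Good g l) (h0 : g 0 ≠ 0) (h1 : g 1 ≠ 0)
    (hE : ¬ EvE a g) (hF : ¬ EvF a g) (hP : ¬ EvP a g) : 1 ≤ (VS a g l).card := by
  by_contra hcon
  have hV : VS a g l = ∅ := by
    rw [← Finset.card_eq_zero]; omega
  have hall : ∀ o, o ∉ VS a g l := by
    intro o; rw [hV]; exact Finset.notMem_empty o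
  have key : ∀ p : Bool, ∃ s, 0 < s ∧ s < 1 ∧ g s = min (min s (1 - s)) (1 / 2 - a) ∧
      SgnL p (l s) := by
    intro p
    have := hall (p, p)
    rw [mem_VS] at this
    push Not at this
    obtain ⟨s, hs0, hs1, hh, hp, hq⟩ := this
    rw [hgt, if_pos rfl] at hh
    have hs0' : 0 < s := by
      rcases hs0.lt_or_eq with h | h
      · exact h
      · exfalso
        subst h
        apply h0
        rw [hh, min_eq_left (by rw [min_eq_left] <;> linarith), min_eq_left (by norm_num)]
    have hs1' : s < 1 := by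
      rcases hs1.lt_or_eq with h | h
      · exact h
      · exfalso
        subst h
        apply h1
        rw [hh, min_eq_left (by rw [min_eq_right] <;> linarith), min_eq_right (by norm_num)]
        norm_num
    exact ⟨s, hs0', hs1', hh, hp hs0' hs1' (Or.inr rfl)⟩
  obtain ⟨s, hs0, hs1, hs2, hs3⟩ := key false
  obtain ⟨t, ht0, ht1, ht2, ht3⟩ := key true
  rcases le_total s t with h | h
  · exact in_in_aux ha ha' H h0 h1 hE hF hP (by decide) hs0 ht1 h hs2 ht2 hs3 ht3 (hall _)
  · exact in_in_aux ha ha' H h0 h1 hE hF hP (by decide) ht0 hs1 h ht2 hs2 ht3 hs3 (hall _)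

/-- The times `≤ 1/2 - a`. -/
theorem captured_early (ha : 0 < a) (h0 : g 0 ≠ 0)
    {o : Bool × Bool} {s : ℝ} (hs0 : 0 ≤ s) (hs1 : s ≤ 1 / 2 - a) (hm : Meets a g l o s) :
    OutC g l o.1 := by
  obtain ⟨hh, hp, hq⟩ := hm
  have hh' : g s = s := by
    rw [hh, hgt]
    split_ifs
    · rw [min_eq_left (a := s) (by linarith), min_eq_left (by linarith)]
    · rw [min_eq_left (by linarith)]
  have hs0' : 0 < s := by
    rcases hs0.lt_or_eq with h | h
    · exact h
    · exfalso; subst h; exact h0 hh'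
  exact ⟨s, hs0', by linarith, hh', hp hs0' (by linarith) (Or.inl (by linarith))⟩

theorem WS_two (ha : 0 < a) (H : Good g l) (h0 : g 0 ≠ 0) : 2 ≤ (WS a g l).card := by
  obtain ⟨p, hp⟩ := H.not_out
  have : ({(p, false), (p, true)} : Finset (Bool × Bool)) ⊆ WS a g l := by
    intro o ho
    have ho1 : o.1 = p := by
      simp only [Finset.mem_insert, Finset.mem_singleton] at ho
      rcases ho with rfl | rfl <;> rfl
    rw [mem_WS]
    intro s hs0 hs1 hm
    exact hp (ho1 ▸ captured_early ha h0 hs0 hs1 hm)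
  refine le_trans ?_ (Finset.card_le_card this)
  cases p <;> decide

theorem WS_four (ha : 0 < a) (H : Good g l) (h0 : g 0 < 0) : 4 ≤ (WS a g l).card := by
  have : WS a g l = Finset.univ := by
    rw [Finset.eq_univ_iff_forall]
    intro o
    rw [mem_WS]
    intro s hs0 hs1 hm
    exact not_out_of_neg H h0 _ (captured_early ha h0.ne hs0 hs1 hm)
  rw [this]
  decide

end Pool.Agent.W972.SG
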