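import Pool.Agent.W972.SG.Chain
import Pool.Agent.W972.SG.Meas
import Pool.Agent.W972.SG.Cover

/-!
# The strategy of the searcher on the necklace
-/

namespace Pool.Agent.W972.SG

open MeasureTheory Set Filter Topology ProbabilityTheory
open scoped ENNReal NNReal
open Pool.Agent.Helper569.Net

/-- The random choices of one step: the first component decides whether the searcher guards, the
second one is the lane. -/
abbrev Coin : Type := Fin 12 × Bool

/-- The next state. -/
def nxt (s : Fin 16) (c : Coin) : Fin 16 := if c.1 = 0 then nx1 s else nx0 s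

/-- The state at the time `n`. -/
def XX (ω : ℕ → Coin) : ℕ → Fin 16
  | 0 => if (ω 0).2 = true then 1 else 0
  | n + 1 => nxt (XX ω n) (ω (n + 1))

theorem posT_nxt : ∀ (s : Fin 16) (c : Coin), posT (nxt s c) = tgtT s := by decide

theorem posT_le : ∀ s : Fin 16, posT s ≤ 6 := by decide

theorem tgtT_le : ∀ s : Fin 16, tgtT s ≤ 6 := by decide

theorem tgtT_sub (s : Fin 16) : |(tgtT s : ℝ) - posT s| ≤ 1 := by
  fin_cases s <;> norm_num [posT, tgtT]

theorem posT_guard : ∀ s : Fin 16, tgtT s = posT s → posT s = 1 ∨ posT s = 5 := by decide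

theorem posT_init : ∀ b : Bool, posT (if b = true then 1 else 0) = 3 := by decide

/-- The coordinate during a step. -/
noncomputable def crd (s : Fin 16) (u : ℝ) : ℝ := (posT s : ℝ) + ((tgtT s : ℝ) - posT s) * u

/-- The position during a step. -/
noncomputable def sgo (s : Fin 16) (b : Bool) (u : ℝ) : necklace.Q := Gam b (crd s u)

theorem crd_zero (s : Fin 16) : crd s 0 = posT s := by simp [crd]

theorem crd_one (s : Fin 16) : crd s 1 = tgtT s := by simp [crd]

theorem crd_mem (s : Fin 16) {u : ℝ} (h0 : 0 ≤ u) (h1 : u ≤ 1) : 0 ≤ crd s u ∧ crd s u ≤ 6 := by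
  have h2 : (posT s : ℝ) ≤ 6 := by exact_mod_cast posT_le s
  have h3 : (tgtT s : ℝ) ≤ 6 := by exact_mod_cast tgtT_le s
  have h4 : (0 : ℝ) ≤ posT s := by positivity
  have h5 : (0 : ℝ) ≤ tgtT s := by positivity
  unfold crd
  constructor <;> nlinarith

theorem crd_lip (s : Fin 16) : LipschitzWith 1 (crd s) := by
  refine LipschitzWith.of_dist_le_mul fun x y => ?_
  rw [NNReal.coe_one, one_mul, Real.dist_eq, Real.dist_eq]
  unfold crd
  rw [show (posT s : ℝ) + ((tgtT s : ℝ) - posT s) * x - ((posT s : ℝ) + ((tgtT s : ℝ) - posT s) * y)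
    = ((tgtT s : ℝ) - posT s) * (x - y) by ring, abs_mul]
  exact mul_le_of_le_one_left (abs_nonneg _) (tgtT_sub s)

theorem sgo_lip (s : Fin 16) (b : Bool) : LipschitzWith 1 (sgo s b) := by
  have := (Gam_lip b).comp (crd_lip s)
  rw [mul_one] at this
  exact this

theorem sgo_zero (s : Fin 16) (b b' : Bool) : sgo s b 0 = sgo s b' 0 := by
  unfold sgo
  rw [crd_zero]
  exact Gam_nat b b' _ (posT_le s)

/-- The path of the searcher. -/
noncomputable def spos (ω : ℕ → Coin) (t : ℝ≥0) : necklace.Q :=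
  sgo (XX ω ⌊t⌋₊) (ω (⌊t⌋₊ + 1)).2 ((t : ℝ) - (⌊t⌋₊ : ℝ))

theorem spos_on (ω : ℕ → Coin) (n : ℕ) (t : ℝ≥0) (h1 : (n : ℝ≥0) ≤ t) (h2 : t ≤ n + 1) :
    spos ω t = sgo (XX ω n) (ω (n + 1)).2 ((t : ℝ) - n) := by
  rcases h2.lt_or_eq with h | h
  · have : ⌊t⌋₊ = n := (Nat.floor_eq_iff zero_le).2 ⟨h1, h⟩
    unfold spos
    rw [this]
  · have h3 : ⌊t⌋₊ = n + 1 := by
      rw [h]
      exact_mod_cast Nat.floor_natCast (R := ℝ≥0) (n + 1)
    unfold spos
    rw [h3, h]
    push_cast
    rw [sub_self, add_sub_cancel_left]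
    unfold sgo
    rw [crd_zero, crd_one, XX, posT_nxt]
    exact Gam_nat _ _ _ (tgtT_le _)

theorem spos_lip (ω : ℕ → Coin) : LipschitzWith 1 (spos ω) := by
  apply lip_nat_steps
  intro n x y h1 h2 h3
  rw [spos_on ω n x h1 (h2.trans h3), spos_on ω n y (h1.trans h2) h3]
  refine (sgo_lip (XX ω n) (ω (n + 1)).2 _ _).trans (le_of_eq ?_)
  congr 1
  rw [edist_dist, edist_dist, Real.dist_eq, NNReal.dist_eq, sub_sub_sub_cancel_right]

/-- The starting point: the node with the coordinate `3`. -/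
noncomputable def start : necklace.Q := necklace.node (4 : Fin 9)

theorem Gam_three (b : Bool) : Gam b ((3 : ℕ) : ℝ) = start := by
  have h1 : ((3 : ℕ) : ℝ) = co ((4 : Fin 8) : ℕ) := by
    have : co ((4 : Fin 8) : ℕ) = 3 := rfl
    rw [this]; norm_num
  rw [h1, Gam_seg b 4 _ le_rfl (co_lt 4).le, gseg_left]
  rfl

theorem spos_zero (ω : ℕ → Coin) : spos ω 0 = start := by
  have h := spos_on ω 0 0 (by simp) (by simp)
  rw [h]
  unfold sgo
  simp only [NNReal.coe_zero, Nat.cast_zero, sub_zero]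
  rw [crd_zero, XX, posT_init]
  exact Gam_three _

theorem co_ne : ∀ v : Fin 9, co (v : ℕ) ≠ 1 ∧ co (v : ℕ) ≠ 5 := by
  intro v
  fin_cases v <;> norm_num [co]

theorem node_times (s : Fin 16) (v : Fin 9) : {u : ℝ | crd s u = co (v : ℕ)}.Subsingleton := by
  intro u hu u' hu'
  by_cases h : tgtT s = posT s
  · exfalso
    have h1 : crd s u = posT s := by unfold crd; rw [h]; ring
    have h2 : co (v : ℕ) = posT s := by rw [← h1]; exact hu.symm
    rcases posT_guard s h with h3 | h3
    · exact (co_ne v).1 (by rw [h2, h3]; norm_num)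
    · exact (co_ne v).2 (by rw [h2, h3]; norm_num)
  · have h1 : crd s u = crd s u' := (show crd s u = co (v : ℕ) from hu).trans
      (show crd s u' = co (v : ℕ) from hu').symm
    unfold crd at h1
    have h2 : (tgtT s : ℝ) - posT s ≠ 0 := by
      rw [sub_ne_zero]; exact_mod_cast h
    have h3 : ((tgtT s : ℝ) - posT s) * u = ((tgtT s : ℝ) - posT s) * u' := by linarith
    exact mul_left_cancel₀ h2 h3

theorem spos_nonloiter (ω : ℕ → Coin) :
    volume {t : ℝ | 0 ≤ t ∧ spos ω t.toNNReal ∈ range necklace.node} = 0 := by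
  have hsub : {t : ℝ | 0 ≤ t ∧ spos ω t.toNNReal ∈ range necklace.node} ⊆
      ⋃ n : ℕ, ⋃ v : Fin 9, {t : ℝ | crd (XX ω n) (t - n) = co (v : ℕ)} := by
    rintro t ⟨ht0, (v : Fin 9), hv⟩
    rw [mem_iUnion]
    refine ⟨⌊t.toNNReal⌋₊, ?_⟩
    rw [mem_iUnion]
    refine ⟨v, ?_⟩
    set n := ⌊t.toNNReal⌋₊ with hn
    have h1 : (n : ℝ≥0) ≤ t.toNNReal := Nat.floor_le zero_le
    have h2 : t.toNNReal ≤ n + 1 := (Nat.lt_floor_add_one _).le
    have h3 := spos_on ω n t.toNNReal h1 h2
    rw [Real.coe_toNNReal t ht0] at h3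
    have h4 : cP.f (spos ω t.toNNReal) = co (v : ℕ) := by rw [← hv]; rfl
    have h5 : (n : ℝ) ≤ t := by
      have : ((n : ℝ≥0) : ℝ) ≤ (t.toNNReal : ℝ) := by exact_mod_cast h1
      rwa [Real.coe_toNNReal t ht0, NNReal.coe_natCast] at this
    have h6 : t ≤ n + 1 := by
      have : (t.toNNReal : ℝ) ≤ (((n : ℝ≥0) + 1 : ℝ≥0) : ℝ) := by exact_mod_cast h2
      rw [Real.coe_toNNReal t ht0] at this
      push_cast at this
      exact this
    have h7 := crd_mem (XX ω n) (u := t - n) (by linarith) (by linarith)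
    rw [h3, sgo, cP_Gam _ _ h7.1 h7.2] at h4
    exact h4
  refine measure_mono_null hsub ?_
  refine Set.Countable.measure_zero ?_ _
  refine countable_iUnion fun n => countable_iUnion fun v => ?_
  refine Set.Subsingleton.countable ?_
  intro t ht t' ht'
  have := node_times (XX ω n) v ht ht'
  linarith

/-- The path of the searcher, as a pure strategy. -/
noncomputable def sp (ω : ℕ → Coin) : SPath necklace start :=
  ⟨⟨spos ω, spos_zero ω, spos_lip ω⟩, spos_nonloiter ω⟩

theorem sp_pos (ω : ℕ → Coin) (t : ℝ≥0) : (sp ω).pos t = spos ω t := rfl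

theorem continuous_XX : ∀ n : ℕ, Continuous (fun ω : ℕ → Coin => XX ω n) := by
  intro n
  induction n with
  | zero =>
    exact (continuous_of_discreteTopology (f := fun c : Coin => if c.2 = true then (1 : Fin 16)
      else 0)).comp (continuous_apply 0)
  | succ n ih =>
    exact (continuous_of_discreteTopology (f := fun p : Fin 16 × Coin => nxt p.1 p.2)).comp
      (ih.prodMk (continuous_apply (n + 1)))

theorem continuous_sp : Continuous sp := by
  refine continuous_induced_rng.2 ?_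
  refine continuous_pi fun t => ?_
  change Continuous fun ω => spos ω t
  exact (continuous_of_discreteTopology (f := fun p : Fin 16 × Coin =>
    sgo p.1 p.2.2 ((t : ℝ) - (⌊t⌋₊ : ℝ)))).comp
    ((continuous_XX _).prodMk (continuous_apply (⌊t⌋₊ + 1)))

end Pool.Agent.W972.SG
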